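import Pool.Agent.Work.MP_db9399_qr.Interface
import Pool.Agent.Work.MP_db9399_all_helper6.LLLI

/-!
# Block PART: the two sides and the cells (helper75)
-/

set_option autoImplicit false

namespace Pool.Agent.Work.MP_db9399_qr

open Finset Classical
open Pool.Agent.Work.MP_db9399_all (nb pr DepOnI PackI)

universe u

namespace PARTAux

/-- Chernoff bound in a product space, both signs. -/
theorem chern {J : Type u} [Fintype J] {M : ℕ} (hM : 0 < M) (Q : Finset J)
    (x : J → Fin M → ℝ) (hx : ∀ y c, x y c = 0 ∨ x y c = 1) (S : ℝ)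
    (hS : ∑ y ∈ Q, ∑ c, x y c = S * M) (l t : ℝ) (hl : |l| ≤ 1) :
    pr (fun f : J → Fin M => l * t ≤ l * ∑ y ∈ Q, x y (f y)) ≤
      Real.exp (S * (l + l ^ 2) - l * t) := by
  have hMr : (0 : ℝ) < M := by exact_mod_cast hM
  set g : J → Fin M → ℝ := fun y c => if y ∈ Q then Real.exp (l * x y c) else 1 with hg
  have hx0 : ∀ y c, 0 ≤ x y c := fun y c => by
    rcases hx y c with h | h
    · rw [h]
    · rw [h]; norm_num
  have h1 : (((univ.filter (fun f : J → Fin M => l * t ≤ l * ∑ y ∈ Q, x y (f y))).card : ℝ)) *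
      Real.exp (l * t) ≤ ∑ f : J → Fin M, ∏ y, g y (f y) := by
    have h2 : ∀ f : J → Fin M, ∏ y, g y (f y) = Real.exp (l * ∑ y ∈ Q, x y (f y)) := by
      intro f
      rw [Finset.mul_sum, Real.exp_sum, hg]
      simp only
      rw [Finset.prod_ite]
      simp
    rw [← nsmul_eq_mul, ← Finset.sum_const]
    refine (Finset.sum_le_sum (g := fun f : J → Fin M => ∏ y, g y (f y)) ?_).trans
      (Finset.sum_le_sum_of_subset_of_nonneg (Finset.subset_univ _) ?_)
    · intro f hf
      rw [h2]
      exact Real.exp_le_exp.2 (Finset.mem_filter.1 hf).2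
    · intro f _ _
      rw [h2]
      exact (Real.exp_pos _).le
  have h3 : ∑ f : J → Fin M, ∏ y, g y (f y) = ∏ y, ∑ c, g y c := by
    rw [Finset.prod_univ_sum]
    simp [Fintype.piFinset_univ]
  have h4 : ∀ y, ∑ c, g y c ≤ M * Real.exp (if y ∈ Q then
      (Real.exp l - 1) * ((∑ c, x y c) / M) else 0) := by
    intro y
    by_cases hy : y ∈ Q
    · simp only [hg, if_pos hy]
      have h5 : ∀ c, Real.exp (l * x y c) = 1 + (Real.exp l - 1) * x y c := by
        intro c
        rcases hx y c with h | h <;> rw [h] <;> simp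
      simp_rw [h5]
      rw [Finset.sum_add_distrib, ← Finset.mul_sum, Finset.sum_const, Finset.card_univ,
        Fintype.card_fin, nsmul_eq_mul, mul_one]
      have h6 := Real.add_one_le_exp ((Real.exp l - 1) * ((∑ c, x y c) / M))
      calc (M : ℝ) + (Real.exp l - 1) * ∑ c, x y c
          = M * ((Real.exp l - 1) * ((∑ c, x y c) / M) + 1) := by field_simp; ring
        _ ≤ _ := mul_le_mul_of_nonneg_left h6 hMr.le
    · simp [hg, if_neg hy]
  have h7 : ∏ y, ∑ c, g y c ≤ (M : ℝ) ^ Fintype.card J * Real.exp ((Real.exp l - 1) * S) := by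
    refine (Finset.prod_le_prod (fun y _ => Finset.sum_nonneg fun c _ => ?_)
      (fun y _ => h4 y)).trans (le_of_eq ?_)
    · simp only [hg]
      split_ifs
      · exact (Real.exp_pos _).le
      · norm_num
    · rw [Finset.prod_mul_distrib, Finset.prod_const, Finset.card_univ, ← Real.exp_sum]
      congr 2
      rw [Finset.sum_ite_mem, Finset.univ_inter, ← Finset.mul_sum, ← Finset.sum_div, hS]
      field_simp
  have hS0 : 0 ≤ S := by
    have : 0 ≤ S * M := by
      rw [← hS]
      exact Finset.sum_nonneg fun y _ => Finset.sum_nonneg fun c _ => hx0 y c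
    exact nonneg_of_mul_nonneg_left this hMr
  have h8 : Real.exp l - 1 ≤ l + l ^ 2 := by
    have := (abs_le.1 (Real.abs_exp_sub_one_sub_id_le hl)).2
    linarith
  have hc : ((Fintype.card (J → Fin M) : ℕ) : ℝ) = (M : ℝ) ^ Fintype.card J := by
    rw [Fintype.card_fun, Fintype.card_fin]
    push_cast
    ring
  unfold pr
  rw [hc, div_le_iff₀ (by positivity)]
  have h9 : (((univ.filter (fun f : J → Fin M => l * t ≤ l * ∑ y ∈ Q, x y (f y))).card : ℝ)) *
      Real.exp (l * t) ≤ (M : ℝ) ^ Fintype.card J * Real.exp (S * (l + l ^ 2)) := by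
    refine h1.trans (h3.le.trans (h7.trans ?_))
    refine mul_le_mul_of_nonneg_left (Real.exp_le_exp.2 ?_) (by positivity)
    nlinarith
  rw [Real.exp_sub]
  rw [div_mul_eq_mul_div, le_div_iff₀ (Real.exp_pos _)]
  linarith

theorem pr_le_add {Ω : Type u} [Fintype Ω] {E A B : Ω → Prop} (h : ∀ w, E w → A w ∨ B w) :
    pr E ≤ pr A + pr B := by
  unfold pr
  rw [← add_div]
  refine div_le_div_of_nonneg_right ?_ (Nat.cast_nonneg _)
  have : (univ.filter E).card ≤ (univ.filter A).card + (univ.filter B).card := by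
    refine (Finset.card_le_card (t := univ.filter A ∪ univ.filter B) ?_).trans
      (Finset.card_union_le _ _)
    intro w hw
    simp only [Finset.mem_filter, Finset.mem_univ, true_and, Finset.mem_union] at hw ⊢
    exact h w hw
  exact_mod_cast this

/-- alternating sums of a monotone function -/
theorem alt (a h : ℕ → ℝ) (hm : Monotone h) (m : ℕ) (ha : ∀ j < m, a (2 * j + 1) = - a (2 * j))
    (h1 : ∀ j < m, |a (2 * j)| ≤ 1) :
    |∑ i ∈ range (2 * m), a i * h i| ≤ h (2 * m) - h 0 := by
  induction m with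
  | zero => simp
  | succ m ih =>
    have h2 := ih (fun j hj => ha j (by omega)) (fun j hj => h1 j (by omega))
    rw [show 2 * (m + 1) = 2 * m + 1 + 1 by ring, Finset.sum_range_succ, Finset.sum_range_succ,
      ha m (by omega)]
    have h3 := hm (show 2 * m ≤ 2 * m + 1 by omega)
    have h4 := hm (show 2 * m + 1 ≤ 2 * m + 1 + 1 by omega)
    have h5 : |a (2 * m) * (h (2 * m) - h (2 * m + 1))| ≤ h (2 * m + 1) - h (2 * m) := by
      rw [abs_mul, abs_of_nonpos (by linarith : h (2 * m) - h (2 * m + 1) ≤ 0)]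
      have := h1 m (by omega)
      nlinarith [abs_nonneg (a (2 * m))]
    calc |∑ i ∈ range (2 * m), a i * h i + a (2 * m) * h (2 * m) +
          -a (2 * m) * h (2 * m + 1)|
        = |∑ i ∈ range (2 * m), a i * h i + a (2 * m) * (h (2 * m) - h (2 * m + 1))| := by
          congr 1; ring
      _ ≤ _ := (abs_add_le _ _).trans (by linarith)

/-- side of a vertex with index `i` when its pair has the value `c` -/
def sideOf (i : ℕ) (c : Fin 2000) : Bool := decide ((i + c.val) % 2 = 0)

/-- cell -/
def cellOf (c : Fin 2000) : Fin 10 := ⟨(c.val / 2) % 10, Nat.mod_lt _ (by norm_num)⟩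

/-- subcell -/
def subOf (c : Fin 2000) : Fin 100 := ⟨c.val / 20, by have := c.2; omega⟩

theorem count1 (i : ℕ) (s : Bool) (a : Fin 10) (r : Fin 100) :
    (univ.filter (fun c : Fin 2000 => sideOf i c = s ∧ cellOf c = a ∧ subOf c = r)).card = 1 := by
  rw [Finset.card_eq_one]
  obtain ⟨a, ha⟩ := a
  obtain ⟨r, hr⟩ := r
  refine ⟨⟨(if s then i else i + 1) % 2 + 2 * a + 20 * r, ?_⟩, ?_⟩
  · have : (if s then i else i + 1) % 2 < 2 := Nat.mod_lt _ (by norm_num)
    omega
  · ext c
    obtain ⟨c, hc⟩ := c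
    simp only [Finset.mem_filter, Finset.mem_univ, true_and, Finset.mem_singleton, sideOf, cellOf,
      subOf, Fin.mk.injEq]
    cases s
    · simp only [decide_eq_false_iff_not, Bool.false_eq_true, if_false]
      omega
    · simp only [decide_eq_true_eq, if_true]
      omega

section pairs
variable {V : Type u} [Fintype V] (o : Fin (Fintype.card V) ≃ V)

/-- index -/
noncomputable def idx (v : V) : ℕ := (o.symm v : ℕ)

/-- first vertex of the pair -/
noncomputable def rep (v : V) : V :=
  o ⟨2 * ((o.symm v : ℕ) / 2), lt_of_le_of_lt (Nat.mul_div_le _ 2) (o.symm v).2⟩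

theorem idx_inj {v w : V} (h : idx o v = idx o w) : v = w := by
  apply o.symm.injective
  exact Fin.ext h

theorem rep_eq {v w : V} (h : rep o v = rep o w) : idx o v / 2 = idx o w / 2 := by
  unfold rep at h
  have := congrArg Fin.val (o.injective h)
  simp only at this
  unfold idx
  omega

/-- number of the vertices with type `(s, a, r)` in a set -/
noncomputable def cnt (A : Finset V) (s : Bool) (a : Fin 10) (r : Fin 100) (f : V → Fin 2000) : ℕ :=
  (A.filter (fun w => sideOf (idx o w) (f (rep o w)) = s ∧ cellOf (f (rep o w)) = a ∧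
    subOf (f (rep o w)) = r)).card

/-- contribution of a pair -/
noncomputable def xx (A : Finset V) (s : Bool) (a : Fin 10) (r : Fin 100) (y : V) (c : Fin 2000) :
    ℝ :=
  ((A.filter (fun w => rep o w = y ∧ sideOf (idx o w) c = s ∧ cellOf c = a ∧
    subOf c = r)).card : ℝ)

theorem xx01 (A : Finset V) (s : Bool) (a : Fin 10) (r : Fin 100) (y : V) (c : Fin 2000) :
    xx o A s a r y c = 0 ∨ xx o A s a r y c = 1 := by
  unfold xx
  have h : (A.filter (fun w => rep o w = y ∧ sideOf (idx o w) c = s ∧ cellOf c = a ∧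
    subOf c = r)).card ≤ 1 := by
    rw [Finset.card_le_one]
    intro w hw w' hw'
    simp only [Finset.mem_filter] at hw hw'
    apply idx_inj o
    have h1 := rep_eq o (hw.2.1.trans hw'.2.1.symm)
    have h2 := hw.2.2.1.trans hw'.2.2.1.symm
    simp only [sideOf, decide_eq_decide] at h2
    omega
  rcases Nat.le_one_iff_eq_zero_or_eq_one.1 h with h | h
  · left; exact_mod_cast h
  · right; exact_mod_cast h

theorem cnt_eq (A : Finset V) (s : Bool) (a : Fin 10) (r : Fin 100) (f : V → Fin 2000) :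
    (cnt o A s a r f : ℝ) = ∑ y ∈ A.image (rep o), xx o A s a r y (f y) := by
  unfold cnt xx
  rw [Finset.card_eq_sum_card_fiberwise (f := rep o) (t := A.image (rep o))]
  · push_cast
    refine Finset.sum_congr rfl fun y _ => ?_
    congr 2
    ext w
    simp only [Finset.mem_filter]
    constructor
    · rintro ⟨⟨h1, h2, h3, h4⟩, h5⟩
      subst h5
      exact ⟨h1, rfl, h2, h3, h4⟩
    · rintro ⟨h1, h5, h2, h3, h4⟩
      subst h5
      exact ⟨⟨h1, h2, h3, h4⟩, rfl⟩
  · intro w hw
    exact Finset.mem_image_of_mem _ (Finset.mem_filter.1 hw).1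

theorem xx_sum (A : Finset V) (s : Bool) (a : Fin 10) (r : Fin 100) :
    ∑ y ∈ A.image (rep o), ∑ c, xx o A s a r y c = A.card := by
  unfold xx
  rw [Finset.sum_comm]
  have h1 : ∀ c : Fin 2000, ∑ y ∈ A.image (rep o),
      ((A.filter (fun w => rep o w = y ∧ sideOf (idx o w) c = s ∧ cellOf c = a ∧
        subOf c = r)).card : ℝ) =
      ∑ w ∈ A, (if sideOf (idx o w) c = s ∧ cellOf c = a ∧ subOf c = r then (1 : ℝ) else 0) := by
    intro c
    rw [← Finset.sum_filter, Finset.sum_const, nsmul_eq_mul, mul_one,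
      Finset.card_eq_sum_card_fiberwise (f := rep o) (t := A.image (rep o))]
    · push_cast
      refine Finset.sum_congr rfl fun y _ => ?_
      congr 2
      ext w
      simp only [Finset.mem_filter]
      tauto
    · intro w hw
      exact Finset.mem_image_of_mem _ (Finset.mem_filter.1 hw).1
  simp_rw [h1]
  rw [Finset.sum_comm]
  have h2 : ∀ w ∈ A, ∑ c : Fin 2000,
      (if sideOf (idx o w) c = s ∧ cellOf c = a ∧ subOf c = r then (1 : ℝ) else 0) = 1 := by
    intro w _
    rw [← Finset.sum_filter, Finset.sum_const, nsmul_eq_mul, mul_one, count1]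
    norm_num
  rw [Finset.sum_congr rfl h2]
  simp

theorem rep_fiber (y : V) : (univ.filter (fun w => rep o w = y)).card ≤ 2 := by
  have h : ((univ.filter (fun w => rep o w = y)).image (idx o)).card =
      (univ.filter (fun w => rep o w = y)).card :=
    Finset.card_image_of_injective _ (fun v w h => idx_inj o h)
  rw [← h]
  by_cases hne : (univ.filter (fun w => rep o w = y)).Nonempty
  · obtain ⟨w0, hw0⟩ := hne
    refine (Finset.card_le_card (t := {2 * (idx o w0 / 2), 2 * (idx o w0 / 2) + 1}) ?_).trans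
      Finset.card_le_two
    intro i hi
    obtain ⟨w, hw, rfl⟩ := Finset.mem_image.1 hi
    simp only [Finset.mem_filter, Finset.mem_univ, true_and] at hw hw0
    have := rep_eq o (hw.trans hw0.symm)
    simp only [Finset.mem_insert, Finset.mem_singleton]
    omega
  · rw [Finset.not_nonempty_iff_eq_empty.1 hne]
    simp

/-- the package of one count -/
theorem evt {d : ℕ} {δ ε : ℝ} (hd : 1 ≤ d) (hδ : 0 < δ) (hδ1 : δ ≤ 1) (hε : ε ≤ δ) (hε1 : ε < 1)
    (A : Finset V) (hA : A.card ≤ d) (hA' : (1 - ε) * d ≤ (A.card : ℝ)) (s : Bool) (a : Fin 10)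
    (r : Fin 100) :
    PackI (1 / (d : ℝ)) (A.image (rep o)) (2 * Real.exp (4 - δ ^ 2 * d / 2))
      (fun f : V → Fin 2000 => |(cnt o A s a r f : ℝ) - (d : ℝ) / 2000| ≤ δ * d) := by
  have hdr : (1 : ℝ) ≤ d := by exact_mod_cast hd
  refine ⟨PUnit, inferInstance, fun _ => A.image (rep o),
    fun _ f => ¬ |(cnt o A s a r f : ℝ) - (d : ℝ) / 2000| ≤ δ * d, ?_, ?_, ?_, ?_, ?_⟩
  · intro _ f f' hff
    have : cnt o A s a r f = cnt o A s a r f' := by
      unfold cnt
      congr 1
      refine Finset.filter_congr fun w hw => ?_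
      rw [hff _ (Finset.mem_image_of_mem _ hw)]
    simp only [this]
  · intro _
    rw [Finset.image_nonempty]
    rw [← Finset.card_pos]
    have : (0 : ℝ) < A.card := lt_of_lt_of_le (by nlinarith) hA'
    exact_mod_cast this
  · intro _
    exact Finset.Subset.refl _
  · have hcard : ((A.image (rep o)).card : ℝ) ≤ d := by
      exact_mod_cast Finset.card_image_le.trans hA
    have hAd : (A.card : ℝ) ≤ d := by exact_mod_cast hA
    have h1 := chern (M := 2000) (by norm_num) (A.image (rep o)) (xx o A s a r)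
      (fun y c => xx01 o A s a r y c) ((A.card : ℝ) / 2000)
      (by rw [xx_sum]; push_cast; ring) δ ((d : ℝ) / 2000 + δ * d) (by rw [abs_of_pos hδ]; exact hδ1)
    have h2 := chern (M := 2000) (by norm_num) (A.image (rep o)) (xx o A s a r)
      (fun y c => xx01 o A s a r y c) ((A.card : ℝ) / 2000)
      (by rw [xx_sum]; push_cast; ring) (-δ) ((d : ℝ) / 2000 - δ * d)
      (by rw [abs_neg, abs_of_pos hδ]; exact hδ1)
    have h3 : pr (fun f : V → Fin 2000 => ¬ |(cnt o A s a r f : ℝ) - (d : ℝ) / 2000| ≤ δ * d) ≤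
        2 * Real.exp (2 - δ ^ 2 * d / 2) := by
      refine (pr_le_add (A := fun f : V → Fin 2000 => δ * ((d : ℝ) / 2000 + δ * d) ≤
        δ * ∑ y ∈ A.image (rep o), xx o A s a r y (f y)) (B := fun f : V → Fin 2000 =>
        -δ * ((d : ℝ) / 2000 - δ * d) ≤ -δ * ∑ y ∈ A.image (rep o), xx o A s a r y (f y))
        ?_).trans ?_
      · intro f hf
        rw [← cnt_eq]
        rw [not_le, lt_abs] at hf
        rcases hf with hf | hf
        · left
          exact mul_le_mul_of_nonneg_left (by linarith) hδ.le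
        · right
          nlinarith
      · have e1 : (A.card : ℝ) / 2000 * (δ + δ ^ 2) - δ * ((d : ℝ) / 2000 + δ * d) ≤
            2 - δ ^ 2 * d / 2 := by
          have : (A.card : ℝ) / 2000 * (δ + δ ^ 2) ≤ (d : ℝ) / 2000 * (δ + δ ^ 2) :=
            mul_le_mul_of_nonneg_right (by linarith) (by positivity)
          nlinarith [mul_nonneg (sq_nonneg δ) (by linarith : (0 : ℝ) ≤ d)]
        have e2 : (A.card : ℝ) / 2000 * (-δ + (-δ) ^ 2) - -δ * ((d : ℝ) / 2000 - δ * d) ≤
            2 - δ ^ 2 * d / 2 := by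
          have h5 : (A.card : ℝ) / 2000 * δ ^ 2 ≤ (d : ℝ) / 2000 * δ ^ 2 :=
            mul_le_mul_of_nonneg_right (by linarith) (by positivity)
          have h6 : (1 - ε) * d / 2000 * δ ≤ (A.card : ℝ) / 2000 * δ :=
            mul_le_mul_of_nonneg_right (by linarith) hδ.le
          have h7 : ε * (d * δ) ≤ δ * (d * δ) :=
            mul_le_mul_of_nonneg_right hε (by positivity)
          nlinarith [mul_nonneg (sq_nonneg δ) (by linarith : (0 : ℝ) ≤ d)]
        have f1 := h1.trans (Real.exp_le_exp.2 e1)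
        have f2 := h2.trans (Real.exp_le_exp.2 e2)
        linarith
    have h4 : Real.exp (2 * (1 / (d : ℝ)) * ((A.image (rep o)).card : ℝ)) ≤ Real.exp 2 := by
      apply Real.exp_le_exp.2
      rw [mul_assoc, one_div_mul_eq_div]
      have : ((A.image (rep o)).card : ℝ) / d ≤ 1 := by
        rw [div_le_one (by linarith)]
        exact hcard
      linarith
    simp only [Finset.univ_unique, Finset.sum_singleton]
    calc _ ≤ 2 * Real.exp (2 - δ ^ 2 * d / 2) * Real.exp 2 :=
          mul_le_mul h3 h4 (Real.exp_pos _).le (by positivity)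
      _ = 2 * Real.exp (4 - δ ^ 2 * d / 2) := by
          rw [mul_assoc, ← Real.exp_add]
          congr 2
          ring
  · intro f hf
    exact not_not.1 (hf PUnit.unit)

/-- signed sums over the two sides -/
theorem sumsd (side : V → Bool) (F : V → ℝ) (z : ℝ) :
    (∑ v ∈ sd side true, F v) - (∑ v ∈ sd side false, F v) =
      ∑ i ∈ range (Fintype.card V),
        (if h : i < Fintype.card V then (if side (o ⟨i, h⟩) = true then (1 : ℝ) else -1) else 0) *
        (if h : i < Fintype.card V then F (o ⟨i, h⟩) else z) := by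
  rw [Finset.sum_range]
  simp only [Fin.is_lt, dif_pos, Fin.eta]
  rw [Equiv.sum_comp o (fun v => (if side v = true then (1 : ℝ) else -1) * F v)]
  unfold sd
  rw [Finset.sum_filter, Finset.sum_filter, ← Finset.sum_sub_distrib]
  refine Finset.sum_congr rfl fun v _ => ?_
  cases side v <;> simp

end pairs

theorem exists_sort {V : Type u} [Fintype V] (g : V → ℕ) :
    ∃ o : Fin (Fintype.card V) ≃ V, Monotone (fun i => g (o i)) := by
  refine ⟨(Tuple.sort (fun i => g ((Fintype.equivFin V).symm i))).trans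
    (Fintype.equivFin V).symm, ?_⟩
  exact Tuple.monotone_sort (fun i => g ((Fintype.equivFin V).symm i))

theorem big {δ : ℝ} (hδ : 0 < δ) : ∃ d0 : ℕ, 4 ≤ d0 ∧ ∀ d : ℕ, d0 ≤ d →
    (4000 * (d : ℝ)) * (2 * Real.exp (4 - δ ^ 2 * d / 2)) ≤ 1 / d := by
  obtain ⟨N, hN⟩ := exists_nat_ge (8000 * Real.exp 4 * 48 / (δ ^ 2) ^ 3)
  refine ⟨max N 4, le_max_right _ _, fun d hd => ?_⟩
  have hd4 : (4 : ℝ) ≤ d := by exact_mod_cast (le_max_right N 4).trans hd
  have hdN : (N : ℝ) ≤ d := by exact_mod_cast (le_max_left N 4).trans hd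
  have h1 := Real.pow_div_factorial_le_exp (x := δ ^ 2 * d / 2) (by positivity) 3
  have h2 : Real.exp (4 - δ ^ 2 * d / 2) = Real.exp 4 / Real.exp (δ ^ 2 * d / 2) := Real.exp_sub _ _
  rw [h2]
  have h3 : (0 : ℝ) < (δ ^ 2) ^ 3 := by positivity
  have h4 : 8000 * Real.exp 4 * 48 ≤ d * (δ ^ 2) ^ 3 := by
    rw [← div_le_iff₀ h3]
    exact hN.trans hdN
  have h5 : (δ ^ 2) ^ 3 * d ^ 3 / 48 ≤ Real.exp (δ ^ 2 * d / 2) := by
    refine le_trans (le_of_eq ?_) h1
    norm_num [Nat.factorial]
    ring
  rw [le_div_iff₀ (by linarith)]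
  have h6 : (4000 * (d : ℝ)) * (2 * (Real.exp 4 / Real.exp (δ ^ 2 * d / 2))) * d =
      8000 * Real.exp 4 * d ^ 2 / Real.exp (δ ^ 2 * d / 2) := by ring
  rw [h6, div_le_one (Real.exp_pos _)]
  refine le_trans ?_ h5
  have h7 : 8000 * Real.exp 4 * 48 * (d : ℝ) ^ 2 ≤ d * (δ ^ 2) ^ 3 * d ^ 2 :=
    mul_le_mul_of_nonneg_right h4 (by positivity)
  nlinarith

end PARTAux

open PARTAux

/-- Block PART. -/
theorem stmt_PART : Stmt_PART.{u} := by
  intro δ hδ
  have hδ' : 0 < min δ 1 := lt_min hδ one_pos
  obtain ⟨d0, hd04, hd0⟩ := big hδ'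
  refine ⟨min δ 1 / 4, d0, by positivity, ?_⟩
  intro V _ G d hd hdeg
  set δ' := min δ 1 with hδ'def
  have hδ'1 : δ' ≤ 1 := min_le_right _ _
  have hδ'δ : δ' ≤ δ := min_le_left _ _
  have hd4 : 4 ≤ d := hd04.trans hd
  have hdr : (4 : ℝ) ≤ d := by exact_mod_cast hd4
  obtain ⟨o, ho⟩ := exists_sort (fun v => (nb G v).card)
  have hLLL := Pool.Agent.Work.MP_db9399_all.stmt_LLLI V 2000 (V × Bool × Fin 10 × Fin 100)
    (1 / (d : ℝ)) (fun z => (nb G z.1).image (rep o))
    (fun _ => 2 * Real.exp (4 - δ' ^ 2 * d / 2))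
    (fun z f => |(cnt o (nb G z.1) z.2.1 z.2.2.1 z.2.2.2 f : ℝ) - (d : ℝ) / 2000| ≤ δ' * d)
    (by norm_num) (by positivity)
    (by rw [div_le_div_iff₀ (by linarith) (by norm_num)]; linarith)
    (fun z => evt o (by omega) hδ' hδ'1 (by linarith : δ' / 4 ≤ δ') (by linarith)
      (nb G z.1) (hdeg z.1).1 (hdeg z.1).2 z.2.1 z.2.2.1 z.2.2.2)
    (by
      intro y
      rw [Finset.sum_const, nsmul_eq_mul]
      have h1 : (univ.filter (fun v : V => y ∈ (nb G v).image (rep o))).card ≤ 2 * d := by
        refine (Finset.card_le_card (t := (univ.filter (fun w => rep o w = y)).biUnion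
          (fun w => nb G w)) ?_).trans ?_
        · intro v hv
          simp only [Finset.mem_filter, Finset.mem_univ, true_and, Finset.mem_image] at hv
          obtain ⟨w, hw, hwy⟩ := hv
          refine Finset.mem_biUnion.2 ⟨w, by simp [hwy], ?_⟩
          simp only [nb, Finset.mem_filter, Finset.mem_univ, true_and] at hw ⊢
          exact hw.symm
        · refine Finset.card_biUnion_le.trans ?_
          refine (Finset.sum_le_card_nsmul _ _ d fun w _ => (hdeg w).1).trans ?_
          rw [smul_eq_mul]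
          exact Nat.mul_le_mul_right _ (rep_fiber o y)
      have h2 : ((univ.filter (fun z : V × Bool × Fin 10 × Fin 100 =>
          y ∈ (nb G z.1).image (rep o))).card) ≤ 4000 * d := by
        have h3 : (univ.filter (fun z : V × Bool × Fin 10 × Fin 100 =>
          y ∈ (nb G z.1).image (rep o))) =
          (univ.filter (fun v : V => y ∈ (nb G v).image (rep o))) ×ˢ
            (univ : Finset (Bool × Fin 10 × Fin 100)) := by
          ext ⟨v, z⟩
          simp
        rw [h3, Finset.card_product, Finset.card_univ]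
        simp only [Fintype.card_prod, Fintype.card_bool, Fintype.card_fin]
        omega
      have h4 : (((univ.filter (fun z : V × Bool × Fin 10 × Fin 100 =>
          y ∈ (nb G z.1).image (rep o))).card : ℕ) : ℝ) ≤ 4000 * (d : ℝ) := by exact_mod_cast h2
      exact (mul_le_mul_of_nonneg_right h4 (by positivity)).trans (hd0 d hd))
  obtain ⟨f, hf⟩ := hLLL
  -- the sides
  obtain ⟨s0, hs0⟩ : ∃ s0 : Bool, ∀ h : 2 * ((Fintype.card V) / 2) < (Fintype.card V),
      sideOf (idx o (o ⟨2 * ((Fintype.card V) / 2), h⟩)) (f (rep o (o ⟨2 * ((Fintype.card V) / 2), h⟩))) = s0 := by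
    by_cases h : 2 * ((Fintype.card V) / 2) < (Fintype.card V)
    · exact ⟨sideOf (idx o (o ⟨2 * ((Fintype.card V) / 2), h⟩))
        (f (rep o (o ⟨2 * ((Fintype.card V) / 2), h⟩))), fun _ => rfl⟩
    · exact ⟨true, fun h' => absurd h' h⟩
  set side : V → Bool := fun v => (sideOf (idx o v) (f (rep o v)) == s0) with hside
  have hpair : ∀ j < (Fintype.card V) / 2, ∀ (h1 : 2 * j < (Fintype.card V)) (h2 : 2 * j + 1 < (Fintype.card V)),
      side (o ⟨2 * j + 1, h2⟩) = !(side (o ⟨2 * j, h1⟩)) := by
    intro j hj h1 h2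
    have e1 : rep o (o ⟨2 * j + 1, h2⟩) = rep o (o ⟨2 * j, h1⟩) := by
      unfold rep
      congr 1
      apply Fin.ext
      simp only [Equiv.symm_apply_apply]
      omega
    have e2 : idx o (o ⟨2 * j + 1, h2⟩) = 2 * j + 1 := by simp [idx]
    have e3 : idx o (o ⟨2 * j, h1⟩) = 2 * j := by simp [idx]
    simp only [hside, e1, e2, e3, sideOf]
    generalize f (rep o (o ⟨2 * j, h1⟩)) = c
    by_cases hc : (c : ℕ) % 2 = 0
    · have h3 : (2 * j + 1 + (c : ℕ)) % 2 ≠ 0 := by omega
      have h4 : (2 * j + (c : ℕ)) % 2 = 0 := by omega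
      cases s0 <;> simp [h3, h4]
    · have h3 : (2 * j + 1 + (c : ℕ)) % 2 = 0 := by omega
      have h4 : (c : ℕ) % 2 = 1 := by omega
      cases s0 <;> simp [h3, h4]
  set a : ℕ → ℝ := fun i => if h : i < (Fintype.card V) then (if side (o ⟨i, h⟩) = true then (1 : ℝ) else -1)
    else 0 with ha
  have ha1 : ∀ j < (Fintype.card V) / 2, a (2 * j + 1) = - a (2 * j) := by
    intro j hj
    have h1 : 2 * j < (Fintype.card V) := by omega
    have h2 : 2 * j + 1 < (Fintype.card V) := by omega
    simp only [ha, dif_pos h1, dif_pos h2, hpair j hj h1 h2]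
    cases side (o ⟨2 * j, h1⟩) <;> simp
  have ha2 : ∀ i, |a i| ≤ 1 := by
    intro i
    simp only [ha]
    split_ifs <;> simp
  have halast : 2 * ((Fintype.card V) / 2) < (Fintype.card V) → a (2 * ((Fintype.card V) / 2)) = 1 := by
    intro h
    simp only [ha, dif_pos h]
    rw [if_pos]
    simp only [hside]
    rw [hs0 h]
    simp
  have hsplit : ∀ (F : V → ℝ) (z : ℝ),
      Monotone (fun i : ℕ => if h : i < (Fintype.card V) then F (o ⟨i, h⟩) else z) →
      |(∑ v ∈ sd side true, F v) - (∑ v ∈ sd side false, F v) - (((Fintype.card V) % 2 : ℕ) : ℝ) *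
        (if h : 2 * ((Fintype.card V) / 2) < (Fintype.card V) then F (o ⟨2 * ((Fintype.card V) / 2), h⟩) else z)| ≤
      (if h : 2 * ((Fintype.card V) / 2) < (Fintype.card V) then F (o ⟨2 * ((Fintype.card V) / 2), h⟩) else z) -
        (if h : 0 < (Fintype.card V) then F (o ⟨0, h⟩) else z) := by
    intro F z hmono
    have h1 := alt a (fun i : ℕ => if h : i < (Fintype.card V) then F (o ⟨i, h⟩) else z) hmono ((Fintype.card V) / 2) ha1
      (fun j _ => ha2 _)
    rw [sumsd o side F z]
    rcases Nat.mod_two_eq_zero_or_one (Fintype.card V) with hp | hp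
    · have hn2 : 2 * ((Fintype.card V) / 2) = (Fintype.card V) := by omega
      rw [hp, Nat.cast_zero, zero_mul, sub_zero]
      rw [hn2] at h1 ⊢
      exact h1
    · have hn2 : (Fintype.card V) = 2 * ((Fintype.card V) / 2) + 1 := by omega
      have h2 : ∑ i ∈ range (Fintype.card V), a i * (if h : i < (Fintype.card V) then F (o ⟨i, h⟩) else z) =
          ∑ i ∈ range (2 * ((Fintype.card V) / 2)), a i * (if h : i < (Fintype.card V) then F (o ⟨i, h⟩) else z) +
            a (2 * ((Fintype.card V) / 2)) * (if h : 2 * ((Fintype.card V) / 2) < (Fintype.card V) then F (o ⟨2 * ((Fintype.card V) / 2), h⟩) else z) := by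
        conv_lhs => rw [show range (Fintype.card V) = range (2 * ((Fintype.card V) / 2) + 1) by rw [← hn2]]
        rw [Finset.sum_range_succ]
      have h3 := halast (by omega)
      rw [hp, Nat.cast_one, one_mul]
      calc |∑ i ∈ range (Fintype.card V), a i * (if h : i < (Fintype.card V) then F (o ⟨i, h⟩) else z) -
            (if h : 2 * ((Fintype.card V) / 2) < (Fintype.card V) then F (o ⟨2 * ((Fintype.card V) / 2), h⟩) else z)|
          = |∑ i ∈ range (2 * ((Fintype.card V) / 2)), a i * (if h : i < (Fintype.card V) then F (o ⟨i, h⟩) else z)| := by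
            rw [h2, h3]; congr 1; ring
        _ ≤ _ := h1
  refine ⟨side, fun v => cellOf (f (rep o v)), fun v => subOf (f (rep o v)), (Fintype.card V) % 2,
    by omega, ?_, ?_, ?_⟩
  · have h1 := hsplit (fun _ => 1) 1 (by
      intro i j _
      simp only [dite_eq_ite, ite_self]
      exact le_refl _)
    simp only [dite_eq_ite, ite_self, sub_self, mul_one, Finset.sum_const, nsmul_eq_mul] at h1
    have h2 : ((sd side true).card : ℝ) - ((sd side false).card : ℝ) - (((Fintype.card V) % 2 : ℕ) : ℝ) = 0 :=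
      abs_eq_zero.1 (le_antisymm h1 (abs_nonneg _))
    have h3 : ((sd side true).card : ℝ) = (((sd side false).card + (Fintype.card V) % 2 : ℕ) : ℝ) := by
      push_cast at h2 ⊢
      linarith
    exact_mod_cast h3
  · intro v s b r
    have h1 := hf (v, (s == s0), b, r)
    simp only at h1
    refine le_trans (le_of_eq ?_) (h1.trans (mul_le_mul_of_nonneg_right hδ'δ (by linarith)))
    congr 2
    unfold cnt
    norm_cast
    congr 1
    refine Finset.filter_congr fun w _ => ?_
    simp only [hside]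
    cases s <;> cases s0 <;> cases sideOf (idx o w) (f (rep o w)) <;> simp
  · have h1 := hsplit (fun v => ((nb G v).card : ℝ)) d (by
      intro i j hij
      simp only
      by_cases hj : j < (Fintype.card V)
      · have hi : i < (Fintype.card V) := lt_of_le_of_lt hij hj
        rw [dif_pos hi, dif_pos hj]
        have := ho (show (⟨i, hi⟩ : Fin (Fintype.card V)) ≤ ⟨j, hj⟩ from hij)
        exact_mod_cast this
      · rw [dif_neg hj]
        split_ifs with hi
        · exact_mod_cast (hdeg _).1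
        · exact le_refl _)
    have hb : ∀ i : ℕ, |(if h : i < (Fintype.card V) then ((nb G (o ⟨i, h⟩)).card : ℝ) else d) - d| ≤
        δ' / 4 * d := by
      intro i
      split_ifs with h
      · have h3 := (hdeg (o ⟨i, h⟩)).2
        have h4 : ((nb G (o ⟨i, h⟩)).card : ℝ) ≤ d := by exact_mod_cast (hdeg (o ⟨i, h⟩)).1
        rw [abs_le]
        constructor <;> nlinarith
      · rw [sub_self, abs_zero]
        positivity
    have h2 := hb (2 * ((Fintype.card V) / 2))
    have h3 := hb 0
    have hp : (((Fintype.card V) % 2 : ℕ) : ℝ) ≤ 1 := by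
      have : (Fintype.card V) % 2 ≤ 1 := by omega
      exact_mod_cast this
    have hp0 : (0 : ℝ) ≤ (((Fintype.card V) % 2 : ℕ) : ℝ) := Nat.cast_nonneg _
    generalize (if h : 2 * ((Fintype.card V) / 2) < (Fintype.card V) then ((nb G (o ⟨2 * ((Fintype.card V) / 2), h⟩)).card : ℝ) else d) = A
      at h1 h2
    generalize (if h : 0 < (Fintype.card V) then ((nb G (o ⟨0, h⟩)).card : ℝ) else d) = B at h1 h3
    generalize ((∑ v ∈ sd side true, ((nb G v).card : ℝ)) -
      (∑ v ∈ sd side false, ((nb G v).card : ℝ))) = S at h1 ⊢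
    generalize (((Fintype.card V) % 2 : ℕ) : ℝ) = P at *
    rw [abs_le] at h1 h2 h3 ⊢
    have hδd : δ' * d ≤ δ * d := mul_le_mul_of_nonneg_right hδ'δ (by linarith)
    constructor
    · nlinarith
    · nlinarith

end Pool.Agent.Work.MP_db9399_qr
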