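import Pool.Agent.Work.MP_db9399_qr.Interface
import Pool.Agent.Work.MP_db9399_lin_helper38.GAL

/-! GF: the last bipartite part, by the old block GAL. -/

set_option autoImplicit false
set_option linter.unusedSectionVars false

namespace Pool.Agent.Work.MP_db9399_qr

universe u

namespace GFAux

section count
open Finset

lemma zq_count (s : Bool) (f : ℕ) (hf : f ≤ 2) :
    (univ.filter (fun j : Fin 4 => s = decide (2 ≤ j.val) ∧ j.val % 2 + 1 ≤ f)).card ≤ f := by
  interval_cases f <;> cases s <;> decide

end count

open Finset Classical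
open Pool.Agent.Work.MP_db9399_all (nb)
open _root_.MP_db9399_co

variable {V : Type u} [Fintype V]

/-- ordered pair with the vertex of the side `true` first -/
noncomputable def xp (side : V → Bool) (v w : V) : V × V :=
  if side v = true then (v, w) else (w, v)

lemma xp_symm (side : V → Bool) {v w : V} (h : side v ≠ side w) :
    xp side v w = xp side w v := by
  unfold xp
  cases hv : side v <;> cases hw : side w <;> simp_all

lemma xp_mem (side : V → Bool) (v w : V) : (xp side v w).1 = v ∨ (xp side v w).2 = v := by
  unfold xp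
  split_ifs
  · exact Or.inl rfl
  · exact Or.inr rfl

lemma xp_mem' (side : V → Bool) (v w : V) : (xp side v w).1 = w ∨ (xp side v w).2 = w := by
  unfold xp
  split_ifs
  · exact Or.inr rfl
  · exact Or.inl rfl

lemma xp_side (side : V → Bool) {v w : V} (h : side v ≠ side w) :
    side (xp side v w).1 = true ∧ side (xp side v w).2 = false := by
  unfold xp
  cases hv : side v <;> cases hw : side w <;> simp_all

lemma xp_adj {G : SimpleGraph V} (side : V → Bool) {v w : V} (h : G.Adj v w) :
    G.Adj (xp side v w).1 (xp side v w).2 := by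
  unfold xp
  split_ifs
  · exact h
  · exact h.symm

lemma xp_inj (side : V → Bool) {v w w' : V} (h : xp side v w = xp side v w') : w = w' := by
  unfold xp at h
  split_ifs at h
  · exact (Prod.mk.inj h).2
  · exact (Prod.mk.inj h).1

/-- cross edges -/
noncomputable def CE (G : SimpleGraph V) (side : V → Bool) : Finset (V × V) :=
  univ.filter (fun e => side e.1 = true ∧ side e.2 = false ∧ G.Adj e.1 e.2)

lemma mem_CE (G : SimpleGraph V) (side : V → Bool) (e : V × V) :
    e ∈ CE G side ↔ side e.1 = true ∧ side e.2 = false ∧ G.Adj e.1 e.2 := by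
  simp [CE]

/-- cross degree plus inside degree is at most the degree -/
lemma cross_card (G : SimpleGraph V) (side : V → Bool) (w : V) :
    (Lin.inc (CE G side) w).card + (nb (ins G side) w).card ≤ (nb G w).card := by
  have h1 : (Lin.inc (CE G side) w).card ≤ ((nb G w) \ (nb (ins G side) w)).card := by
    apply Finset.card_le_card_of_injOn (fun e => if e.1 = w then e.2 else e.1)
    · intro e he
      rw [mem_coe, Lin.inc, mem_filter, mem_CE] at he
      obtain ⟨⟨h1, h2, h3⟩, h4⟩ := he
      rw [mem_coe, mem_sdiff]
      by_cases hw : e.1 = w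
      · simp only [hw, if_true]
        subst hw
        refine ⟨by simp [nb, h3], ?_⟩
        simp only [nb, mem_filter, mem_univ, true_and]
        intro h
        have := h.2
        rw [h1, h2] at this
        exact Bool.noConfusion this
      · have h5 : e.2 = w := by
          rcases h4 with h4 | h4
          · exact absurd h4 hw
          · exact h4
        simp only [hw, if_false]
        subst h5
        refine ⟨by simp [nb, h3.symm], ?_⟩
        simp only [nb, mem_filter, mem_univ, true_and]
        intro h
        have := h.2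
        rw [h1, h2] at this
        exact Bool.noConfusion this
    · intro e he f hf hef
      rw [mem_coe, Lin.inc, mem_filter, mem_CE] at he hf
      obtain ⟨⟨e1, e2, e3⟩, e4⟩ := he
      obtain ⟨⟨f1, f2, f3⟩, f4⟩ := hf
      simp only at hef
      by_cases hs : side w = true
      · have he1 : e.1 = w := by
          rcases e4 with h | h
          · exact h
          · rw [h, hs] at e2
            exact absurd e2 (by simp)
        have hf1 : f.1 = w := by
          rcases f4 with h | h
          · exact h
          · rw [h, hs] at f2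
            exact absurd f2 (by simp)
        rw [if_pos he1, if_pos hf1] at hef
        exact Prod.ext (he1.trans hf1.symm) hef
      · have he1 : e.1 ≠ w := by
          intro h
          rw [h] at e1
          exact hs e1
        have hf1 : f.1 ≠ w := by
          intro h
          rw [h] at f1
          exact hs f1
        rw [if_neg he1, if_neg hf1] at hef
        have he2 : e.2 = w := by
          rcases e4 with h | h
          · exact absurd h he1
          · exact h
        have hf2 : f.2 = w := by
          rcases f4 with h | h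
          · exact absurd h hf1
          · exact h
        exact Prod.ext hef (he2.trans hf2.symm)
  have h2 : nb (ins G side) w ⊆ nb G w := by
    intro x hx
    simp only [nb, mem_filter, mem_univ, true_and] at hx ⊢
    exact hx.1
  have h3 := card_sdiff_add_card_eq_card h2
  omega

/-- disjoint sets of edges covering `w` -/
lemma cover_count {ι : Type} [Fintype ι] (E : Finset (V × V)) (M : ι → Finset (V × V)) (w : V)
    (hd : ∀ a b, a ≠ b → Disjoint (M a) (M b)) (hME : ∀ a, M a ⊆ E) :
    (Lin.inc (E.filter (fun e => ∀ a, e ∉ M a)) w).card +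
      (univ.filter (fun a => ∃ e ∈ M a, e.1 = w ∨ e.2 = w)).card ≤ (Lin.inc E w).card := by
  set Cv := univ.filter (fun a => ∃ e ∈ M a, e.1 = w ∨ e.2 = w) with hCv
  have hex : ∀ a ∈ Cv, ∃ e ∈ M a, e.1 = w ∨ e.2 = w := by
    intro a ha
    rw [hCv, mem_filter] at ha
    exact ha.2
  rcases isEmpty_or_nonempty (V × V) with hE | hE
  · have : Cv = ∅ := by
      rw [eq_empty_iff_forall_notMem]
      intro a ha
      obtain ⟨e, _⟩ := hex a ha
      exact hE.false e
    rw [this, card_empty, add_zero]
    apply card_le_card
    intro e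
    exact (hE.false e).elim
  choose! f hf1 hf2 using hex
  have hT : (Cv.image f).card = Cv.card := by
    apply card_image_of_injOn
    intro a ha b hb hab
    by_contra hne
    exact disjoint_left.1 (hd a b hne) (hf1 a ha) (by rw [hab]; exact hf1 b hb)
  rw [← hT, ← card_union_of_disjoint]
  · apply card_le_card
    intro e he
    rw [mem_union] at he
    rcases he with he | he
    · simp only [Lin.inc, mem_filter] at he ⊢
      exact ⟨he.1.1, he.2⟩
    · rw [mem_image] at he
      obtain ⟨a, ha, rfl⟩ := he
      simp only [Lin.inc, mem_filter]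
      exact ⟨hME a (hf1 a ha), hf2 a ha⟩
  · rw [disjoint_left]
    intro e he he'
    rw [mem_image] at he'
    obtain ⟨a, ha, rfl⟩ := he'
    simp only [Lin.inc, mem_filter] at he
    exact he.1.2 a (hf1 a ha)

end GFAux

open Finset Classical
open Pool.Agent.Work.MP_db9399_all (nb)
open _root_.MP_db9399_co
open GFAux

theorem stmt_GF : Stmt_GF.{u} := by
  intro V _ k d G U F X I Mt
  rcases isEmpty_or_nonempty V with hV | hV
  · refine ⟨fun v => (hV.false v).elim, ?_⟩
    refine ⟨fun v => (hV.false v).elim, fun v => (hV.false v).elim, ⟨fun v => (hV.false v).elim,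
      fun v => (hV.false v).elim⟩, fun v => (hV.false v).elim, fun v => (hV.false v).elim⟩
  set P : Finset (Fin k) := X.Ga ∪ X.Pe with hP
  set L : Finset (Fin k) := univ \ P with hL
  set E := CE G X.side with hE
  set F0 := E.filter (fun e => ∀ a, e ∉ Mt.M a) with hF0
  have hPk : P.card + L.card = k := by
    have h := card_sdiff_add_card_eq_card (subset_univ P)
    rw [card_univ, Fintype.card_fin] at h
    rw [hL]
    omega
  have hME : ∀ a, Mt.M a ⊆ E := by
    intro a e he
    rw [hE, mem_CE]
    exact Mt.Me a e he
  -- inside colours belong to `P`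
  have htP : ∀ v w, X.R.Adj v w → I.t v w ∈ P := by
    intro v w h
    rw [hP, mem_union]
    rcases I.tcol v w h with h1 | h1
    · exact Or.inl (I.Gdsub h1.1)
    · exact Or.inr h1.1
  have hcP : ∀ v, I.c v ∈ P := by
    intro v
    rw [hP, mem_union]
    exact Or.inl (I.Gdsub (I.cG v).1)
  have htc : ∀ v w, X.R.Adj v w → I.t v w ≠ I.c v := by
    intro v w h heq
    rcases I.tcol v w h with h1 | h1
    · apply h1.2
      rw [heq]
      exact ⟨fun _ => (I.cG v).2.1, fun _ => (I.cG v).2.2⟩
    · rw [heq] at h1
      exact disjoint_left.1 X.disj (I.Gdsub (I.cG v).1) h1.1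
  -- the count
  have hdeg : ∀ w, (Lin.inc F0 w).card + 4 ≤ L.card := by
    intro w
    have h1 := cross_card G X.side w
    have h2 := cover_count E Mt.M w Mt.Md hME
    rw [← hE] at h1
    rw [← hF0] at h2
    set Cv := univ.filter (fun a => ∃ e ∈ Mt.M a, e.1 = w ∨ e.2 = w) with hCv
    set A := P.filter (fun b => w ∈ W0 X.R U F I.c I.t b ∧ w ∉ Mt.Z (Sum.inl b)) with hA
    set B := (univ : Finset (Fin 4)).filter (fun j => w ∉ ZQ X.side F L j ∧
      w ∉ Mt.Z (Sum.inr j)) with hB
    have h3 : A.card + B.card ≤ Cv.card := by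
      rw [← card_disjSum]
      apply card_le_card
      intro a ha
      rw [hCv, mem_filter]
      refine ⟨mem_univ _, ?_⟩
      rw [mem_disjSum] at ha
      rcases ha with ⟨b, hb, rfl⟩ | ⟨j, hj, rfl⟩
      · rw [hA, mem_filter] at hb
        exact (Mt.Mc b hb.1 w).2 hb.2
      · rw [hB, mem_filter] at hj
        exact (Mt.Mq j w).2 hj.2
    set z1 := (univ.filter (fun b : Fin k => w ∈ Mt.Z (Sum.inl b))) with hz1
    set z2 := (univ.filter (fun j : Fin 4 => w ∈ Mt.Z (Sum.inr j))) with hz2
    have hz : z1.card + z2.card ≤ 1 := by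
      rw [← card_disjSum, card_le_one]
      intro a ha b hb
      by_contra hne
      have hm : ∀ a ∈ z1.disjSum z2, w ∈ Mt.Z a := by
        intro a ha
        rw [mem_disjSum] at ha
        rcases ha with ⟨b, hb, rfl⟩ | ⟨j, hj, rfl⟩
        · rw [hz1, mem_filter] at hb
          exact hb.2
        · rw [hz2, mem_filter] at hj
          exact hj.2
      exact disjoint_left.1 (Mt.Zd a b hne) (hm a ha) (hm b hb)
    have hzU : w ∈ U → z1.card + z2.card = 0 := by
      intro hw
      have e1 : z1 = ∅ := by
        rw [hz1, filter_eq_empty_iff]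
        intro b _ hb
        exact disjoint_left.1 (Mt.ZU _) hb hw
      have e2 : z2 = ∅ := by
        rw [hz2, filter_eq_empty_iff]
        intro b _ hb
        exact disjoint_left.1 (Mt.ZU _) hb hw
      rw [e1, e2]
      rfl
    have h4 : (P.filter (fun b => w ∈ W0 X.R U F I.c I.t b)).card ≤ A.card + z1.card := by
      rw [← card_union_of_disjoint]
      · apply card_le_card
        intro b hb
        rw [mem_filter] at hb
        rw [mem_union, hA, hz1, mem_filter, mem_filter]
        by_cases h : w ∈ Mt.Z (Sum.inl b)
        · exact Or.inr ⟨mem_univ _, h⟩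
        · exact Or.inl ⟨hb.1, hb.2, h⟩
      · rw [disjoint_left]
        intro b hb hb'
        rw [hA, mem_filter] at hb
        rw [hz1, mem_filter] at hb'
        exact hb.2.2 hb'.2
    have h5 : ((univ : Finset (Fin 4)).filter (fun j => w ∉ ZQ X.side F L j)).card ≤
        B.card + z2.card := by
      rw [← card_union_of_disjoint]
      · apply card_le_card
        intro b hb
        rw [mem_filter] at hb
        rw [mem_union, hB, hz2, mem_filter, mem_filter]
        by_cases h : w ∈ Mt.Z (Sum.inr b)
        · exact Or.inr ⟨mem_univ _, h⟩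
        · exact Or.inl ⟨mem_univ _, hb.2, h⟩
      · rw [disjoint_left]
        intro b hb hb'
        rw [hB, mem_filter] at hb
        rw [hz2, mem_filter] at hb'
        exact hb.2.2 hb'.2
    have h6 : ∀ S : Finset (Fin k), (∀ b ∈ P, b ∉ S → ¬ (w ∉ U ∧ I.c w = b) ∧ b ∉ F w) →
        P.card ≤ (P.filter (fun b => w ∈ W0 X.R U F I.c I.t b)).card + (P ∩ S).card +
          (nb X.R w).card := by
      intro S hS
      have h7 : P ⊆ (P.filter (fun b => w ∈ W0 X.R U F I.c I.t b)) ∪ (P ∩ S) ∪
          ((nb X.R w).image (I.t w)) := by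
        intro b hb
        by_cases hbS : b ∈ S
        · exact mem_union_left _ (mem_union_right _ (mem_inter.2 ⟨hb, hbS⟩))
        by_cases hbc : w ∈ cov X.R I.t b
        · apply mem_union_right
          simp only [cov, mem_filter, mem_univ, true_and] at hbc
          obtain ⟨x, hx1, hx2⟩ := hbc
          rw [mem_image]
          exact ⟨x, by simp [nb, hx1], hx2⟩
        · apply mem_union_left
          apply mem_union_left
          rw [mem_filter]
          refine ⟨hb, ?_⟩
          simp only [W0, mem_filter, mem_univ, true_and]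
          exact ⟨(hS b hb hbS).1, (hS b hb hbS).2, hbc⟩
      calc P.card ≤ _ := card_le_card h7
        _ ≤ _ := card_union_le _ _
        _ ≤ _ := Nat.add_le_add (card_union_le _ _) card_image_le
    have hR : X.R = ins G X.side := rfl
    rw [← hR] at h1
    by_cases hw : w ∈ U
    · have h7 := h6 (F w) (fun b _ hb => ⟨fun h => h.1 hw, hb⟩)
      have h8 := hzU hw
      have h9 : (P ∩ F w).card + (F w ∩ L).card = (F w).card := by
        rw [hL, inter_comm P, ← card_union_of_disjoint]
        · congr 1
          ext b
          simp only [mem_union, mem_inter, mem_sdiff, mem_univ, true_and]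
          tauto
        · rw [disjoint_left]
          intro b hb hb'
          simp only [mem_inter, mem_sdiff, mem_univ, true_and] at hb hb'
          exact hb'.2 hb.2
      have h10 := X.F2 w hw
      have h11 := X.degU w hw
      have h12 := X.kd
      have h13 : 4 ≤ ((univ : Finset (Fin 4)).filter (fun j => w ∉ ZQ X.side F L j)).card +
          (F w ∩ L).card := by
        have h14 := zq_count (X.side w) (F w ∩ L).card (by
          have := card_le_card (inter_subset_left : F w ∩ L ⊆ F w)
          omega)
        have h15 := card_filter_add_card_filter_not (s := (univ : Finset (Fin 4)))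
          (fun j => w ∈ ZQ X.side F L j)
        have h16 : ((univ : Finset (Fin 4)).filter (fun j => w ∈ ZQ X.side F L j)).card ≤
            (F w ∩ L).card := by
          refine le_trans (le_of_eq ?_) h14
          congr 1
          ext j
          simp [ZQ]
        rw [card_univ, Fintype.card_fin] at h15
        omega
      omega
    · have hFw := X.F0 w hw
      have h7 := h6 {I.c w} (fun b _ hb => ⟨fun h => hb (mem_singleton.2 h.2.symm), by simp [hFw]⟩)
      have h8 : (P ∩ {I.c w}).card ≤ 1 := by
        refine le_trans (card_le_card inter_subset_right) ?_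
        simp
      have h9 : 4 ≤ ((univ : Finset (Fin 4)).filter (fun j => w ∉ ZQ X.side F L j)).card := by
        have : ((univ : Finset (Fin 4)).filter (fun j => w ∉ ZQ X.side F L j)) = univ := by
          rw [filter_eq_self]
          intro j _
          simp [ZQ, hFw]
        rw [this, card_univ, Fintype.card_fin]
      have h10 := X.deg w
      have h11 := X.kd
      omega
  have hkk : 4 ≤ L.card := by
    obtain ⟨w⟩ := hV
    have := hdeg w
    omega
  -- GAL
  obtain ⟨col, hcol1, hcol2⟩ := Lin.stmt_GAL V k L.card X.side F0 (fun j => Mt.M (Sum.inr j)) L F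
    hkk rfl
    (by
      intro w
      have h1 := card_le_card (inter_subset_left : F w ∩ L ⊆ F w)
      by_cases hw : w ∈ U
      · have := X.F2 w hw
        omega
      · rw [X.F0 w hw] at h1 ⊢
        simp)
    (by
      intro e he
      rw [hF0, mem_filter, hE, mem_CE] at he
      rw [he.1.1, he.1.2.1]
      simp)
    (by
      intro j e he
      have := Mt.Me _ e he
      rw [this.1, this.2.1]
      simp)
    hdeg (fun j => Mt.Mm _)
    (by
      intro j
      rw [disjoint_left]
      intro e he he'
      rw [hF0, mem_filter] at he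
      exact he.2 _ he')
    (by
      intro i j hij
      exact Mt.Md _ _ (fun h => hij (Sum.inr.inj h)))
    (by
      intro j e he
      have h1 := ((Mt.Mq j e.1).1 ⟨e, he, Or.inl rfl⟩).1
      have h2 := ((Mt.Mq j e.2).1 ⟨e, he, Or.inr rfl⟩).1
      constructor
      · intro h
        apply h1
        simpa [Lin.ZQ, ZQ] using h
      · intro h
        apply h2
        simpa [Lin.ZQ, ZQ] using h)
  -- cross edges
  let cr : V × V → Fin k := fun e => if h : ∃ b, e ∈ Mt.M (Sum.inl b) then h.choose else col e
  have hcr1 : ∀ e, ∀ h : (∃ b, e ∈ Mt.M (Sum.inl b)), e ∈ Mt.M (Sum.inl (cr e)) := by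
    intro e h
    have : cr e = h.choose := dif_pos h
    rw [this]
    exact h.choose_spec
  have hMP : ∀ b e, e ∈ Mt.M (Sum.inl b) → b ∈ P := by
    intro b e he
    by_contra hb
    rw [Mt.M0 b hb] at he
    simp at he
  have hcr2 : ∀ e ∈ E, ¬ (∃ b, e ∈ Mt.M (Sum.inl b)) →
      cr e = col e ∧ (e ∈ F0 ∨ ∃ j, e ∈ Mt.M (Sum.inr j)) := by
    intro e he h
    refine ⟨dif_neg h, ?_⟩
    by_cases h1 : ∃ j, e ∈ Mt.M (Sum.inr j)
    · exact Or.inr h1
    · left
      rw [hF0, mem_filter]
      refine ⟨he, ?_⟩
      intro a ha
      rcases a with b | j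
      · exact h ⟨b, ha⟩
      · exact h1 ⟨j, ha⟩
  -- facts about the colours of cross edges
  have hcr3 : ∀ e ∈ E, ∀ v, (e.1 = v ∨ e.2 = v) → (cr e ∉ F v ∧ (v ∉ U → cr e ≠ I.c v) ∧
      ∀ w, X.R.Adj v w → I.t v w ≠ cr e) := by
    intro e he v hv
    by_cases h : ∃ b, e ∈ Mt.M (Sum.inl b)
    · have h1 := hcr1 e h
      have h2 := hMP _ e h1
      have h3 := ((Mt.Mc _ h2 v).1 ⟨e, h1, hv⟩).1
      simp only [W0, mem_filter, mem_univ, true_and] at h3
      refine ⟨h3.2.1, fun hvU heq => h3.1 ⟨hvU, heq.symm⟩, ?_⟩
      intro w hw heq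
      apply h3.2.2
      simp only [cov, mem_filter, mem_univ, true_and]
      exact ⟨w, hw, heq⟩
    · obtain ⟨h1, h2⟩ := hcr2 e he h
      have h3 := hcol1 e h2
      rw [← h1] at h3
      have hnP : cr e ∉ P := by
        have := h3.1
        rw [hL, mem_sdiff] at this
        exact this.2
      refine ⟨?_, fun _ heq => hnP (by rw [heq]; exact hcP v), fun w hw heq => hnP (by
        rw [← heq]; exact htP v w hw)⟩
      rcases hv with hv | hv
      · rw [← hv]; exact h3.2.1
      · rw [← hv]; exact h3.2.2
  have hcr4 : ∀ e ∈ E, ∀ f ∈ E, ∀ v, (e.1 = v ∨ e.2 = v) → (f.1 = v ∨ f.2 = v) →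
      cr e = cr f → e = f := by
    intro e he f hf v hev hfv heq
    have hsh : Lin.Share e f := by
      unfold Lin.Share
      rcases hev with h | h <;> rcases hfv with h' | h'
      · exact Or.inl (h.trans h'.symm)
      · exact Or.inr (Or.inl (h.trans h'.symm))
      · exact Or.inr (Or.inr (Or.inl (h.trans h'.symm)))
      · exact Or.inr (Or.inr (Or.inr (h.trans h'.symm)))
    by_cases h : ∃ b, e ∈ Mt.M (Sum.inl b)
    · have h1 := hcr1 e h
      by_cases h' : ∃ b, f ∈ Mt.M (Sum.inl b)
      · have h1' := hcr1 f h'
        rw [← heq] at h1'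
        exact Mt.Mm _ e h1 f h1' hsh
      · obtain ⟨h2, h3⟩ := hcr2 f hf h'
        have h4 := (hcol1 f h3).1
        rw [← h2, ← heq, hL, mem_sdiff] at h4
        exact absurd (hMP _ e h1) h4.2
    · obtain ⟨h2, h3⟩ := hcr2 e he h
      by_cases h' : ∃ b, f ∈ Mt.M (Sum.inl b)
      · have h1' := hcr1 f h'
        have h4 := (hcol1 e h3).1
        rw [← h2, heq, hL, mem_sdiff] at h4
        exact absurd (hMP _ f h1') h4.2
      · obtain ⟨h2', h3'⟩ := hcr2 f hf h'
        by_contra hne
        exact hcol2 e f h3 h3' hne hsh (by rw [← h2, ← h2', heq])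
  -- the colouring
  have hxE : ∀ v w, G.Adj v w → X.side v ≠ X.side w → xp X.side v w ∈ E := by
    intro v w h hs
    rw [hE, mem_CE]
    exact ⟨(xp_side X.side hs).1, (xp_side X.side hs).2, xp_adj X.side h⟩
  have hin : ∀ v w, G.Adj v w → X.side v = X.side w → X.R.Adj v w := fun v w h hs => ⟨h, hs⟩
  let t : V → V → Fin k := fun v w => if X.side v = X.side w then I.t v w else cr (xp X.side v w)
  have ht1 : ∀ v w, X.side v = X.side w → t v w = I.t v w := fun v w h => if_pos h
  have ht2 : ∀ v w, X.side v ≠ X.side w → t v w = cr (xp X.side v w) := fun v w h => if_neg h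
  refine ⟨t, fun v w _ _ h => I.cadj v w h, fun v u hu _ h => I.cF v u hu h, ⟨?_, ?_⟩, ?_, ?_⟩
  · intro v w
    by_cases hs : X.side v = X.side w
    · rw [ht1 v w hs, ht1 w v hs.symm]
      exact I.pec.1 v w
    · rw [ht2 v w hs, ht2 w v (Ne.symm hs), xp_symm X.side hs]
  · intro v w hw w' hw' heq
    have hw1 : G.Adj v w := by simpa [nb] using hw
    have hw1' : G.Adj v w' := by simpa [nb] using hw'
    by_cases hs : X.side v = X.side w
    · rw [ht1 v w hs] at heq
      by_cases hs' : X.side v = X.side w'
      · rw [ht1 v w' hs'] at heq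
        exact I.pec.2 v (by simp [nb, hin v w hw1 hs]) (by simp [nb, hin v w' hw1' hs']) heq
      · rw [ht2 v w' hs'] at heq
        exact absurd heq ((hcr3 _ (hxE v w' hw1' hs') v (xp_mem _ v w')).2.2 w (hin v w hw1 hs))
    · rw [ht2 v w hs] at heq
      by_cases hs' : X.side v = X.side w'
      · rw [ht1 v w' hs'] at heq
        exact absurd heq.symm ((hcr3 _ (hxE v w hw1 hs) v (xp_mem _ v w)).2.2 w'
          (hin v w' hw1' hs'))
      · rw [ht2 v w' hs'] at heq
        exact xp_inj X.side (hcr4 _ (hxE v w hw1 hs) _ (hxE v w' hw1' hs') v (xp_mem _ v w)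
          (xp_mem _ v w') heq)
  · intro v w h
    by_cases hs : X.side v = X.side w
    · rw [ht1 v w hs]
      exact I.tF v w (hin v w h hs)
    · rw [ht2 v w hs]
      exact (hcr3 _ (hxE v w h hs) v (xp_mem _ v w)).1
  · intro v w hv h
    by_cases hs : X.side v = X.side w
    · rw [ht1 v w hs]
      exact htc v w (hin v w h hs)
    · rw [ht2 v w hs]
      exact (hcr3 _ (hxE v w h hs) v (xp_mem _ v w)).2.1 hv

end Pool.Agent.Work.MP_db9399_qr
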