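import Mathlib
import Pool.Agent.Work.MP_db9399_co.Defs
import Pool.Agent.Work.MP_db9399_all.Interface
import Pool.Agent.Work.MP_db9399_lin.Interface

/-!
# MP_db9399: Q1 for quasirandom graphs, `Δ + 2` colours (owner helper43)

Definitions and the exact statement `Stmt_X` of every block. See `BLUEPRINT.md`.
-/

set_option autoImplicit false

namespace Pool.Agent.Work.MP_db9399_qr

open Finset Classical
open Pool.Agent.Work.MP_db9399_all (nb)
open _root_.MP_db9399_co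

universe u

section defs
variable {V : Type u} [Fintype V]

/-- quasirandomness: upper bound for the number of edges between two sets -/
def Mix (G : SimpleGraph V) (d : ℕ) (ε : ℝ) : Prop :=
  ∀ A B : Finset V, (∑ a ∈ A, ((nb G a ∩ B).card : ℝ)) ≤
    (d : ℝ) / (Fintype.card V) * A.card * B.card + ε * d * max (A.card : ℝ) (B.card : ℝ)

/-- the vertices covered by the colour `b` of the edge colouring `t` of `R` -/
noncomputable def cov {C : Type} (R : SimpleGraph V) (t : V → V → C) (b : C) : Finset V :=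
  univ.filter (fun v => ∃ w, R.Adj v w ∧ t v w = b)

/-- `t` is a proper edge colouring of `R` -/
def PEC {C : Type} (R : SimpleGraph V) (t : V → V → C) : Prop :=
  (∀ v w, t v w = t w v) ∧ ∀ v, Set.InjOn (t v) (nb R v : Set V)

/-- the edges of `G` inside the two sides -/
def ins (G : SimpleGraph V) (side : V → Bool) : SimpleGraph V where
  Adj v w := G.Adj v w ∧ side v = side w
  symm := ⟨fun _ _ h => ⟨h.1.symm, h.2.symm⟩⟩
  loopless := ⟨fun _ h => G.loopless.irrefl _ h.1⟩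

/-- the side `s` -/
noncomputable def sd (side : V → Bool) (s : Bool) : Finset V := univ.filter (fun v => side v = s)

/-- `M` is a set of pairs (x, y) which is a perfect matching between `X` and `Y` -/
def PMat (M : Finset (V × V)) (X Y : Finset V) : Prop :=
  (∀ e ∈ M, e.1 ∈ X ∧ e.2 ∈ Y) ∧ (∀ x ∈ X, ∃! e, e ∈ M ∧ e.1 = x) ∧
    ∀ y ∈ Y, ∃! e, e ∈ M ∧ e.2 = y

end defs

/-! ## General blocks -/

/-- SPLIT (from VIZ): splitting a graph with prescribed degree bounds. -/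
def Stmt_SPLIT : Prop :=
  ∀ {V : Type u} [Fintype V] (R : SimpleGraph V) (D : ℕ) (T : Type) [Fintype T] (p : T → ℕ),
    (∀ v, (nb R v).card ≤ D) → D + 1 ≤ ∑ t, p t →
    ∃ τ : V → V → T, (∀ v w, τ v w = τ w v) ∧
      ∀ v t, ((nb R v).filter (fun w => τ v w = t)).card ≤ p t

/-- HALL: perfect matchings in quasirandom graphs. -/
def Stmt_HALL : Prop :=
  ∀ {V : Type u} [Fintype V] (G : SimpleGraph V) (d : ℕ) (ε a1 a2 θ : ℝ) (X Y E : Finset V)
    (Rl : V → V → Prop), 0 < d → 0 ≤ ε → 0 ≤ θ → 2 * θ + 2 * ε < a2 → Mix G d ε →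
    (∀ x ∈ X, ∀ y ∈ Y, Rl x y → G.Adj x y) → X.card = Y.card →
    ((X ∩ E).card : ℝ) ≤ θ * Fintype.card V → ((Y ∩ E).card : ℝ) ≤ θ * Fintype.card V →
    (∀ x ∈ X, x ∉ E → a1 * d ≤ ((Y.filter (fun y => Rl x y)).card : ℝ)) →
    (∀ x ∈ X, x ∈ E → a2 * d ≤ ((Y.filter (fun y => Rl x y)).card : ℝ)) →
    (∀ y ∈ Y, y ∉ E → a1 * d ≤ ((X.filter (fun x => Rl x y)).card : ℝ)) →
    (∀ y ∈ Y, y ∈ E → a2 * d ≤ ((X.filter (fun x => Rl x y)).card : ℝ)) →
    (X.card : ℝ) < 2 * (a1 - 2 * ε) * Fintype.card V →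
    ∃ M : Finset (V × V), (∀ e ∈ M, Rl e.1 e.2) ∧ PMat M X Y

/-- SEQ: choosing pairwise disjoint objects one after the other. -/
def Stmt_SEQ : Prop :=
  ∀ (E : Type u) (ι : Type) [Fintype ι] (P : ι → Finset E → Prop),
    (∀ t, ∀ Mo : ι → Finset E, (∀ t', Mo t' = ∅ ∨ P t' (Mo t')) →
      ∃ M : Finset E, P t M ∧ ∀ t', t' ≠ t → Disjoint M (Mo t')) →
    ∃ M : ι → Finset E, (∀ t, P t (M t)) ∧ ∀ t t', t ≠ t' → Disjoint (M t) (M t')

/-- ZSEL: disjoint subsets of given sizes. -/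
def Stmt_ZSEL : Prop :=
  ∀ (V : Type u) (ι : Type) [Fintype ι] (Cand : ι → Finset V) (z : ι → ℕ),
    (∀ t, z t ≤ (Cand t).card) →
    (∀ t, ∑ t' ∈ univ.filter (fun t' => ¬ Disjoint (Cand t') (Cand t)), z t' ≤ (Cand t).card) →
    ∃ Z : ι → Finset V, (∀ t, Z t ⊆ Cand t ∧ (Z t).card = z t) ∧
      ∀ t t', t ≠ t' → Disjoint (Z t) (Z t')

/-- JCOL (from VIZ and SPLIT): near-optimal edge colouring in which the colour `b` avoids the
cell `g b`. -/
def Stmt_JCOL : Prop :=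
  ∀ {V : Type u} [Fintype V] (R : SimpleGraph V) (cell : V → Fin 10) (D m : ℕ) (C : Type)
    (Ga : Finset C) (g : C → Fin 10),
    (∀ v a, ((nb R v).filter (fun w => cell w = a)).card ≤ D) →
    (∀ i, m ≤ (Ga.filter (fun b => g b = i)).card) → 10 * (D + 1) + 90 ≤ 9 * m →
    ∃ t : V → V → C, PEC R t ∧
      ∀ v w, R.Adj v w → t v w ∈ Ga ∧ g (t v w) ≠ cell v ∧ g (t v w) ≠ cell w

/-- DROP: cutting the colour classes down to given sizes. -/
def Stmt_DROP : Prop :=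
  ∀ {V : Type u} [Fintype V] (R : SimpleGraph V) (C : Type) (t : V → V → C) (B : Finset C)
    (sz : C → ℕ) (cap : ℕ), PEC R t → (∀ b ∈ B, 2 * sz b ≤ (cov R t b).card) →
    (∀ b ∈ B, ∑ b' ∈ B, ((cov R t b').card - 2 * sz b') ≤ cap * sz b) →
    ∃ K : SimpleGraph V, K ≤ R ∧ (∀ b ∈ B, (cov K t b).card = 2 * sz b) ∧
      ∀ v, ((nb R v).filter (fun w => t v w ∈ B ∧ ¬ K.Adj v w)).card ≤ cap

/-- POOL: greedy colouring of the dropped edges, in pairs. -/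
def Stmt_POOL : Prop :=
  ∀ {V : Type u} [Fintype V] (R : SimpleGraph V) (side : V → Bool) (cell : V → Fin 10)
    (D m : ℕ) (C : Type) (Pe : Finset C) (ty : C → Fin 10 × Fin 10 × Fin 10 × Fin 10)
    (F : V → Finset C), (∀ v w, R.Adj v w → side v = side w) → (∀ v, (nb R v).card ≤ D) →
    (∀ v, (F v).card ≤ 2) → (∀ τ, m ≤ (Pe.filter (fun b => ty b = τ)).card) → 4 * D + 9 ≤ m →
    ∃ t : V → V → C, PEC R t ∧ (∀ v w, R.Adj v w → t v w ∈ Pe ∧ t v w ∉ F v ∧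
      (side v = true → cell v = (ty (t v w)).1 ∨ cell v = (ty (t v w)).2.1) ∧
      (side v = false → cell v = (ty (t v w)).2.2.1 ∨ cell v = (ty (t v w)).2.2.2)) ∧
      (∑ b ∈ Pe, |((cov R t b ∩ sd side true).card : ℤ) - ((cov R t b ∩ sd side false).card : ℤ)|
        ≤ |(∑ v ∈ sd side true, ((nb R v).card : ℤ)) - ∑ v ∈ sd side false, ((nb R v).card : ℤ)|)

/-- PART (from LLLI): the two sides and the cells. -/
def Stmt_PART : Prop :=
  ∀ δ : ℝ, 0 < δ → ∃ (ε : ℝ) (d0 : ℕ), 0 < ε ∧ ∀ {V : Type u} [Fintype V] (G : SimpleGraph V)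
    (d : ℕ), d0 ≤ d → (∀ v, (nb G v).card ≤ d ∧ (1 - ε) * d ≤ ((nb G v).card : ℝ)) →
    ∃ (side : V → Bool) (cell : V → Fin 10) (sub : V → Fin 100) (p : ℕ), p ≤ 1 ∧
      (sd side true).card = (sd side false).card + p ∧
      (∀ v s a r, |(((nb G v).filter (fun w => side w = s ∧ cell w = a ∧ sub w = r)).card : ℝ) -
        (d : ℝ) / 2000| ≤ δ * d) ∧
      |(∑ v ∈ sd side true, ((nb G v).card : ℝ)) - (∑ v ∈ sd side false, ((nb G v).card : ℝ)) -
        (p : ℝ) * d| ≤ δ * d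

/-- CHI: few colours suffice for the vertices. -/
def Stmt_CHI : Prop :=
  ∀ c : ℝ, 0 < c → ∃ (ε : ℝ) (d0 : ℕ), 0 < ε ∧ ∀ {V : Type u} [Fintype V] (G : SimpleGraph V)
    (d : ℕ), d0 ≤ d → 3 * d ≤ Fintype.card V → Mix G d ε →
    ∃ (χ : ℕ) (g : V → ℕ), (χ : ℝ) ≤ c * d ∧ (∀ v, g v < χ) ∧ ∀ v w, G.Adj v w → g v ≠ g w

/-- IND: independent sets are small. -/
def Stmt_IND : Prop :=
  ∀ c : ℝ, 0 < c → ∃ ε : ℝ, 0 < ε ∧ ∀ {V : Type u} [Fintype V] (G : SimpleGraph V)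
    (d : ℕ), 0 < d → (∀ v, (1 - ε) * d ≤ ((nb G v).card : ℝ)) → Mix G d ε →
    ∀ S : Finset V, (∀ v ∈ S, ∀ w ∈ S, ¬ G.Adj v w) → (S.card : ℝ) ≤ c * Fintype.card V

/-- VC: the colours of the ordinary vertices. -/
def Stmt_VC : Prop :=
  ∀ {V : Type u} [Fintype V] (G : SimpleGraph V) (U : Finset V) (k χ : ℕ)
    (F : V → Finset (Fin k)) (g : V → ℕ) (cell : V → Fin 10) (sub : V → Fin 100)
    (Gd : Fin 10 → Finset (Fin k)), (∀ v, g v < χ) → (∀ v w, G.Adj v w → g v ≠ g w) →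
    (∀ u ∈ U, (F u).card ≤ 2) → (∀ v, (univ.filter (fun u => u ∈ U ∧ G.Adj v u)).card ≤ 2) →
    (∀ i, 500 * χ ≤ (Gd i).card) → (∀ i j, i ≠ j → Disjoint (Gd i) (Gd j)) →
    ∃ (P : Finset (Fin k)) (c : V → Fin k), P.card ≤ 5000 * χ ∧
      (∀ v, c v ∈ P ∧ c v ∈ Gd (cell v)) ∧ (∀ v w, G.Adj v w → c v ≠ c w) ∧
      (∀ v w, c v = c w → sub v = sub w) ∧ (∀ v, ∀ u ∈ U, G.Adj v u → c v ∉ F u)

/-! ## The context -/

/-- the threshold for good colours -/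
noncomputable def th : ℝ := 1 / 10 ^ 10

/-- deviation of the degrees into the cells -/
noncomputable def de : ℝ := 1 / 10 ^ 22

/-- quasirandomness used for the matchings -/
noncomputable def ep : ℝ := 1 / 10 ^ 6

/-- All data fixed at the beginning. `G` is the graph without the edges of `H`, `U` the set of the
vertices of `H`, `F u` the two colours forbidden at `u ∈ U` (own colour, colour of the edge of `H`).
Colours: `Ga` (100 groups, the colour `b` belongs to the group `(gi b, gj b)`), `Pe`, and the rest. -/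
structure Ctx {V : Type u} [Fintype V] (k d : ℕ) (G : SimpleGraph V) (U : Finset V)
    (F : V → Finset (Fin k)) where
  q : ℕ
  side : V → Bool
  cell : V → Fin 10
  sub : V → Fin 100
  p : ℕ
  χ : ℕ
  g : V → ℕ
  gi : Fin k → Fin 10
  gj : Fin k → Fin 10
  Ga : Finset (Fin k)
  Pe : Finset (Fin k)
  ty : Fin k → Fin 10 × Fin 10 × Fin 10 × Fin 10
  dbig : 10 ^ 30 ≤ d
  n3 : 3 * d ≤ Fintype.card V
  kd : d + 2 ≤ k
  disj : Disjoint Ga Pe
  Gaq : ∀ i j, (Ga.filter (fun b => gi b = i ∧ gj b = j)).card = q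
  qlo : ∀ D : ℕ, (D : ℝ) ≤ (1 / 20 + de) * d → 10 * (D + 1) + 90 ≤ 90 * q
  qhi : 90 * (q : ℝ) ≤ (1 / 2 + 20 * de) * d
  Pem : ∀ τ, 88 * th * d + 20 ≤ ((Pe.filter (fun b => ty b = τ)).card : ℝ)
  Pecard : (Pe.card : ℝ) ≤ d / 10 ^ 4
  chid : (χ : ℝ) ≤ d / 10 ^ 7
  glt : ∀ v, g v < χ
  gadj : ∀ v w, G.Adj v w → g v ≠ g w
  F2 : ∀ u ∈ U, (F u).card ≤ 2
  F0 : ∀ v, v ∉ U → F v = ∅
  UU : ∀ u ∈ U, ∀ v ∈ U, ¬ G.Adj u v
  U2 : ∀ v, (univ.filter (fun u => u ∈ U ∧ G.Adj v u)).card ≤ 2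
  Ucard : (U.card : ℝ) * d ≤ 3 * Fintype.card V
  deg : ∀ v, (nb G v).card ≤ d
  degU : ∀ u ∈ U, (nb G u).card + (F u).card ≤ d + 1
  cellU : ∀ v s a, |(((nb G v).filter (fun w => side w = s ∧ cell w = a)).card : ℝ) -
    (d : ℝ) / 20| ≤ de * d
  subU : ∀ v s a r, (((nb G v).filter (fun w => side w = s ∧ cell w = a ∧ sub w = r)).card : ℝ) ≤
    6 / 10 ^ 4 * d
  p1 : p ≤ 1
  sides : (sd side true).card = (sd side false).card + p
  degsum : |(∑ v ∈ sd side true, ((nb G v).card : ℝ)) - (∑ v ∈ sd side false,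
    ((nb G v).card : ℝ)) - (p : ℝ) * d| ≤ de * d + U.card
  cellsz : ∀ s a, |((univ.filter (fun v => side v = s ∧ cell v = a)).card : ℝ) -
    (Fintype.card V : ℝ) / 20| ≤ 2 * de * Fintype.card V
  mix : Mix G d ep
  ind : ∀ S : Finset V, (∀ v ∈ S, ∀ w ∈ S, ¬ G.Adj v w) → (S.card : ℝ) ≤ th / 4 * Fintype.card V

namespace Ctx
variable {V : Type u} [Fintype V] {k d : ℕ} {G : SimpleGraph V} {U : Finset V}
  {F : V → Finset (Fin k)} (X : Ctx k d G U F)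

/-- `v` is idle for the colours of the group of `b` -/
def idl (b : Fin k) (v : V) : Prop :=
  (X.side v = true → X.gi b = X.cell v) ∧ (X.side v = false → X.gj b = X.cell v)

/-- the graph of the inside edges -/
def R : SimpleGraph V := ins G X.side

end Ctx

/-- The vertices to be covered by cross edges of colour `b`, before the choice of the missed
vertices: ordinary vertices of colour `b`, vertices of `U` forbidding `b` and vertices covered by an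
inside edge of colour `b` are excluded. -/
noncomputable def W0 {V : Type u} [Fintype V] {k : ℕ} (R : SimpleGraph V) (U : Finset V)
    (F : V → Finset (Fin k)) (c : V → Fin k) (t : V → V → Fin k) (b : Fin k) : Finset V :=
  univ.filter (fun v => ¬ (v ∉ U ∧ c v = b) ∧ b ∉ F v ∧ v ∉ cov R t b)

/-- imbalance of `W0` -/
noncomputable def imb {V : Type u} [Fintype V] (side : V → Bool) (W : Finset V) : ℤ :=
  ((W ∩ sd side true).card : ℤ) - ((W ∩ sd side false).card : ℤ)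

/-- The colouring of the vertices and of the inside edges. -/
structure Ins {V : Type u} [Fintype V] {k d : ℕ} {G : SimpleGraph V} {U : Finset V}
    {F : V → Finset (Fin k)} (X : Ctx k d G U F) where
  Gd : Finset (Fin k)
  c : V → Fin k
  t : V → V → Fin k
  Gdsub : Gd ⊆ X.Ga
  bad : ((X.Ga \ Gd).card : ℝ) ≤ th * d
  cG : ∀ v, c v ∈ Gd ∧ X.gi (c v) = X.cell v ∧ X.gj (c v) = X.cell v
  cadj : ∀ v w, G.Adj v w → c v ≠ c w
  cF : ∀ v, ∀ u ∈ U, G.Adj v u → c v ∉ F u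
  csub : ∀ v w, c v = c w → X.sub v = X.sub w
  pec : PEC X.R t
  tF : ∀ v w, X.R.Adj v w → t v w ∉ F v
  tcol : ∀ v w, X.R.Adj v w → (t v w ∈ Gd ∧ ¬ X.idl (t v w) v) ∨ (t v w ∈ X.Pe ∧
    (X.side v = true → X.cell v = (X.ty (t v w)).1 ∨ X.cell v = (X.ty (t v w)).2.1) ∧
    (X.side v = false → X.cell v = (X.ty (t v w)).2.2.1 ∨ X.cell v = (X.ty (t v w)).2.2.2))
  ecount : ∀ v, ((Gd.filter (fun b => ¬ X.idl b v ∧ v ∉ cov X.R t b)).card : ℝ) ≤ 22 * th * d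
  esize : ∀ b ∈ Gd, ((univ.filter (fun v => ¬ X.idl b v ∧ v ∉ cov X.R t b)).card : ℝ) ≤
    8 * th * Fintype.card V
  imbG : ∀ b ∈ Gd, |imb X.side (W0 X.R U F c t b)| ≤ 2
  imbP : (∑ b ∈ X.Pe ∪ (X.Ga \ Gd), |((imb X.side (W0 X.R U F c t b) : ℤ) : ℝ)|) ≤
    d / 1000 + 20 * U.card

/-- INS (from JCOL, VC, DROP, POOL): the inside colouring exists. -/
def Stmt_INS : Prop :=
  ∀ {V : Type u} [Fintype V] {k d : ℕ} {G : SimpleGraph V} {U : Finset V}
    {F : V → Finset (Fin k)} (X : Ctx k d G U F), Nonempty (Ins X)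

/-- the vertices avoided by the reference matching number `j` of the last part -/
noncomputable def ZQ {V : Type u} [Fintype V] {k : ℕ} (side : V → Bool) (F : V → Finset (Fin k))
    (L : Finset (Fin k)) (j : Fin 4) : Finset V :=
  univ.filter (fun w => side w = decide (2 ≤ j.val) ∧ j.val % 2 + 1 ≤ (F w ∩ L).card)

/-- the cross matchings: one for every colour of `Ga ∪ Pe` and four reference matchings; `Z` are
the missed vertices -/
structure Mats {V : Type u} [Fintype V] {k d : ℕ} {G : SimpleGraph V} {U : Finset V}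
    {F : V → Finset (Fin k)} (X : Ctx k d G U F) (I : Ins X) where
  Z : Fin k ⊕ Fin 4 → Finset V
  M : Fin k ⊕ Fin 4 → Finset (V × V)
  ZU : ∀ a, Disjoint (Z a) U
  Zd : ∀ a b, a ≠ b → Disjoint (Z a) (Z b)
  Md : ∀ a b, a ≠ b → Disjoint (M a) (M b)
  Me : ∀ a, ∀ e ∈ M a, X.side e.1 = true ∧ X.side e.2 = false ∧ G.Adj e.1 e.2
  Mm : ∀ a, Lin.IsM (M a)
  M0 : ∀ b, b ∉ X.Ga ∪ X.Pe → M (Sum.inl b) = ∅
  Mc : ∀ b ∈ X.Ga ∪ X.Pe, ∀ v, (∃ e ∈ M (Sum.inl b), e.1 = v ∨ e.2 = v) ↔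
    v ∈ W0 X.R U F I.c I.t b ∧ v ∉ Z (Sum.inl b)
  Mq : ∀ j : Fin 4, ∀ v, (∃ e ∈ M (Sum.inr j), e.1 = v ∨ e.2 = v) ↔
    v ∉ ZQ X.side F (univ \ (X.Ga ∪ X.Pe)) j ∧ v ∉ Z (Sum.inr j)

/-- TASK (from SPLIT, HALL, SEQ, ZSEL): the matchings exist. -/
def Stmt_TASK : Prop :=
  ∀ {V : Type u} [Fintype V] {k d : ℕ} {G : SimpleGraph V} {U : Finset V}
    {F : V → Finset (Fin k)} (X : Ctx k d G U F) (I : Ins X), Nonempty (Mats X I)

/-- the final colouring (of the graph without the edges of `H`) -/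
def Good {V : Type u} [Fintype V] {k : ℕ} (G : SimpleGraph V) (U : Finset V)
    (F : V → Finset (Fin k)) (c : V → Fin k) (t : V → V → Fin k) : Prop :=
  (∀ v w, v ∉ U → w ∉ U → G.Adj v w → c v ≠ c w) ∧
  (∀ v, ∀ u ∈ U, v ∉ U → G.Adj v u → c v ∉ F u) ∧ PEC G t ∧
  (∀ v w, G.Adj v w → t v w ∉ F v) ∧ ∀ v w, v ∉ U → G.Adj v w → t v w ≠ c v

/-- GF (from the old block GAL): the last part by Galvin's theorem. -/
def Stmt_GF : Prop :=
  ∀ {V : Type u} [Fintype V] {k d : ℕ} {G : SimpleGraph V} {U : Finset V}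
    {F : V → Finset (Fin k)} (X : Ctx k d G U F) (I : Ins X), Mats X I →
    ∃ t : V → V → Fin k, Good G U F I.c t

/-- CTX (from PART, CHI, IND): the context exists. -/
def Stmt_CTX : Prop :=
  ∃ (ε : ℝ) (d0 : ℕ), 0 < ε ∧ ∀ {V : Type u} [Fintype V] (k d : ℕ) (G G0 : SimpleGraph V)
    (U : Finset V) (F : V → Finset (Fin k)), d0 ≤ d → 3 * d ≤ Fintype.card V → d + 2 ≤ k →
    (∀ v, (nb G v).card ≤ d ∧ (1 - ε) * d ≤ ((nb G v).card : ℝ)) → Mix G d ε →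
    G0 ≤ G → (∀ v, (nb G v).card ≤ (nb G0 v).card + 1) → (∀ v, v ∉ U → nb G0 v = nb G v) →
    (∀ u ∈ U, (F u).card ≤ 2) → (∀ v, v ∉ U → F v = ∅) → (∀ u ∈ U, ∀ v ∈ U, ¬ G0.Adj u v) →
    (∀ v, (univ.filter (fun u => u ∈ U ∧ G0.Adj v u)).card ≤ 2) →
    (∀ u ∈ U, (nb G0 u).card + (F u).card ≤ d + 1) → Nonempty (Ctx k d G0 U F)

/-- THE THEOREM. -/
def Stmt_MAIN : Prop :=
  ∃ (ε : ℝ) (d0 : ℕ), 0 < ε ∧ ∀ (V : Type u) [Fintype V] (G : SimpleGraph V)
    [DecidableRel G.Adj] (d k : ℕ), d0 ≤ d → 3 * d ≤ Fintype.card V → d + 2 ≤ k →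
    (∀ v, G.degree v ≤ d ∧ (1 - ε) * d ≤ (G.degree v : ℝ)) →
    (∀ A B : Finset V, ((G.interedges A B).card : ℝ) ≤
      (d : ℝ) / (Fintype.card V) * A.card * B.card + ε * d * max (A.card : ℝ) (B.card : ℝ)) →
    ∀ H : G.Subgraph, IsDistThreeMatching H → EveryTotalColoringExtends H (Fin k)

/-- FINQ: the theorem from the blocks. -/
def Stmt_FINQ : Prop := Stmt_CTX.{u} → Stmt_INS.{u} → Stmt_TASK.{u} → Stmt_GF.{u} → Stmt_MAIN.{u}

end Pool.Agent.Work.MP_db9399_qr
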