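import Pool.Agent.Work.MP_db9399_qr.Interface

/-!
# Block SEQ
-/

set_option autoImplicit false

namespace Pool.Agent.Work.MP_db9399_qr

open Finset Classical

universe u

theorem stmt_SEQ : Stmt_SEQ.{u} := by
  intro E ι _ P h
  have key : ∀ S : Finset ι, ∃ M : ι → Finset E, (∀ t ∈ S, P t (M t)) ∧ (∀ t, t ∉ S → M t = ∅) ∧
      ∀ t t', t ≠ t' → Disjoint (M t) (M t') := by
    intro S
    induction S using Finset.induction_on with
    | empty => exact ⟨fun _ => ∅, by simp, by simp, by simp⟩
    | insert a S ha ih =>
      obtain ⟨M, hM, hM0, hMd⟩ := ih
      obtain ⟨N, hN, hNd⟩ := h a M (fun t' => by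
        by_cases ht : t' ∈ S
        · exact Or.inr (hM t' ht)
        · exact Or.inl (hM0 t' ht))
      refine ⟨Function.update M a N, ?_, ?_, ?_⟩
      · intro t ht
        by_cases hta : t = a
        · subst hta; simpa using hN
        · rw [Function.update_of_ne hta]
          exact hM t ((mem_insert.1 ht).resolve_left hta)
      · intro t ht
        rw [mem_insert, not_or] at ht
        rw [Function.update_of_ne ht.1]
        exact hM0 t ht.2
      · intro t t' htt
        by_cases hta : t = a
        · subst hta
          rw [Function.update_self, Function.update_of_ne (Ne.symm htt)]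
          exact hNd t' (Ne.symm htt)
        · by_cases hta' : t' = a
          · subst hta'
            rw [Function.update_self, Function.update_of_ne hta]
            exact (hNd t hta).symm
          · rw [Function.update_of_ne hta, Function.update_of_ne hta']
            exact hMd t t' htt
  obtain ⟨M, h1, _, h3⟩ := key univ
  exact ⟨M, fun t => h1 t (mem_univ t), h3⟩

end Pool.Agent.Work.MP_db9399_qr
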