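import Pool.Agent.Work.MP_db9399_qr.Interface
import Pool.Agent.Work.MP_db9399_all_helper34.VIZ

/-!
# Block SPLIT (helper63): splitting a graph with prescribed degree bounds
-/

set_option autoImplicit false

namespace Pool.Agent.Work.MP_db9399_qr

open Finset Classical
open Pool.Agent.Work.MP_db9399_all (nb)

universe u

theorem stmt_SPLIT : Stmt_SPLIT.{u} := by
  intro V _ R D T _ p hD hp
  obtain ⟨t, hs, hlt, hinj⟩ := MP_db9399_all.stmt_VIZ R D hD
  have hcard : Fintype.card (Fin (D + 1)) ≤ Fintype.card (Σ t : T, Fin (p t)) := by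
    simpa using hp
  obtain ⟨e⟩ := Function.Embedding.nonempty_of_card_le hcard
  refine ⟨fun v w => (e ⟨t v w, hlt v w⟩).1, fun v w => ?_, fun v a => ?_⟩
  · simp only [hs v w]
  · have h2 : ((nb R v).filter (fun w => (e ⟨t v w, hlt v w⟩).1 = a)).card ≤
        ((univ : Finset (Fin (p a))).image (fun y => (⟨a, y⟩ : Σ t : T, Fin (p t)))).card := by
      refine Finset.card_le_card_of_injOn (fun w => e ⟨t v w, hlt v w⟩) ?_ ?_
      · intro w hw
        have hw1 : (e ⟨t v w, hlt v w⟩).1 = a := (mem_filter.1 (mem_coe.1 hw)).2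
        rw [mem_coe, mem_image]
        change ∃ y ∈ univ, (⟨a, y⟩ : Σ t : T, Fin (p t)) = e ⟨t v w, hlt v w⟩
        generalize e ⟨t v w, hlt v w⟩ = x at hw1
        obtain ⟨b, y⟩ := x
        subst hw1
        exact ⟨y, mem_univ _, rfl⟩
      · intro w hw w' hw' h
        have hw1 := (mem_filter.1 (mem_coe.1 hw)).1
        have hw2 := (mem_filter.1 (mem_coe.1 hw')).1
        have h3 := e.injective h
        exact hinj v hw1 hw2 (by simpa using h3)
    refine h2.trans (card_image_le.trans ?_)
    simp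

end Pool.Agent.Work.MP_db9399_qr
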