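import Pool.Agent.Work.MP_db9399_qr.Interface

/-!
# Block ZSEL
-/

set_option autoImplicit false

namespace Pool.Agent.Work.MP_db9399_qr

open Finset Classical

universe u

theorem stmt_ZSEL : Stmt_ZSEL.{u} := by
  intro V ι _ Cand z hz hsum
  have key : ∀ S : Finset ι, ∃ Z : ι → Finset V, (∀ t ∈ S, Z t ⊆ Cand t ∧ (Z t).card = z t) ∧
      (∀ t, t ∉ S → Z t = ∅) ∧ ∀ t t', t ≠ t' → Disjoint (Z t) (Z t') := by
    intro S
    induction S using Finset.induction_on with
    | empty => exact ⟨fun _ => ∅, by simp, by simp, by simp⟩
    | insert a S ha ih =>
      obtain ⟨Z, hZ, hZ0, hZd⟩ := ih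
      have hcand : z a ≤ (Cand a \ S.biUnion Z).card := by
        rcases (Cand a).eq_empty_or_nonempty with he | hne
        · have : z a = 0 := by have := hz a; rw [he] at this; simpa using this
          rw [this]; exact Nat.zero_le _
        · have h1 : (Cand a ∩ S.biUnion Z).card ≤
              ∑ t' ∈ (univ.filter (fun t' => ¬ Disjoint (Cand t') (Cand a))).erase a, z t' := by
            calc (Cand a ∩ S.biUnion Z).card
                ≤ (((univ.filter (fun t' => ¬ Disjoint (Cand t') (Cand a))).erase a ∩ S).biUnion
                    Z).card := by
                  apply card_le_card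
                  intro v hv
                  rw [mem_inter, mem_biUnion] at hv
                  obtain ⟨hva, t', ht', hvt⟩ := hv
                  rw [mem_biUnion]
                  refine ⟨t', ?_, hvt⟩
                  rw [mem_inter, mem_erase, mem_filter]
                  refine ⟨⟨fun hta => ha (hta ▸ ht'), mem_univ _, ?_⟩, ht'⟩
                  intro hd
                  exact disjoint_left.1 hd ((hZ t' ht').1 hvt) hva
              _ ≤ ∑ t' ∈ (univ.filter (fun t' => ¬ Disjoint (Cand t') (Cand a))).erase a ∩ S,
                    (Z t').card := card_biUnion_le
              _ = ∑ t' ∈ (univ.filter (fun t' => ¬ Disjoint (Cand t') (Cand a))).erase a ∩ S,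
                    z t' := sum_congr rfl fun t' ht' => (hZ t' (mem_inter.1 ht').2).2
              _ ≤ _ := sum_le_sum_of_subset inter_subset_left
          have h2 : a ∈ univ.filter (fun t' => ¬ Disjoint (Cand t') (Cand a)) := by
            rw [mem_filter]
            refine ⟨mem_univ _, fun hd => ?_⟩
            rw [disjoint_self] at hd
            exact hne.ne_empty hd
          have h3 := Finset.add_sum_erase _ z h2
          have h4 := hsum a
          have h5 := card_sdiff_add_card_inter (Cand a) (S.biUnion Z)
          omega
      obtain ⟨N, hN, hNc⟩ := exists_subset_card_eq hcand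
      have hNd : ∀ t, t ≠ a → Disjoint N (Z t) := by
        intro t _
        by_cases ht : t ∈ S
        · rw [disjoint_left]
          intro v hv hvt
          have := hN hv
          rw [mem_sdiff, mem_biUnion] at this
          exact this.2 ⟨t, ht, hvt⟩
        · rw [hZ0 t ht]; exact disjoint_empty_right _
      refine ⟨Function.update Z a N, ?_, ?_, ?_⟩
      · intro t ht
        by_cases hta : t = a
        · subst hta
          rw [Function.update_self]
          exact ⟨hN.trans sdiff_subset, hNc⟩
        · rw [Function.update_of_ne hta]
          exact hZ t ((mem_insert.1 ht).resolve_left hta)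
      · intro t ht
        rw [mem_insert, not_or] at ht
        rw [Function.update_of_ne ht.1]
        exact hZ0 t ht.2
      · intro t t' htt
        by_cases hta : t = a
        · subst hta
          rw [Function.update_self, Function.update_of_ne (Ne.symm htt)]
          exact hNd t' (Ne.symm htt)
        · by_cases hta' : t' = a
          · subst hta'
            rw [Function.update_self, Function.update_of_ne hta]
            exact (hNd t hta).symm
          · rw [Function.update_of_ne hta, Function.update_of_ne hta']
            exact hZd t t' htt
  obtain ⟨Z, h1, _, h3⟩ := key univ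
  exact ⟨Z, fun t => h1 t (mem_univ t), h3⟩

end Pool.Agent.Work.MP_db9399_qr
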