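import Pool.Agent.Work.MP_db9399_qr.Interface

/-!
# Block CHI (helper6): few colours suffice for the vertices
-/

set_option autoImplicit false

namespace Pool.Agent.Work.MP_db9399_qr

open Finset Classical
open Pool.Agent.Work.MP_db9399_all (nb)

universe u

namespace CHIAux

variable {V : Type u} [Fintype V] (G : SimpleGraph V)

/-- a vertex of small degree in `U` -/
theorem exists_low (d : ℕ) (ε : ℝ) (hmix : Mix G d ε) (U : Finset V) (hU : U.Nonempty) :
    ∃ v ∈ U, ((nb G v ∩ U).card : ℝ) ≤ (d : ℝ) / Fintype.card V * U.card + ε * d := by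
  by_contra hne
  push Not at hne
  have h1 := hmix U U
  rw [max_self] at h1
  have h2 : ∑ _v ∈ U, ((d : ℝ) / Fintype.card V * U.card + ε * d) <
      ∑ v ∈ U, ((nb G v ∩ U).card : ℝ) := Finset.sum_lt_sum_of_nonempty hU hne
  rw [Finset.sum_const, nsmul_eq_mul] at h2
  nlinarith

/-- greedy independent sets -/
theorem exists_indep (d : ℕ) (ε κ : ℝ) (hmix : Mix G d ε) (hκ : 0 < κ) (hd : 4 ≤ κ * d)
    (hε : 4 * ε ≤ κ) (hn : 3 * d ≤ Fintype.card V) (hd0 : 0 < d) (J : ℕ) :
    ∀ U : Finset V, κ * Fintype.card V ≤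
      (1 - 3 / 2 * ((d : ℝ) / Fintype.card V)) ^ J * (U.card : ℝ) →
      ∃ S ⊆ U, S.card = J ∧ ∀ v ∈ S, ∀ w ∈ S, ¬ G.Adj v w := by
  set n : ℝ := (Fintype.card V : ℝ) with hn'
  have hd' : (0 : ℝ) < d := by exact_mod_cast hd0
  have hn3 : 3 * (d : ℝ) ≤ n := by rw [hn']; exact_mod_cast hn
  have hn0 : 0 < n := by linarith
  have hx : (d : ℝ) / n ≤ 1 / 3 := by
    rw [div_le_iff₀ hn0]
    linarith
  have hx0 : 0 < (d : ℝ) / n := div_pos hd' hn0
  set x : ℝ := (d : ℝ) / n with hxdef
  have hxn : x * n = d := by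
    rw [hxdef]
    field_simp
  induction J with
  | zero =>
    intro U _
    exact ⟨∅, Finset.empty_subset _, rfl, fun v hv => absurd hv (Finset.notMem_empty v)⟩
  | succ J ih =>
    intro U hU
    have hr0 : 0 ≤ 1 - 3 / 2 * x := by linarith
    have hr1 : 1 - 3 / 2 * x ≤ 1 := by linarith
    have hUc : κ * n ≤ U.card := by
      have h1 : (1 - 3 / 2 * x) ^ (J + 1) * (U.card : ℝ) ≤ 1 * (U.card : ℝ) :=
        mul_le_mul_of_nonneg_right (pow_le_one₀ hr0 hr1) (Nat.cast_nonneg _)
      linarith
    have hUne : U.Nonempty := by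
      rw [← Finset.card_pos]
      have : (0 : ℝ) < U.card := lt_of_lt_of_le (by positivity) hUc
      exact_mod_cast this
    obtain ⟨v, hv, hvd⟩ := exists_low G d ε hmix U hUne
    rw [← hn', ← hxdef] at hvd
    set U' := U \ insert v (nb G v) with hU'
    have hcard : (U.card : ℝ) - 1 - (x * U.card + ε * d) ≤ U'.card := by
      have h2 : U.card ≤ U'.card + (1 + (nb G v ∩ U).card) := by
        have h3 : U ⊆ U' ∪ insert v (nb G v ∩ U) := by
          intro w hw
          rw [Finset.mem_union, hU', Finset.mem_sdiff]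
          by_cases h4 : w ∈ insert v (nb G v)
          · right
            rw [Finset.mem_insert] at h4 ⊢
            rcases h4 with h4 | h4
            · exact Or.inl h4
            · exact Or.inr (Finset.mem_inter.2 ⟨h4, hw⟩)
          · exact Or.inl ⟨hw, h4⟩
        refine (Finset.card_le_card h3).trans ((Finset.card_union_le _ _).trans ?_)
        have := Finset.card_insert_le v (nb G v ∩ U)
        omega
      have h5 : (U.card : ℝ) ≤ U'.card + (1 + (nb G v ∩ U).card) := by exact_mod_cast h2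
      linarith
    have hstep : (1 - 3 / 2 * x) * (U.card : ℝ) ≤ U'.card := by
      have h6 : 1 + ε * d ≤ 1 / 2 * (x * U.card) := by
        have h7 : κ * d ≤ x * U.card := by
          calc κ * d = x * (κ * n) := by rw [← hxn]; ring
            _ ≤ _ := mul_le_mul_of_nonneg_left hUc hx0.le
        have h8 : 4 * (ε * d) ≤ κ * d := by nlinarith
        linarith
      nlinarith
    obtain ⟨S, hSU, hSc, hS⟩ := ih U' (by
      refine hU.trans ?_
      rw [pow_succ, mul_assoc]
      exact mul_le_mul_of_nonneg_left hstep (pow_nonneg hr0 _))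
    have hvS : v ∉ S := by
      intro h
      have := hSU h
      rw [hU', Finset.mem_sdiff] at this
      exact this.2 (Finset.mem_insert_self _ _)
    have hnv : ∀ w ∈ S, ¬ G.Adj v w := by
      intro w hw hadj
      have := hSU hw
      rw [hU', Finset.mem_sdiff] at this
      exact this.2 (Finset.mem_insert_of_mem (by simpa [nb] using hadj))
    refine ⟨insert v S, ?_, ?_, ?_⟩
    · rw [Finset.insert_subset_iff]
      exact ⟨hv, hSU.trans Finset.sdiff_subset⟩
    · rw [Finset.card_insert_of_notMem hvS, hSc]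
    · intro a ha b hb
      rw [Finset.mem_insert] at ha hb
      rcases ha with rfl | ha
      · rcases hb with rfl | hb
        · exact G.loopless.irrefl _
        · exact hnv b hb
      · rcases hb with rfl | hb
        · exact fun h => hnv a ha h.symm
        · exact hS a ha b hb

/-- small sets are degenerate -/
theorem exists_deg (d : ℕ) (ε κ : ℝ) (hmix : Mix G d ε) (D : ℕ)
    (hD : κ * d + ε * d < D) (m : ℕ) :
    ∀ U : Finset V, U.card = m → (U.card : ℝ) ≤ κ * Fintype.card V →
      ∃ g : V → ℕ, (∀ v ∈ U, g v < D) ∧ ∀ v ∈ U, ∀ w ∈ U, G.Adj v w → g v ≠ g w := by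
  induction m with
  | zero =>
    intro U hU _
    rw [Finset.card_eq_zero] at hU
    subst hU
    exact ⟨fun _ => 0, fun v hv => absurd hv (Finset.notMem_empty v),
      fun v hv => absurd hv (Finset.notMem_empty v)⟩
  | succ m ih =>
    intro U hU hUk
    have hUne : U.Nonempty := by
      rw [← Finset.card_pos]
      omega
    obtain ⟨v, hv, hvd⟩ := exists_low G d ε hmix U hUne
    have hn0 : (0 : ℝ) < Fintype.card V := by
      have : 0 < Fintype.card V := Fintype.card_pos_iff.2 ⟨v⟩
      exact_mod_cast this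
    have hlt : ((nb G v ∩ U).card : ℝ) < D := by
      refine lt_of_le_of_lt (hvd.trans ?_) hD
      have : (d : ℝ) / Fintype.card V * U.card ≤ (d : ℝ) / Fintype.card V *
          (κ * Fintype.card V) := mul_le_mul_of_nonneg_left hUk (by positivity)
      have h2 : (d : ℝ) / Fintype.card V * (κ * Fintype.card V) = κ * d := by
        field_simp
      linarith
    have hlt' : (nb G v ∩ U).card < D := by exact_mod_cast hlt
    obtain ⟨g, hg1, hg2⟩ := ih (U.erase v) (by
      rw [Finset.card_erase_of_mem hv, hU]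
      rfl) (by
      refine le_trans ?_ hUk
      exact_mod_cast Finset.card_le_card (Finset.erase_subset v U))
    have hex : ∃ x ∈ Finset.range D, x ∉ (nb G v ∩ U).image g := by
      by_contra hne
      push Not at hne
      have h3 : Finset.range D ⊆ (nb G v ∩ U).image g := hne
      have h4 := (Finset.card_le_card h3).trans Finset.card_image_le
      rw [Finset.card_range] at h4
      omega
    obtain ⟨x, hx, hx'⟩ := hex
    rw [Finset.mem_range] at hx
    refine ⟨fun w => if w = v then x else g w, ?_, ?_⟩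
    · intro w hw
      by_cases h : w = v
      · simp only [if_pos h]
        exact hx
      · simp only [if_neg h]
        exact hg1 w (Finset.mem_erase.2 ⟨h, hw⟩)
    · intro a ha b hb hab
      by_cases h1 : a = v
      · have h2 : b ≠ v := by
          rintro rfl
          exact G.loopless.irrefl _ (h1 ▸ hab)
        simp only [if_pos h1, if_neg h2]
        intro h3
        apply hx'
        rw [Finset.mem_image]
        refine ⟨b, Finset.mem_inter.2 ⟨?_, hb⟩, h3.symm⟩
        rw [h1] at hab
        simpa [nb] using hab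
      · by_cases h2 : b = v
        · simp only [if_neg h1, if_pos h2]
          intro h3
          apply hx'
          rw [Finset.mem_image]
          refine ⟨a, Finset.mem_inter.2 ⟨?_, ha⟩, h3⟩
          rw [h2] at hab
          simpa [nb] using hab.symm
        · simp only [if_neg h1, if_neg h2]
          exact hg2 a (Finset.mem_erase.2 ⟨h1, ha⟩) b (Finset.mem_erase.2 ⟨h2, hb⟩) hab

/-- colouring by independent sets of size `J`, then greedily -/
theorem exists_col (J D : ℕ) (κ : ℝ) (hJ : 1 ≤ J)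
    (h1 : ∀ U : Finset V, κ * Fintype.card V ≤ (U.card : ℝ) →
      ∃ S ⊆ U, S.card = J ∧ ∀ v ∈ S, ∀ w ∈ S, ¬ G.Adj v w)
    (h2 : ∀ U : Finset V, (U.card : ℝ) ≤ κ * Fintype.card V →
      ∃ g : V → ℕ, (∀ v ∈ U, g v < D) ∧ ∀ v ∈ U, ∀ w ∈ U, G.Adj v w → g v ≠ g w) (N : ℕ) :
    ∀ U : Finset V, U.card ≤ N → ∃ (m : ℕ) (g : V → ℕ), m * J ≤ U.card ∧
      (∀ v ∈ U, g v < D + m) ∧ ∀ v ∈ U, ∀ w ∈ U, G.Adj v w → g v ≠ g w := by
  induction N with
  | zero =>
    intro U hU
    have : U = ∅ := by
      rw [← Finset.card_eq_zero]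
      omega
    subst this
    exact ⟨0, fun _ => 0, by simp, fun v hv => absurd hv (Finset.notMem_empty v),
      fun v hv => absurd hv (Finset.notMem_empty v)⟩
  | succ N ih =>
    intro U hU
    rcases le_total (κ * Fintype.card V) (U.card : ℝ) with h3 | h3
    · obtain ⟨S, hSU, hSc, hS⟩ := h1 U h3
      have hc : (U \ S).card = U.card - J := by
        rw [Finset.card_sdiff_of_subset hSU, hSc]
      have hJU : J ≤ U.card := by
        rw [← hSc]
        exact Finset.card_le_card hSU
      obtain ⟨m, g, hm, hg1, hg2⟩ := ih (U \ S) (by omega)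
      refine ⟨m + 1, fun v => if v ∈ S then D + m else g v, ?_, ?_, ?_⟩
      · rw [hc] at hm
        rw [Nat.add_mul, one_mul]
        omega
      · intro v hv
        by_cases h : v ∈ S
        · simp only [if_pos h]
          omega
        · simp only [if_neg h]
          have := hg1 v (Finset.mem_sdiff.2 ⟨hv, h⟩)
          omega
      · intro v hv w hw hvw
        by_cases h4 : v ∈ S
        · by_cases h5 : w ∈ S
          · exact absurd hvw (hS v h4 w h5)
          · simp only [if_pos h4, if_neg h5]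
            have := hg1 w (Finset.mem_sdiff.2 ⟨hw, h5⟩)
            omega
        · by_cases h5 : w ∈ S
          · simp only [if_neg h4, if_pos h5]
            have := hg1 v (Finset.mem_sdiff.2 ⟨hv, h4⟩)
            omega
          · simp only [if_neg h4, if_neg h5]
            exact hg2 v (Finset.mem_sdiff.2 ⟨hv, h4⟩) w (Finset.mem_sdiff.2 ⟨hw, h5⟩) hvw
    · obtain ⟨g, hg1, hg2⟩ := h2 U h3
      exact ⟨0, g, by simp, fun v hv => by simpa using hg1 v hv, hg2⟩

/-- lower bound for the powers -/
theorem pow_lower (x M : ℝ) (J : ℕ) (hx0 : 0 ≤ x) (hx : x ≤ 1 / 3) (hJ : J * x ≤ M + 1) :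
    Real.exp (-(3 * (M + 1))) ≤ (1 - 3 / 2 * x) ^ J := by
  have h1 : Real.exp (-(3 * x)) ≤ 1 - 3 / 2 * x := by
    rw [Real.exp_neg, inv_le_comm₀ (Real.exp_pos _) (by linarith)]
    have h2 : 3 * x + 1 ≤ Real.exp (3 * x) := Real.add_one_le_exp _
    refine le_trans ?_ h2
    rw [inv_le_iff_one_le_mul₀ (by linarith)]
    nlinarith
  calc Real.exp (-(3 * (M + 1))) ≤ Real.exp (J * -(3 * x)) := by
        rw [Real.exp_le_exp]
        linarith
    _ = Real.exp (-(3 * x)) ^ J := by rw [Real.exp_nat_mul]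
    _ ≤ _ := pow_le_pow_left₀ (Real.exp_pos _).le h1 J

end CHIAux

open CHIAux

theorem stmt_CHI : Stmt_CHI.{u} := by
  intro c hc
  set M : ℝ := 4 / c with hM
  have hM0 : 0 < M := by positivity
  set κ : ℝ := c / 4 with hκ
  have hκ0 : 0 < κ := by positivity
  set κ' : ℝ := κ * Real.exp (-(3 * (M + 1))) with hκ'
  have hκ'0 : 0 < κ' := mul_pos hκ0 (Real.exp_pos _)
  have hκ'κ : κ' ≤ κ := by
    rw [hκ']
    have : Real.exp (-(3 * (M + 1))) ≤ 1 := Real.exp_le_one_iff.2 (by linarith)
    nlinarith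
  obtain ⟨d1, hd1⟩ := exists_nat_ge (4 / κ' + 4 / c + 1)
  refine ⟨κ' / 4, d1, by positivity, ?_⟩
  intro V _ G d hd hn hmix
  have hdd : (4 / κ' + 4 / c + 1 : ℝ) ≤ d := hd1.trans (by exact_mod_cast hd)
  have h4κ : 0 < 4 / κ' := by positivity
  have h4c : 0 < 4 / c := by positivity
  have hd' : (0 : ℝ) < d := by linarith
  have hd0 : 0 < d := by exact_mod_cast hd'
  have hκd : 4 ≤ κ' * d := by
    have : 4 / κ' ≤ d := by linarith
    rwa [div_le_iff₀ hκ'0, mul_comm] at this
  have hcd : 4 ≤ c * d := by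
    have : 4 / c ≤ d := by linarith
    rwa [div_le_iff₀ hc, mul_comm] at this
  have hn3 : 3 * (d : ℝ) ≤ Fintype.card V := by exact_mod_cast hn
  have hn0 : (0 : ℝ) < Fintype.card V := by linarith
  set n : ℝ := (Fintype.card V : ℝ) with hndef
  set x : ℝ := (d : ℝ) / n with hxdef
  have hx0 : 0 < x := div_pos hd' hn0
  have hx : x ≤ 1 / 3 := by
    rw [hxdef, div_le_iff₀ hn0]
    linarith
  set J : ℕ := ⌈M / x⌉₊ with hJ
  have hJ1 : M / x ≤ J := Nat.le_ceil _
  have hJ2 : (J : ℝ) < M / x + 1 := Nat.ceil_lt_add_one (by positivity)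
  have hJx : J * x ≤ M + 1 := by
    have h1 : J * x ≤ (M / x + 1) * x := mul_le_mul_of_nonneg_right hJ2.le hx0.le
    have h2 : (M / x + 1) * x = M + x := by
      field_simp
    linarith
  have hJpos : 1 ≤ J := by
    have : (0 : ℝ) < J := lt_of_lt_of_le (by positivity) hJ1
    exact_mod_cast this
  set D : ℕ := ⌊κ * d + κ' / 4 * d⌋₊ + 1 with hD
  have hD1 : κ * d + κ' / 4 * d < D := by
    rw [hD]
    push_cast
    exact Nat.lt_floor_add_one _
  have hD2 : (D : ℝ) ≤ κ * d + κ' / 4 * d + 1 := by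
    rw [hD]
    push_cast
    have := Nat.floor_le (a := κ * d + κ' / 4 * d) (by positivity)
    linarith
  have hind := exists_indep G d (κ' / 4) κ' hmix hκ'0 hκd (by linarith) hn hd0 J
  have hdeg := fun (U : Finset V) (h : (U.card : ℝ) ≤ κ * Fintype.card V) =>
    exists_deg G d (κ' / 4) κ hmix D hD1 U.card U rfl h
  obtain ⟨m, g, hm, hg1, hg2⟩ := exists_col G J D κ hJpos (fun U hU => hind U (by
    rw [← hndef, ← hxdef]
    have h5 := pow_lower x M J hx0.le hx hJx
    calc κ' * n = Real.exp (-(3 * (M + 1))) * (κ * n) := by rw [hκ']; ring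
      _ ≤ (1 - 3 / 2 * x) ^ J * (κ * n) := mul_le_mul_of_nonneg_right h5 (by positivity)
      _ ≤ (1 - 3 / 2 * x) ^ J * U.card := mul_le_mul_of_nonneg_left hU
          (pow_nonneg (by linarith) _))) hdeg (Fintype.card V) univ
    (by rw [Finset.card_univ])
  refine ⟨D + m, g, ?_, fun v => hg1 v (Finset.mem_univ v),
    fun v w h => hg2 v (Finset.mem_univ v) w (Finset.mem_univ w) h⟩
  have hm2 : (m : ℝ) * J ≤ n := by
    rw [Finset.card_univ] at hm
    rw [hndef]
    exact_mod_cast hm
  have hm3 : (m : ℝ) ≤ c / 4 * d := by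
    have h6 : (m : ℝ) * (M / x) ≤ n := le_trans (mul_le_mul_of_nonneg_left hJ1
      (Nat.cast_nonneg _)) hm2
    have h7 : M / x = 4 * n / (c * d) := by
      rw [hM, hxdef]
      field_simp
    rw [h7, mul_div_assoc', div_le_iff₀ (by positivity)] at h6
    have h8 : (m : ℝ) * 4 * n ≤ (c * d) * n := by nlinarith
    have h9 := le_of_mul_le_mul_right h8 hn0
    linarith
  push_cast
  have h10 : κ' / 4 * d ≤ c / 16 * d := by
    have : κ' ≤ c / 4 := by rw [← hκ]; exact hκ'κ
    nlinarith
  have h11 : κ * d = c / 4 * d := by rw [hκ]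
  nlinarith

end Pool.Agent.Work.MP_db9399_qr
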