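import Pool.Agent.Work.MP_db9399_qr.Interface

/-!
# MP_db9399, theorem QR, block CTX (helper23): the context exists
-/

set_option autoImplicit false

namespace Pool.Agent.Work.MP_db9399_qr

open Finset Classical
open Pool.Agent.Work.MP_db9399_all (nb)

universe u

namespace CTXAux

variable {V : Type u} [Fintype V]

theorem mem_nb {G : SimpleGraph V} {v w : V} : w ∈ nb G v ↔ G.Adj v w := by
  simp [nb]

theorem nb_mono {G G0 : SimpleGraph V} (h : G0 ≤ G) (v : V) : nb G0 v ⊆ nb G v := by
  intro w hw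
  rw [mem_nb] at hw ⊢
  exact h hw

theorem mix_mono {G G0 : SimpleGraph V} {d : ℕ} {ε ε' : ℝ} (h : G0 ≤ G) (hε : ε ≤ ε')
    (hm : Mix G d ε) : Mix G0 d ε' := by
  intro A B
  have h1 : (∑ a ∈ A, ((nb G0 a ∩ B).card : ℝ)) ≤ ∑ a ∈ A, ((nb G a ∩ B).card : ℝ) := by
    refine sum_le_sum fun a _ => ?_
    exact_mod_cast card_le_card (inter_subset_inter_right (nb_mono h a))
  have h2 := hm A B
  have h3 : ε * d * max (A.card : ℝ) (B.card : ℝ) ≤ ε' * d * max (A.card : ℝ) (B.card : ℝ) := by
    have : (0 : ℝ) ≤ max (A.card : ℝ) (B.card : ℝ) := le_max_of_le_left (Nat.cast_nonneg _)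
    have h4 : ε * d ≤ ε' * d := mul_le_mul_of_nonneg_right hε (Nat.cast_nonneg _)
    exact mul_le_mul_of_nonneg_right h4 this
  linarith

/-- double counting -/
theorem dc (G : SimpleGraph V) (C : Finset V) :
    ∑ v, ((nb G v).filter (fun w => w ∈ C)).card = ∑ w ∈ C, (nb G w).card := by
  have h := Finset.sum_card_bipartiteAbove_eq_sum_card_bipartiteBelow (s := (univ : Finset V))
    (t := C) (r := fun v w => G.Adj v w)
  have h1 : ∀ v ∈ (univ : Finset V), ((nb G v).filter (fun w => w ∈ C)).card =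
      (bipartiteAbove (fun v w => G.Adj v w) C v).card := by
    intro v _
    congr 1
    ext w
    simp only [mem_filter, mem_nb, mem_bipartiteAbove]
    exact and_comm
  have h2 : ∀ w ∈ C, (nb G w).card =
      (bipartiteBelow (fun v w => G.Adj v w) (univ : Finset V) w).card := by
    intro w _
    congr 1
    ext v
    simp only [mem_nb, mem_bipartiteBelow, mem_univ, true_and]
    exact G.adj_comm w v
  rw [sum_congr rfl h1, sum_congr rfl h2]
  exact h

/-- the colours -/
theorem colours0 (A B : Type) [Fintype A] [Fintype B] [Inhabited A] [Inhabited B] (k q m : ℕ)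
    (h : Fintype.card A * q + Fintype.card B * m ≤ k) :
    ∃ (gG : Fin k → A) (Ga Pe : Finset (Fin k)) (ty : Fin k → B), Disjoint Ga Pe ∧
      (∀ i, (Ga.filter (fun b => gG b = i)).card = q) ∧
      (∀ τ, (Pe.filter (fun b => ty b = τ)).card = m) ∧ Pe.card = Fintype.card B * m := by
  have hc : Fintype.card ((A × Fin q) ⊕ (B × Fin m)) ≤ Fintype.card (Fin k) := by
    simp only [Fintype.card_sum, Fintype.card_prod, Fintype.card_fin]
    exact h
  obtain ⟨f⟩ := Function.Embedding.nonempty_of_card_le hc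
  let Ga : Finset (Fin k) := univ.image fun x => f (Sum.inl x)
  let Pe : Finset (Fin k) := univ.image fun x => f (Sum.inr x)
  let gG : Fin k → A := fun b => if h : ∃ x, f (Sum.inl x) = b then h.choose.1 else default
  let ty : Fin k → B := fun b => if h : ∃ x, f (Sum.inr x) = b then h.choose.1 else default
  have hG : ∀ x, gG (f (Sum.inl x)) = x.1 := by
    intro x
    have h1 : ∃ y, f (Sum.inl y) = f (Sum.inl x) := ⟨x, rfl⟩
    have h2 : gG (f (Sum.inl x)) = h1.choose.1 := dif_pos h1
    rw [h2]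
    have h3 := h1.choose_spec
    have h4 : h1.choose = x := Sum.inl_injective (f.injective h3)
    rw [h4]
  have hT : ∀ x, ty (f (Sum.inr x)) = x.1 := by
    intro x
    have h1 : ∃ y, f (Sum.inr y) = f (Sum.inr x) := ⟨x, rfl⟩
    have h2 : ty (f (Sum.inr x)) = h1.choose.1 := dif_pos h1
    rw [h2]
    have h3 := h1.choose_spec
    have h4 : h1.choose = x := Sum.inr_injective (f.injective h3)
    rw [h4]
  refine ⟨gG, Ga, Pe, ty, ?_, ?_, ?_, ?_⟩
  · rw [Finset.disjoint_left]
    intro b hb hb'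
    obtain ⟨x, -, rfl⟩ := mem_image.1 hb
    obtain ⟨y, -, hy⟩ := mem_image.1 hb'
    have := f.injective hy
    cases this
  · intro i
    have h1 : Ga.filter (fun b => gG b = i) =
        univ.image fun y : Fin q => f (Sum.inl (i, y)) := by
      ext b
      simp only [mem_filter, mem_image, mem_univ, true_and]
      constructor
      · rintro ⟨hb, h2⟩
        obtain ⟨x, -, rfl⟩ := mem_image.1 hb
        rw [hG] at h2
        refine ⟨x.2, ?_⟩
        have : (i, x.2) = x := Prod.ext h2.symm rfl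
        rw [this]
      · rintro ⟨y, rfl⟩
        exact ⟨mem_image.2 ⟨_, mem_univ _, rfl⟩, by rw [hG]⟩
    rw [h1, card_image_of_injective _ (fun y y' h => by
      have := Sum.inl_injective (f.injective h)
      exact (Prod.ext_iff.1 this).2), card_univ, Fintype.card_fin]
  · intro τ
    have h1 : Pe.filter (fun b => ty b = τ) =
        univ.image fun y : Fin m => f (Sum.inr (τ, y)) := by
      ext b
      simp only [mem_filter, mem_image, mem_univ, true_and]
      constructor
      · rintro ⟨hb, h2⟩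
        obtain ⟨x, -, rfl⟩ := mem_image.1 hb
        rw [hT] at h2
        refine ⟨x.2, ?_⟩
        have : (τ, x.2) = x := Prod.ext h2.symm rfl
        rw [this]
      · rintro ⟨y, rfl⟩
        exact ⟨mem_image.2 ⟨_, mem_univ _, rfl⟩, by rw [hT]⟩
    rw [h1, card_image_of_injective _ (fun y y' h => by
      have := Sum.inr_injective (f.injective h)
      exact (Prod.ext_iff.1 this).2), card_univ, Fintype.card_fin]
  · have h1 : Pe.card = Fintype.card (B × Fin m) := by
      rw [← card_univ]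
      exact card_image_of_injective _ (f.injective.comp Sum.inr_injective)
    rw [h1]
    simp only [Fintype.card_prod, Fintype.card_fin]

theorem colours (k q m : ℕ) (h : 100 * q + 10 ^ 4 * m ≤ k) :
    ∃ (gi gj : Fin k → Fin 10) (Ga Pe : Finset (Fin k))
      (ty : Fin k → Fin 10 × Fin 10 × Fin 10 × Fin 10), Disjoint Ga Pe ∧
      (∀ i j, (Ga.filter (fun b => gi b = i ∧ gj b = j)).card = q) ∧
      (∀ τ, (Pe.filter (fun b => ty b = τ)).card = m) ∧ Pe.card = 10 ^ 4 * m := by
  have e1 : Fintype.card (Fin 10 × Fin 10) = 100 := by simp [Fintype.card_prod, Fintype.card_fin]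
  have e2 : Fintype.card (Fin 10 × Fin 10 × Fin 10 × Fin 10) = 10 ^ 4 := by
    simp [Fintype.card_prod, Fintype.card_fin]
  obtain ⟨gG, Ga, Pe, ty, h1, h2, h3, h4⟩ := colours0 (Fin 10 × Fin 10)
    (Fin 10 × Fin 10 × Fin 10 × Fin 10) k q m (by rw [e1, e2]; exact h)
  refine ⟨fun b => (gG b).1, fun b => (gG b).2, Ga, Pe, ty, h1, fun i j => ?_,
    fun τ => by convert h3 τ, ?_⟩
  · rw [← h2 (i, j)]
    congr 1
    ext b
    simp only [mem_filter]
    constructor
    · rintro ⟨a1, a2, a3⟩
      exact ⟨a1, Prod.ext a2 a3⟩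
    · rintro ⟨a1, a2⟩
      rw [a2]
      exact ⟨a1, rfl, rfl⟩
  · rw [h4, e2]

/-- sum over the subcells -/
theorem sub_sum (S : Finset V) (side : V → Bool) (cell : V → Fin 10) (sub : V → Fin 100)
    (s : Bool) (a : Fin 10) :
    (S.filter (fun w => side w = s ∧ cell w = a)).card =
      ∑ r : Fin 100, (S.filter (fun w => side w = s ∧ cell w = a ∧ sub w = r)).card := by
  rw [card_eq_sum_card_fiberwise (f := sub) (t := (univ : Finset (Fin 100)))
    (fun x _ => mem_coe.2 (mem_univ _))]
  refine sum_congr rfl fun r _ => ?_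
  congr 1
  ext w
  simp only [mem_filter, and_assoc]

theorem cell_dev {S : Finset V} {side : V → Bool} {cell : V → Fin 10} {sub : V → Fin 100}
    {s : Bool} {a : Fin 10} {d δ : ℝ}
    (h : ∀ r, |((S.filter (fun w => side w = s ∧ cell w = a ∧ sub w = r)).card : ℝ) -
      d / 2000| ≤ δ * d) :
    |((S.filter (fun w => side w = s ∧ cell w = a)).card : ℝ) - d / 20| ≤ 100 * δ * d := by
  rw [sub_sum S side cell sub s a]
  have h1 : ((∑ r : Fin 100, (S.filter (fun w => side w = s ∧ cell w = a ∧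
      sub w = r)).card : ℕ) : ℝ) - d / 20 = ∑ r : Fin 100,
        (((S.filter (fun w => side w = s ∧ cell w = a ∧ sub w = r)).card : ℝ) - d / 2000) := by
    rw [sum_sub_distrib, sum_const, card_univ, Fintype.card_fin]
    push_cast
    ring
  rw [h1]
  calc _ ≤ ∑ r : Fin 100, |((S.filter (fun w => side w = s ∧ cell w = a ∧
        sub w = r)).card : ℝ) - d / 2000| := abs_sum_le_sum_abs _ _
    _ ≤ ∑ _r : Fin 100, δ * d := sum_le_sum fun r _ => h r
    _ = 100 * δ * d := by
      rw [sum_const, card_univ, Fintype.card_fin]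
      ring

theorem filter_dev {S T : Finset V} (h : S ⊆ T) (h1 : T.card ≤ S.card + 1) (p : V → Prop)
    [DecidablePred p] :
    (S.filter p).card ≤ (T.filter p).card ∧ (T.filter p).card ≤ (S.filter p).card + 1 := by
  refine ⟨card_le_card (filter_subset_filter _ h), ?_⟩
  have h2 : T.filter p ⊆ S.filter p ∪ (T \ S) := by
    intro x hx
    obtain ⟨hx1, hx2⟩ := mem_filter.1 hx
    by_cases hS : x ∈ S
    · exact mem_union_left _ (mem_filter.2 ⟨hS, hx2⟩)
    · exact mem_union_right _ (mem_sdiff.2 ⟨hx1, hS⟩)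
  have h3 := (card_le_card h2).trans (card_union_le _ _)
  have h4 := card_sdiff_add_card_eq_card h
  omega

theorem card_nb_sum_U (G0 : SimpleGraph V) (U : Finset V)
    (hU2 : ∀ v, (univ.filter (fun u => u ∈ U ∧ G0.Adj v u)).card ≤ 2) :
    ∑ u ∈ U, (nb G0 u).card ≤ 2 * Fintype.card V := by
  rw [← dc]
  calc ∑ v, ((nb G0 v).filter (fun w => w ∈ U)).card ≤ ∑ _v : V, 2 := by
        refine sum_le_sum fun v _ => ?_
        refine le_trans (card_le_card fun w hw => ?_) (hU2 v)
        rw [mem_filter, mem_nb] at hw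
        exact mem_filter.2 ⟨mem_univ _, hw.2, hw.1⟩
    _ = 2 * Fintype.card V := by
        rw [sum_const, card_univ, smul_eq_mul, mul_comm]

theorem sum_cells (G : SimpleGraph V) (side : V → Bool) (cell : V → Fin 10) (s : Bool)
    (a : Fin 10) :
    ∑ v, (((nb G v).filter (fun w => side w = s ∧ cell w = a)).card : ℝ) =
      ∑ w ∈ univ.filter (fun v => side v = s ∧ cell v = a), ((nb G w).card : ℝ) := by
  have h := dc G (univ.filter (fun v => side v = s ∧ cell v = a))
  have h1 : ∀ v, (nb G v).filter (fun w => w ∈ univ.filter (fun v => side v = s ∧ cell v = a)) =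
      (nb G v).filter (fun w => side w = s ∧ cell w = a) := by
    intro v
    ext w
    simp
  simp only [h1] at h
  exact_mod_cast h

end CTXAux

open CTXAux in
theorem stmt_CTX (hP : Stmt_PART.{u}) (hC : Stmt_CHI.{u}) (hI : Stmt_IND.{u}) :
    Stmt_CTX.{u} := by
  have hde : (0 : ℝ) < de := by unfold de; positivity
  have hth : (0 : ℝ) < th := by unfold th; positivity
  obtain ⟨ε1, n1, hε1, h1⟩ := hP (de / 1000) (by positivity)
  obtain ⟨ε2, n2, hε2, h2⟩ := hC (1 / 10 ^ 7) (by positivity)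
  obtain ⟨ε3, hε3, h3⟩ := hI (th / 4) (by positivity)
  obtain ⟨n3, hn3⟩ := exists_nat_gt (2 / ε3)
  set ε : ℝ := min (min ε1 ε2) (min (ε3 / 2) de) with hε
  have l1 : ε ≤ ε1 := (min_le_left _ _).trans (min_le_left _ _)
  have l2 : ε ≤ ε2 := (min_le_left _ _).trans (min_le_right _ _)
  have l3 : ε ≤ ε3 / 2 := (min_le_right _ _).trans (min_le_left _ _)
  have l4 : ε ≤ de := (min_le_right _ _).trans (min_le_right _ _)
  have lpos : 0 < ε := lt_min (lt_min hε1 hε2) (lt_min (by positivity) hde)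
  refine ⟨ε, max (max n1 n2) (max n3 (10 ^ 30)), lpos, ?_⟩
  intro V _ k d G G0 U F hd hn hk hdeg hmix hG0 hG1 hnb hF2 hF0 hUU hU2 hdU
  have d1 : n1 ≤ d := ((le_max_left _ _).trans (le_max_left _ _)).trans hd
  have d2 : n2 ≤ d := ((le_max_right _ _).trans (le_max_left _ _)).trans hd
  have d3 : n3 ≤ d := ((le_max_left _ _).trans (le_max_right _ _)).trans hd
  have d4 : 10 ^ 30 ≤ d := ((le_max_right _ _).trans (le_max_right _ _)).trans hd
  have D4 : (10 : ℝ) ^ 30 ≤ d := by exact_mod_cast d4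
  have D0 : (0 : ℝ) < d := lt_of_lt_of_le (by positivity) D4
  have hded : (10 : ℝ) ^ 8 ≤ de * d := by
    have : (10 : ℝ) ^ 8 = de * 10 ^ 30 := by unfold de; norm_num
    rw [this]
    exact mul_le_mul_of_nonneg_left D4 hde.le
  have hN : (3 : ℝ) * d ≤ Fintype.card V := by exact_mod_cast hn
  have hdegε : ∀ v, (1 - ε) * d ≤ ((nb G v).card : ℝ) := fun v => (hdeg v).2
  obtain ⟨side, cell, sub, p, hp1, hsides, hcell, hdegsum⟩ := h1 G d d1 (fun v => ⟨(hdeg v).1,
    le_trans (mul_le_mul_of_nonneg_right (by linarith) D0.le) (hdeg v).2⟩)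
  obtain ⟨χ, g, hχ, hg, hgG⟩ := h2 G d d2 hn (mix_mono le_rfl l2 hmix)
  -- the numbers
  set Dm : ℕ := ⌊(1 / 20 + de) * (d : ℝ)⌋₊ with hDm
  have hDm1 : (Dm : ℝ) ≤ (1 / 20 + de) * d := Nat.floor_le (by positivity)
  set q : ℕ := (10 * (Dm + 1) + 90 + 89) / 90 with hq
  have hq1 : 10 * (Dm + 1) + 90 ≤ 90 * q := by omega
  have hq2 : 90 * q ≤ 10 * (Dm + 1) + 90 + 89 := by omega
  have hq2' : 90 * (q : ℝ) ≤ 10 * (Dm + 1) + 90 + 89 := by exact_mod_cast hq2
  set m : ℕ := ⌈88 * th * (d : ℝ) + 20⌉₊ with hm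
  have hm1 : 88 * th * (d : ℝ) + 20 ≤ m := Nat.le_ceil _
  have hm2 : (m : ℝ) < 88 * th * d + 20 + 1 := Nat.ceil_lt_add_one (by positivity)
  have hthd : th * (d : ℝ) = d / 10 ^ 10 := by unfold th; ring
  have hded2 : de * (d : ℝ) = d / 10 ^ 22 := by unfold de; ring
  have hm3 : (10 : ℝ) ^ 4 * m ≤ d / 10 ^ 4 := by
    have : 88 * th * (d : ℝ) = 88 * (d / 10 ^ 10) := by rw [← hthd]; ring
    rw [this] at hm2
    norm_num at D4 hm2 ⊢
    linarith
  have hqhi : 90 * (q : ℝ) ≤ (1 / 2 + 20 * de) * d := by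
    have e1 : (1 / 2 + 20 * de) * (d : ℝ) = d / 2 + 20 * (de * d) := by ring
    have e2 : (1 / 20 + de) * (d : ℝ) = d / 20 + de * d := by ring
    rw [e1]
    rw [e2] at hDm1
    norm_num at hded
    linarith
  have hk' : (d : ℝ) + 2 ≤ k := by exact_mod_cast hk
  have hkk : 100 * q + 10 ^ 4 * m ≤ k := by
    have h : (100 : ℝ) * q + 10 ^ 4 * m ≤ k := by
      have e1 : (1 / 2 + 20 * de) * (d : ℝ) = d / 2 + 20 * (d / 10 ^ 22) := by
        rw [← hded2]; ring
      rw [e1] at hqhi
      norm_num at hqhi hm3 ⊢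
      linarith
    exact_mod_cast h
  obtain ⟨gi, gj, Ga, Pe, ty, c1, c2, c3, c4⟩ := colours k q m hkk
  have hsub : ∀ v, nb G0 v ⊆ nb G v := fun v => nb_mono hG0 v
  have hcard0 : ∀ v, (nb G0 v).card ≤ (nb G v).card := fun v => card_le_card (hsub v)
  have hlow0 : ∀ v, (1 - ε) * d - 1 ≤ ((nb G0 v).card : ℝ) := by
    intro v
    have a1 := hdegε v
    have a2 : ((nb G v).card : ℝ) ≤ (nb G0 v).card + 1 := by exact_mod_cast hG1 v
    linarith
  have hεd : ε * d ≤ de * d := mul_le_mul_of_nonneg_right l4 D0.le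
  -- vertices of `U`
  have hUcard : (U.card : ℝ) * d ≤ 3 * Fintype.card V := by
    have a1 := card_nb_sum_U G0 U hU2
    have a2 : (∑ u ∈ U, ((nb G0 u).card : ℝ)) ≤ 2 * Fintype.card V := by exact_mod_cast a1
    have a3 : ∑ _u ∈ U, (2 / 3 * (d : ℝ)) ≤ ∑ u ∈ U, ((nb G0 u).card : ℝ) := by
      refine sum_le_sum fun u _ => le_trans ?_ (hlow0 u)
      have e2 : (1 - ε) * (d : ℝ) = d - ε * d := by ring
      rw [e2]
      rw [hded2] at hεd
      norm_num at hεd D4
      linarith
    rw [sum_const, nsmul_eq_mul] at a3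
    linarith
  have hcellG : ∀ v s a, |(((nb G v).filter (fun w => side w = s ∧ cell w = a)).card : ℝ) -
      (d : ℝ) / 20| ≤ 100 * (de / 1000) * d := fun v s a => cell_dev fun r => hcell v s a r
  have hcell0 : ∀ v s a, |(((nb G0 v).filter (fun w => side w = s ∧ cell w = a)).card : ℝ) -
      (d : ℝ) / 20| ≤ de * d := by
    intro v s a
    obtain ⟨b1, b2⟩ := filter_dev (hsub v) (hG1 v) (fun w => side w = s ∧ cell w = a)
    have b1' : (((nb G0 v).filter (fun w => side w = s ∧ cell w = a)).card : ℝ) ≤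
        ((nb G v).filter (fun w => side w = s ∧ cell w = a)).card := by exact_mod_cast b1
    have b2' : (((nb G v).filter (fun w => side w = s ∧ cell w = a)).card : ℝ) ≤
        ((nb G0 v).filter (fun w => side w = s ∧ cell w = a)).card + 1 := by exact_mod_cast b2
    have b3 := abs_le.1 (hcellG v s a)
    have e1 : 100 * (de / 1000) * (d : ℝ) = de * d / 10 := by ring
    rw [e1] at b3
    norm_num at hded
    rw [abs_le]
    constructor <;> linarith [b3.1, b3.2]
  have hsub0 : ∀ v s a r, (((nb G0 v).filter (fun w => side w = s ∧ cell w = a ∧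
      sub w = r)).card : ℝ) ≤ 6 / 10 ^ 4 * d := by
    intro v s a r
    have b1 : (((nb G0 v).filter (fun w => side w = s ∧ cell w = a ∧ sub w = r)).card : ℝ) ≤
        ((nb G v).filter (fun w => side w = s ∧ cell w = a ∧ sub w = r)).card := by
      exact_mod_cast card_le_card (filter_subset_filter _ (hsub v))
    have b3 := (abs_le.1 (hcell v s a r)).2
    have e1 : de / 1000 * (d : ℝ) = d / 10 ^ 22 / 1000 := by rw [← hded2]; ring
    rw [e1] at b3
    norm_num at b3 ⊢
    linarith
  -- degree sums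
  have hsum1 : ∀ s, |(∑ v ∈ sd side s, ((nb G v).card : ℝ)) -
      ∑ v ∈ sd side s, ((nb G0 v).card : ℝ)| ≤ ((U ∩ sd side s).card : ℝ) := by
    intro s
    rw [← sum_sub_distrib]
    have e1 : ∑ v ∈ sd side s, (((nb G v).card : ℝ) - ((nb G0 v).card : ℝ)) =
        ∑ v ∈ U ∩ sd side s, (((nb G v).card : ℝ) - ((nb G0 v).card : ℝ)) := by
      symm
      refine sum_subset inter_subset_right fun v hv hv' => ?_
      have : v ∉ U := fun h => hv' (mem_inter.2 ⟨h, hv⟩)
      rw [hnb v this, sub_self]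
    rw [e1]
    calc _ ≤ ∑ v ∈ U ∩ sd side s, |((nb G v).card : ℝ) - ((nb G0 v).card : ℝ)| :=
          abs_sum_le_sum_abs _ _
      _ ≤ ∑ _v ∈ U ∩ sd side s, (1 : ℝ) := by
          refine sum_le_sum fun v _ => ?_
          have a1 : ((nb G0 v).card : ℝ) ≤ (nb G v).card := by exact_mod_cast hcard0 v
          have a2 : ((nb G v).card : ℝ) ≤ (nb G0 v).card + 1 := by exact_mod_cast hG1 v
          rw [abs_le]
          constructor <;> linarith
      _ = ((U ∩ sd side s).card : ℝ) := by rw [sum_const, nsmul_eq_mul, mul_one]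
  have hUs : ((U ∩ sd side true).card : ℝ) + ((U ∩ sd side false).card : ℝ) ≤ U.card := by
    have : (U ∩ sd side true).card + (U ∩ sd side false).card ≤ U.card := by
      rw [← card_union_of_disjoint]
      · exact card_le_card (union_subset inter_subset_left inter_subset_left)
      · rw [Finset.disjoint_left]
        intro v hv hv'
        have a1 := (mem_filter.1 (mem_inter.1 hv).2).2
        have a2 := (mem_filter.1 (mem_inter.1 hv').2).2
        rw [a1] at a2
        exact absurd a2 (by decide)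
    exact_mod_cast this
  have hds : |(∑ v ∈ sd side true, ((nb G0 v).card : ℝ)) - (∑ v ∈ sd side false,
      ((nb G0 v).card : ℝ)) - (p : ℝ) * d| ≤ de * d + U.card := by
    have a1 := abs_le.1 (hsum1 true)
    have a2 := abs_le.1 (hsum1 false)
    have a3 := abs_le.1 hdegsum
    have e1 : de / 1000 * (d : ℝ) = de * d / 1000 := by ring
    rw [e1] at a3
    rw [abs_le]
    constructor <;> linarith [a1.1, a1.2, a2.1, a2.2, a3.1, a3.2]
  -- sizes of the cells
  have hcs : ∀ s a, |((univ.filter (fun v => side v = s ∧ cell v = a)).card : ℝ) -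
      (Fintype.card V : ℝ) / 20| ≤ 2 * de * Fintype.card V := by
    intro s a
    set C : Finset V := univ.filter (fun v => side v = s ∧ cell v = a) with hCdef
    have a1 := sum_cells G side cell s a
    have a2 : ∑ v : V, (((nb G v).filter (fun w => side w = s ∧ cell w = a)).card : ℝ) ≤
        ∑ _v : V, ((d : ℝ) / 20 + de * d / 10) := by
      refine sum_le_sum fun v _ => ?_
      have := (abs_le.1 (hcellG v s a)).2
      linarith
    have a3 : ∑ _v : V, ((d : ℝ) / 20 - de * d / 10) ≤
        ∑ v : V, (((nb G v).filter (fun w => side w = s ∧ cell w = a)).card : ℝ) := by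
      refine sum_le_sum fun v _ => ?_
      have := (abs_le.1 (hcellG v s a)).1
      linarith
    have a4 : ∑ w ∈ C, ((nb G w).card : ℝ) ≤ ∑ _w ∈ C, (d : ℝ) :=
      sum_le_sum fun w _ => by exact_mod_cast (hdeg w).1
    have a5 : ∑ _w ∈ C, ((1 - ε) * (d : ℝ)) ≤ ∑ w ∈ C, ((nb G w).card : ℝ) :=
      sum_le_sum fun w _ => hdegε w
    rw [sum_const, card_univ, nsmul_eq_mul] at a2 a3
    rw [sum_const, nsmul_eq_mul] at a4 a5
    rw [a1] at a2 a3
    have a6 : (Fintype.card V : ℝ) * ((d : ℝ) / 20 - de * d / 10) ≤ C.card * d := a3.trans a4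
    have a7 : (C.card : ℝ) * ((1 - ε) * d) ≤ Fintype.card V * ((d : ℝ) / 20 + de * d / 10) :=
      a5.trans a2
    have a8 : (Fintype.card V : ℝ) * (1 / 20 - de / 10) ≤ C.card := by
      have : (Fintype.card V : ℝ) * (1 / 20 - de / 10) * d ≤ C.card * d := by
        refine le_trans (le_of_eq ?_) a6
        ring
      exact le_of_mul_le_mul_right this D0
    have a9 : (C.card : ℝ) * (1 - ε) ≤ Fintype.card V * (1 / 20 + de / 10) := by
      have : (C.card : ℝ) * (1 - ε) * d ≤ Fintype.card V * (1 / 20 + de / 10) * d := by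
        refine le_trans (le_of_eq ?_) (a7.trans (le_of_eq ?_)) <;> ring
      exact le_of_mul_le_mul_right this D0
    have hn0 : (0 : ℝ) ≤ Fintype.card V := Nat.cast_nonneg _
    have hCn : (C.card : ℝ) ≤ Fintype.card V := by exact_mod_cast card_le_univ C
    have a10 : (C.card : ℝ) * ε ≤ Fintype.card V * de :=
      mul_le_mul hCn l4 lpos.le hn0
    have hnde : 0 ≤ (Fintype.card V : ℝ) * de := by positivity
    rw [abs_le]
    constructor
    · linarith
    · linarith
  have hep : de ≤ ep := by unfold de ep; norm_num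
  have hind : ∀ S : Finset V, (∀ v ∈ S, ∀ w ∈ S, ¬ G0.Adj v w) →
      (S.card : ℝ) ≤ th / 4 * Fintype.card V := by
    refine h3 G0 d (by omega) (fun v => le_trans ?_ (hlow0 v))
      (mix_mono hG0 (by linarith) hmix)
    have a1 : (2 : ℝ) / ε3 < d := lt_of_lt_of_le hn3 (by exact_mod_cast d3)
    have a2 : 2 < ε3 * d := by
      rw [div_lt_iff₀ hε3] at a1
      linarith
    have a3 : ε * d ≤ ε3 / 2 * d := mul_le_mul_of_nonneg_right l3 D0.le
    linarith
  exact ⟨{
    q := q, side := side, cell := cell, sub := sub, p := p, χ := χ, g := g, gi := gi, gj := gj,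
    Ga := Ga, Pe := Pe, ty := ty, dbig := d4, n3 := hn, kd := hk, disj := c1, Gaq := c2,
    qlo := fun D hD => by
      have : D ≤ Dm := Nat.le_floor hD
      omega
    qhi := hqhi
    Pem := fun τ => by rw [c3 τ]; exact hm1
    Pecard := by
      rw [c4, Nat.cast_mul, Nat.cast_pow]
      exact_mod_cast hm3
    chid := by
      refine hχ.trans (le_of_eq ?_)
      ring
    glt := hg
    gadj := fun v w h => hgG v w (hG0 h)
    F2 := hF2, F0 := hF0, UU := hUU, U2 := hU2, Ucard := hUcard
    deg := fun v => (hcard0 v).trans (hdeg v).1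
    degU := hdU, cellU := hcell0, subU := hsub0, p1 := hp1, sides := hsides, degsum := hds,
    cellsz := hcs, mix := mix_mono hG0 (l4.trans hep) hmix, ind := hind }⟩

end Pool.Agent.Work.MP_db9399_qr
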