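import Pool.Agent.Work.MP_db9399_qr.Interface

/-!
# Block DROP
-/

set_option autoImplicit false

namespace Pool.Agent.Work.MP_db9399_qr

open Finset Classical
open Pool.Agent.Work.MP_db9399_all (nb)

universe u

namespace DROPAux

/-- closed sets under a fixed point free involution have even cardinality -/
theorem even_closed {V : Type u} (m : V → V) (A : Finset V) (h1 : ∀ v ∈ A, m v ∈ A)
    (h2 : ∀ v ∈ A, m (m v) = v) (h3 : ∀ v ∈ A, m v ≠ v) : ∃ j, A.card = 2 * j := by
  induction A using Finset.strongInduction with
  | H A ih =>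
    rcases A.eq_empty_or_nonempty with rfl | ⟨v, hv⟩
    · exact ⟨0, by simp⟩
    · have hmv := h1 v hv
      set A' := (A.erase v).erase (m v) with hA'
      have hne : m v ≠ v := h3 v hv
      have hm1 : m v ∈ A.erase v := mem_erase.2 ⟨hne, hmv⟩
      have hsub : A' ⊂ A := by
        refine ⟨(erase_subset _ _).trans (erase_subset _ _), fun h => ?_⟩
        have := h hv
        rw [hA', mem_erase, mem_erase] at this
        exact this.2.1 rfl
      have hcl : ∀ w ∈ A', m w ∈ A' := by
        intro w hw
        rw [hA', mem_erase, mem_erase] at hw ⊢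
        refine ⟨fun h => ?_, fun h => ?_, h1 w hw.2.2⟩
        · apply hw.2.1
          have := h2 w hw.2.2
          rw [h, h2 v hv] at this
          exact this.symm
        · apply hw.1
          have := h2 w hw.2.2
          rw [h] at this
          exact this.symm
      obtain ⟨j, hj⟩ := ih A' hsub hcl (fun w hw => h2 w (hsub.1 hw)) (fun w hw => h3 w (hsub.1 hw))
      have hc1 := card_erase_of_mem hv
      have hc2 := card_erase_of_mem hm1
      have hc3 : 0 < (A.erase v).card := card_pos.2 ⟨_, hm1⟩
      refine ⟨j + 1, ?_⟩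
      rw [← hA'] at hc2
      omega

/-- extending a closed set to a closed set of given even size -/
theorem extend_closed {V : Type u} (m : V → V) (S : Finset V) (h1 : ∀ v ∈ S, m v ∈ S)
    (h2 : ∀ v ∈ S, m (m v) = v) (h3 : ∀ v ∈ S, m v ≠ v) (k : ℕ) (hk : 2 * k ≤ S.card) :
    ∀ (n : ℕ) (A : Finset V), A ⊆ S → (∀ v ∈ A, m v ∈ A) → A.card ≤ 2 * k →
      S.card - A.card ≤ n → ∃ A' : Finset V, A ⊆ A' ∧ A' ⊆ S ∧ (∀ v ∈ A', m v ∈ A') ∧
        A'.card = 2 * k := by
  intro n
  induction n with
  | zero =>
    intro A hAS hcl hA hn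
    have := card_le_card hAS
    exact ⟨A, Subset.rfl, hAS, hcl, by omega⟩
  | succ n ih =>
    intro A hAS hcl hA hn
    by_cases hAk : A.card = 2 * k
    · exact ⟨A, Subset.rfl, hAS, hcl, hAk⟩
    · obtain ⟨j, hj⟩ := even_closed m A hcl (fun v hv => h2 v (hAS hv)) (fun v hv => h3 v (hAS hv))
      have hlt : A.card < S.card := by omega
      obtain ⟨v, hvS, hvA⟩ := exists_mem_notMem_of_card_lt_card hlt
      have hmS := h1 v hvS
      have hmA : m v ∉ A := fun h => hvA (by have := hcl _ h; rwa [h2 v hvS] at this)
      have hne := h3 v hvS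
      have hc : (insert v (insert (m v) A)).card = A.card + 2 := by
        rw [card_insert_of_notMem, card_insert_of_notMem hmA]
        rw [mem_insert, not_or]
        exact ⟨Ne.symm hne, hvA⟩
      obtain ⟨A', ha, hb, hc', hd⟩ := ih (insert v (insert (m v) A)) (by
          intro w hw
          rw [mem_insert, mem_insert] at hw
          rcases hw with rfl | rfl | hw
          · exact hvS
          · exact hmS
          · exact hAS hw) (by
          intro w hw
          rw [mem_insert, mem_insert] at hw ⊢
          rcases hw with rfl | rfl | hw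
          · exact Or.inr (Or.inl rfl)
          · exact Or.inl (h2 v hvS)
          · exact Or.inr (Or.inr (hcl w hw))) (by omega) (by omega)
      exact ⟨A', fun w hw => ha (mem_insert_of_mem (mem_insert_of_mem hw)), hb, hc', hd⟩

/-- the matching partner -/
theorem exists_partner {V : Type u} [Fintype V] (R : SimpleGraph V) {C : Type} (t : V → V → C)
    (hp : PEC R t) (b : C) : ∃ m : V → V, (∀ v ∈ cov R t b, R.Adj v (m v) ∧ t v (m v) = b) ∧
      (∀ v ∈ cov R t b, m v ∈ cov R t b) ∧ (∀ v ∈ cov R t b, m (m v) = v) ∧
      (∀ v ∈ cov R t b, m v ≠ v) ∧ ∀ v w, R.Adj v w → t v w = b → m v = w := by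
  have hch : ∀ v, ∃ w, v ∈ cov R t b → R.Adj v w ∧ t v w = b := by
    intro v
    by_cases hv : v ∈ cov R t b
    · obtain ⟨w, hw⟩ := (mem_filter.1 hv).2
      exact ⟨w, fun _ => hw⟩
    · exact ⟨v, fun h => absurd h hv⟩
  choose m hm using hch
  have huniq : ∀ v w, R.Adj v w → t v w = b → m v = w := by
    intro v w hvw hb
    have hv : v ∈ cov R t b := mem_filter.2 ⟨mem_univ _, w, hvw, hb⟩
    have h1 := hm v hv
    have hin : m v ∈ (nb R v : Set V) := by simp [nb, h1.1]
    have hin' : w ∈ (nb R v : Set V) := by simp [nb, hvw]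
    exact hp.2 v hin hin' (h1.2.trans hb.symm)
  have hsym : ∀ v ∈ cov R t b, R.Adj (m v) v ∧ t (m v) v = b := fun v hv =>
    ⟨(hm v hv).1.symm, by rw [hp.1]; exact (hm v hv).2⟩
  refine ⟨m, hm, fun v hv => ?_, fun v hv => ?_, fun v hv => ?_, huniq⟩
  · exact mem_filter.2 ⟨mem_univ _, v, hsym v hv⟩
  · exact huniq _ _ (hsym v hv).1 (hsym v hv).2
  · exact (hm v hv).1.ne'

/-- number of dropped edges at `v` -/
noncomputable def dr {V : Type u} [Fintype V] (R : SimpleGraph V) {C : Type} (t : V → V → C)
    (B : Finset C) (K : SimpleGraph V) (v : V) : ℕ :=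
  ((nb R v).filter (fun w => t v w ∈ B ∧ ¬ K.Adj v w)).card

end DROPAux

open DROPAux

theorem stmt_DROP : Stmt_DROP.{u} := by
  intro V _ R C t B sz cap hp hB hcap
  have key : ∀ S : Finset C, S ⊆ B → ∃ K : SimpleGraph V, K ≤ R ∧
      (∀ b ∈ S, (cov K t b).card = 2 * sz b) ∧
      (∀ b, b ∉ S → ∀ v w, R.Adj v w → t v w = b → K.Adj v w) ∧
      (∀ v, dr R t S K v ≤ cap) ∧
      (∑ v, dr R t S K v) ≤ ∑ b' ∈ S, ((cov R t b').card - 2 * sz b') := by
    intro S
    induction S using Finset.induction_on with
    | empty =>
      intro _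
      refine ⟨R, le_rfl, by simp, fun _ _ _ _ h _ => h, fun v => ?_, ?_⟩
      · simp [dr]
      · simp [dr]
    | insert b S hb ih =>
      intro hSB
      have hbB : b ∈ B := hSB (mem_insert_self _ _)
      have hS : S ⊆ B := (subset_insert _ _).trans hSB
      obtain ⟨K, hKR, hKS, hKn, hKd, hKs⟩ := ih hS
      obtain ⟨m, hm1, hm2, hm3, hm4, hm5⟩ := exists_partner R t hp b
      have hcovb : cov K t b = cov R t b := by
        ext v
        constructor
        · intro hv
          obtain ⟨w, hw, hb'⟩ := (mem_filter.1 hv).2
          exact mem_filter.2 ⟨mem_univ _, w, hKR hw, hb'⟩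
        · intro hv
          obtain ⟨w, hw, hb'⟩ := (mem_filter.1 hv).2
          exact mem_filter.2 ⟨mem_univ _, w, hKn b hb v w hw hb', hb'⟩
      -- the sum over S
      have hsumS : (∑ b' ∈ S, ((cov R t b').card - 2 * sz b')) + ((cov R t b).card - 2 * sz b) ≤
          cap * sz b := by
        have h1 : (∑ b' ∈ S, ((cov R t b').card - 2 * sz b')) + ((cov R t b).card - 2 * sz b)
            = ∑ b' ∈ insert b S, ((cov R t b').card - 2 * sz b') := by
          rw [sum_insert hb, add_comm]
        rw [h1]
        exact (sum_le_sum_of_subset hSB).trans (hcap b hbB)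
      -- the saturated vertices
      set sat : Finset V := (cov R t b).filter (fun v => dr R t S K v = cap) with hsat
      obtain ⟨A0, hA0S, hA0c, hA0s, hA0k⟩ : ∃ A0 : Finset V, A0 ⊆ cov R t b ∧
          (∀ v ∈ A0, m v ∈ A0) ∧ sat ⊆ A0 ∧ A0.card ≤ 2 * sz b := by
        rcases Nat.eq_zero_or_pos cap with h0 | hpos
        · refine ⟨cov R t b, Subset.rfl, hm2, filter_subset _ _, ?_⟩
          rw [h0, Nat.zero_mul] at hsumS
          have := hB b hbB
          omega
        · refine ⟨sat ∪ sat.image m, ?_, ?_, subset_union_left, ?_⟩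
          · intro v hv
            rw [mem_union, mem_image] at hv
            rcases hv with hv | ⟨w, hw, rfl⟩
            · exact filter_subset _ _ hv
            · exact hm2 w (filter_subset _ _ hw)
          · intro v hv
            rw [mem_union, mem_image] at hv
            rw [mem_union, mem_image]
            rcases hv with hv | ⟨w, hw, rfl⟩
            · exact Or.inr ⟨v, hv, rfl⟩
            · left
              rw [hm3 w (filter_subset _ _ hw)]
              exact hw
          · have h1 : sat.card * cap ≤ ∑ v, dr R t S K v := by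
              calc sat.card * cap = ∑ v ∈ sat, dr R t S K v := by
                    rw [← smul_eq_mul, ← sum_const]
                    exact sum_congr rfl fun v hv => (mem_filter.1 hv).2.symm
                _ ≤ _ := sum_le_sum_of_subset (subset_univ _)
            have h2 : sat.card * cap ≤ sz b * cap := by
              rw [mul_comm (sz b)]
              omega
            have h3 : sat.card ≤ sz b := Nat.le_of_mul_le_mul_right h2 hpos
            have h4 : (sat.image m).card ≤ sat.card := card_image_le
            have h5 := card_union_le sat (sat.image m)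
            omega
      obtain ⟨A, hA0A, hAS, hAc, hAk⟩ := extend_closed m (cov R t b) hm2 hm3 hm4 (sz b)
        (hB b hbB) _ A0 hA0S hA0c hA0k le_rfl
      -- the new graph
      have hAsym : ∀ v w, R.Adj v w → t v w = b → v ∈ A → w ∈ A := by
        intro v w hvw htb hv
        have := hAc v hv
        rwa [hm5 v w hvw htb] at this
      obtain ⟨K', hK'⟩ : ∃ K' : SimpleGraph V, ∀ v w, K'.Adj v w ↔
          (K.Adj v w ∧ (t v w = b → v ∈ A)) :=
        ⟨{ Adj := fun v w => K.Adj v w ∧ (t v w = b → v ∈ A)
           symm := ⟨fun v w h => ⟨h.1.symm, fun hb' => by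
            rw [hp.1] at hb'
            exact hAsym v w (hKR h.1) hb' (h.2 hb')⟩⟩
           loopless := ⟨fun v h => K.loopless.irrefl _ h.1⟩ }, fun v w => Iff.rfl⟩
      have hK'K : K' ≤ K := fun v w h => ((hK' v w).1 h).1
      have hcov' : ∀ b', b' ≠ b → cov K' t b' = cov K t b' := by
        intro b' hne
        ext v
        constructor
        · intro hv
          obtain ⟨w, hw, hb'⟩ := (mem_filter.1 hv).2
          exact mem_filter.2 ⟨mem_univ _, w, hK'K hw, hb'⟩
        · intro hv
          obtain ⟨w, hw, hb'⟩ := (mem_filter.1 hv).2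
          exact mem_filter.2 ⟨mem_univ _, w,
            (hK' v w).2 ⟨hw, fun h => absurd (hb'.symm.trans h) hne⟩, hb'⟩
      have hcovA : cov K' t b = A := by
        ext v
        constructor
        · intro hv
          obtain ⟨w, hw, hb'⟩ := (mem_filter.1 hv).2
          exact ((hK' v w).1 hw).2 hb'
        · intro hv
          have hvc := hAS hv
          have h1 := hm1 v hvc
          exact mem_filter.2 ⟨mem_univ _, m v,
            (hK' v (m v)).2 ⟨hKn b hb v (m v) h1.1 h1.2, fun _ => hv⟩, h1.2⟩
      have hdr : ∀ v, dr R t (insert b S) K' v ≤ dr R t S K v +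
          (if v ∈ cov R t b \ A then 1 else 0) := by
        intro v
        have hsub : (nb R v).filter (fun w => t v w ∈ insert b S ∧ ¬ K'.Adj v w) ⊆
            (nb R v).filter (fun w => t v w ∈ S ∧ ¬ K.Adj v w) ∪
              (if v ∈ cov R t b \ A then {m v} else ∅) := by
          intro w hw
          rw [mem_filter, mem_insert] at hw
          obtain ⟨hwn, hwt, hwK⟩ := hw
          have hadj : R.Adj v w := by simpa [nb] using hwn
          rw [mem_union]
          by_cases htb : t v w = b
          · right
            have hKa : K.Adj v w := hKn b hb v w hadj htb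
            have hvA : v ∉ A := fun h => hwK ((hK' v w).2 ⟨hKa, fun _ => h⟩)
            have hvc : v ∈ cov R t b := mem_filter.2 ⟨mem_univ _, w, hadj, htb⟩
            rw [if_pos (mem_sdiff.2 ⟨hvc, hvA⟩), mem_singleton]
            exact (hm5 v w hadj htb).symm
          · left
            rw [mem_filter]
            exact ⟨hwn, hwt.resolve_left htb,
              fun h => hwK ((hK' v w).2 ⟨h, fun h' => absurd h' htb⟩)⟩
        have h1 := card_le_card hsub
        have h2 := card_union_le ((nb R v).filter (fun w => t v w ∈ S ∧ ¬ K.Adj v w))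
          (if v ∈ cov R t b \ A then {m v} else ∅)
        have h3 : (if v ∈ cov R t b \ A then ({m v} : Finset V) else ∅).card =
            if v ∈ cov R t b \ A then 1 else 0 := by
          split_ifs <;> simp
        rw [h3] at h2
        unfold dr
        exact h1.trans h2
      refine ⟨K', hK'K.trans hKR, ?_, ?_, ?_, ?_⟩
      · intro b' hb'
        rcases eq_or_ne b' b with rfl | hne
        · rw [hcovA, hAk]
        · rw [hcov' b' hne]
          exact hKS b' ((mem_insert.1 hb').resolve_left hne)
      · intro b' hb' v w hvw htb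
        rw [mem_insert, not_or] at hb'
        exact (hK' v w).2 ⟨hKn b' hb'.2 v w hvw htb, fun h => absurd (htb.symm.trans h) hb'.1⟩
      · intro v
        refine (hdr v).trans ?_
        split_ifs with hv
        · have h1 := hKd v
          have h2 : dr R t S K v ≠ cap := by
            intro h
            rw [mem_sdiff] at hv
            exact hv.2 (hA0A (hA0s (mem_filter.2 ⟨hv.1, h⟩)))
          omega
        · exact hKd v
      · calc (∑ v, dr R t (insert b S) K' v)
            ≤ ∑ v, (dr R t S K v + (if v ∈ cov R t b \ A then 1 else 0)) :=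
              sum_le_sum fun v _ => hdr v
          _ = (∑ v, dr R t S K v) + (cov R t b \ A).card := by
              rw [sum_add_distrib]
              congr 1
              rw [← sum_filter, sum_const, smul_eq_mul, mul_one]
              congr 1
              ext v
              simp
          _ ≤ ∑ b' ∈ insert b S, ((cov R t b').card - 2 * sz b') := by
              rw [sum_insert hb, card_sdiff_of_subset hAS, hAk, add_comm]
              exact Nat.add_le_add_left hKs _
  obtain ⟨K, h1, h2, _, h4, _⟩ := key B Subset.rfl
  exact ⟨K, h1, h2, h4⟩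

end Pool.Agent.Work.MP_db9399_qr
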