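import Pool.Agent.Work.MP_db9399_qr.Interface

/-!
# Block IND (helper6): independent sets are small
-/

set_option autoImplicit false

namespace Pool.Agent.Work.MP_db9399_qr

open Finset Classical
open Pool.Agent.Work.MP_db9399_all (nb)

universe u

theorem stmt_IND : Stmt_IND.{u} := by
  intro c hc
  refine ⟨c ^ 2 / 2, by positivity, ?_⟩
  intro V _ G d hd hdeg hmix S hS
  set n : ℝ := (Fintype.card V : ℝ) with hn
  have hn0 : 0 ≤ n := Nat.cast_nonneg _
  have hd' : (0 : ℝ) < d := by exact_mod_cast hd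
  rcases S.eq_empty_or_nonempty with h0 | h0
  · rw [h0, Finset.card_empty, Nat.cast_zero]
    positivity
  have hSn : (S.card : ℝ) ≤ n := by
    rw [hn]
    exact_mod_cast Finset.card_le_univ S
  have hS1 : (1 : ℝ) ≤ S.card := by exact_mod_cast h0.card_pos
  have hn1 : 0 < n := by linarith
  have h1 : (1 - c ^ 2 / 2) * d * S.card ≤ ∑ a ∈ S, ((nb G a ∩ Sᶜ).card : ℝ) := by
    have h2 : ∀ a ∈ S, (1 - c ^ 2 / 2) * d ≤ ((nb G a ∩ Sᶜ).card : ℝ) := by
      intro a ha
      have h3 : nb G a ∩ Sᶜ = nb G a := by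
        rw [Finset.inter_eq_left]
        intro w hw
        rw [Finset.mem_compl]
        intro hwS
        exact hS a ha w hwS (by simpa [nb] using hw)
      rw [h3]
      exact hdeg a
    calc (1 - c ^ 2 / 2) * d * S.card = ∑ _a ∈ S, (1 - c ^ 2 / 2) * d := by
          rw [Finset.sum_const, nsmul_eq_mul]
          ring
      _ ≤ _ := Finset.sum_le_sum h2
  have h4 := hmix S Sᶜ
  have h5 : ((Sᶜ).card : ℝ) = n - S.card := by
    rw [Finset.card_compl, Nat.cast_sub (Finset.card_le_univ S)]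
  have h6 : max (S.card : ℝ) ((Sᶜ).card : ℝ) ≤ n := by
    rw [h5]
    exact max_le hSn (by linarith)
  have h7 : (d : ℝ) / n * S.card * (Sᶜ).card = d * (S.card - S.card ^ 2 / n) := by
    rw [h5]
    field_simp
  have h8 : (1 - c ^ 2 / 2) * d * S.card ≤ d * (S.card - S.card ^ 2 / n) + c ^ 2 / 2 * d * n := by
    rw [← h7]
    refine h1.trans (h4.trans ?_)
    have : c ^ 2 / 2 * d * max (S.card : ℝ) ((Sᶜ).card : ℝ) ≤ c ^ 2 / 2 * d * n :=
      mul_le_mul_of_nonneg_left h6 (by positivity)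
    rw [← hn]
    linarith
  have h9 : (S.card : ℝ) ^ 2 / n ≤ c ^ 2 * n := by
    have h10 : d * ((S.card : ℝ) ^ 2 / n) ≤ d * (c ^ 2 * n) := by
      have : c ^ 2 / 2 * d * S.card ≤ c ^ 2 / 2 * d * n :=
        mul_le_mul_of_nonneg_left hSn (by positivity)
      nlinarith
    exact le_of_mul_le_mul_left h10 hd'
  rw [div_le_iff₀ hn1] at h9
  have h11 : (S.card : ℝ) ^ 2 ≤ (c * n) ^ 2 := by
    nlinarith
  exact le_of_sq_le_sq h11 (by positivity)

end Pool.Agent.Work.MP_db9399_qr
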