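import Mathlib
import Pool.Agent.Work.MP_db9399_qr.Interface

/-! Block INS, part A: the first colouring of the inside edges. -/

set_option autoImplicit false

namespace Pool.Agent.Work.MP_db9399_qr.INSAux

open Finset Classical
open Pool.Agent.Work.MP_db9399_all (nb)
open _root_.MP_db9399_co

universe u

section A

variable {V : Type u} [Fintype V]

theorem mem_nb {G : SimpleGraph V} {v w : V} : w ∈ nb G v ↔ G.Adj v w := by simp [nb]

theorem mem_cov {C : Type} {R : SimpleGraph V} {t : V → V → C} {b : C} {v : V} :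
    v ∈ cov R t b ↔ ∃ w, R.Adj v w ∧ t v w = b := by simp [cov]

theorem mem_sd {side : V → Bool} {s : Bool} {v : V} : v ∈ sd side s ↔ side v = s := by simp [sd]

/-- the inside edges on one side -/
def rs (R : SimpleGraph V) (side : V → Bool) (s : Bool) : SimpleGraph V where
  Adj v w := R.Adj v w ∧ side v = s ∧ side w = s
  symm := ⟨fun _ _ h => ⟨h.1.symm, h.2.2, h.2.1⟩⟩
  loopless := ⟨fun _ h => R.loopless.irrefl _ h.1⟩

variable {k d : ℕ} {G : SimpleGraph V} {U : Finset V} {F : V → Finset (Fin k)}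

theorem R_adj (X : Ctx k d G U F) {v w : V} :
    X.R.Adj v w ↔ G.Adj v w ∧ X.side v = X.side w := Iff.rfl

/-- the relevant coordinate of the group -/
def gs (X : Ctx k d G U F) (s : Bool) (b : Fin k) : Fin 10 := if s = true then X.gi b else X.gj b

theorem idl_iff (X : Ctx k d G U F) (b : Fin k) (v : V) :
    X.idl b v ↔ gs X (X.side v) b = X.cell v := by
  unfold Ctx.idl gs
  cases X.side v <;> simp

theorem card_gs (X : Ctx k d G U F) (s : Bool) (i : Fin 10) :
    (X.Ga.filter (fun b => gs X s b = i)).card = 10 * X.q := by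
  cases s
  · have h1 : ∀ b, gs X false b = X.gj b := fun b => by simp [gs]
    simp only [h1]
    rw [card_eq_sum_card_fiberwise (f := X.gi) (t := univ) (fun _ _ => by simp)]
    have h2 : ∀ j : Fin 10, ((X.Ga.filter (fun b => X.gj b = i)).filter
        (fun b => X.gi b = j)).card = X.q := by
      intro j
      rw [filter_filter, ← X.Gaq j i]
      congr 1
      ext b
      simp only [mem_filter]
      tauto
    rw [sum_congr rfl (fun j _ => h2 j)]
    simp
  · have h1 : ∀ b, gs X true b = X.gi b := fun b => by simp [gs]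
    simp only [h1]
    rw [card_eq_sum_card_fiberwise (f := X.gj) (t := univ) (fun _ _ => by simp)]
    have h2 : ∀ j : Fin 10, ((X.Ga.filter (fun b => X.gi b = i)).filter
        (fun b => X.gj b = j)).card = X.q := by
      intro j
      rw [filter_filter, ← X.Gaq i j]
    rw [sum_congr rfl (fun j _ => h2 j)]
    simp

theorem card_Ga (X : Ctx k d G U F) : X.Ga.card = 100 * X.q := by
  rw [card_eq_sum_card_fiberwise (f := gs X true) (t := univ) (fun _ _ => by simp)]
  rw [sum_congr rfl (fun j _ => card_gs X true j)]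
  simp
  ring

theorem card_nidl (X : Ctx k d G U F) (v : V) :
    (X.Ga.filter (fun b => ¬ X.idl b v)).card = 90 * X.q := by
  have h1 := card_filter_add_card_filter_not (s := X.Ga) (fun b => X.idl b v)
  rw [card_Ga] at h1
  have h2 : (X.Ga.filter (fun b => X.idl b v)).card = 10 * X.q := by
    rw [← card_gs X (X.side v) (X.cell v)]
    congr 1
    ext b
    simp only [mem_filter, idl_iff]
  omega

/-- upper bound for the degree into a cell -/
noncomputable def DD (d : ℕ) : ℕ := ⌊(1 / 20 + de) * (d : ℝ)⌋₊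

theorem DD_le (d : ℕ) : ((DD d : ℕ) : ℝ) ≤ (1 / 20 + de) * (d : ℝ) :=
  Nat.floor_le (by unfold de; positivity)

theorem cell_le_DD (X : Ctx k d G U F) (v : V) (s : Bool) (a : Fin 10) :
    ((nb G v).filter (fun w => X.side w = s ∧ X.cell w = a)).card ≤ DD d := by
  apply Nat.le_floor
  have := abs_le.1 (X.cellU v s a)
  linarith [this.2]

theorem first (hJ : Stmt_JCOL.{u}) (X : Ctx k d G U F) :
    ∃ t0 : V → V → Fin k, PEC X.R t0 ∧
      ∀ v w, X.R.Adj v w → t0 v w ∈ X.Ga ∧ ¬ X.idl (t0 v w) v := by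
  have key : ∀ s : Bool, ∃ t : V → V → Fin k, PEC (rs X.R X.side s) t ∧
      ∀ v w, (rs X.R X.side s).Adj v w → t v w ∈ X.Ga ∧ gs X s (t v w) ≠ X.cell v := by
    intro s
    obtain ⟨t, h1, h2⟩ := hJ (rs X.R X.side s) X.cell (DD d) (10 * X.q) (Fin k) X.Ga (gs X s)
      (by
        intro v a
        refine (card_le_card ?_).trans (cell_le_DD X v s a)
        intro w hw
        rw [mem_filter, mem_nb] at hw
        rw [mem_filter, mem_nb]
        exact ⟨hw.1.1.1, hw.1.2.2, hw.2⟩)
      (fun i => (card_gs X s i).ge)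
      (by
        have := X.qlo (DD d) (DD_le d)
        omega)
    exact ⟨t, h1, fun v w h => ⟨(h2 v w h).1, (h2 v w h).2.1⟩⟩
  obtain ⟨tx, hx1, hx2⟩ := key true
  obtain ⟨ty, hy1, hy2⟩ := key false
  refine ⟨fun v w => if X.side v = true ∧ X.side w = true then tx v w else ty v w, ⟨?_, ?_⟩, ?_⟩
  · intro v w
    beta_reduce
    by_cases h : X.side v = true ∧ X.side w = true
    · rw [if_pos h, if_pos ⟨h.2, h.1⟩]
      exact hx1.1 v w
    · rw [if_neg h, if_neg (fun h' => h ⟨h'.2, h'.1⟩)]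
      exact hy1.1 v w
  · intro v w hw w' hw' heq
    rw [mem_coe, mem_nb] at hw hw'
    have e1 : X.side v = X.side w := hw.2
    have e2 : X.side v = X.side w' := hw'.2
    by_cases hs : X.side v = true
    · simp only [if_pos (And.intro hs (e1.symm.trans hs)),
        if_pos (And.intro hs (e2.symm.trans hs))] at heq
      refine hx1.2 v ?_ ?_ heq
      · rw [mem_coe, mem_nb]; exact ⟨hw, hs, e1.symm.trans hs⟩
      · rw [mem_coe, mem_nb]; exact ⟨hw', hs, e2.symm.trans hs⟩
    · have hs' : X.side v = false := by simpa using hs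
      simp only [if_neg (fun h : X.side v = true ∧ X.side w = true => hs h.1),
        if_neg (fun h : X.side v = true ∧ X.side w' = true => hs h.1)] at heq
      refine hy1.2 v ?_ ?_ heq
      · rw [mem_coe, mem_nb]; exact ⟨hw, hs', e1.symm.trans hs'⟩
      · rw [mem_coe, mem_nb]; exact ⟨hw', hs', e2.symm.trans hs'⟩
  · intro v w hw
    have e1 : X.side v = X.side w := hw.2
    by_cases hs : X.side v = true
    · simp only [if_pos (And.intro hs (e1.symm.trans hs))]
      have := hx2 v w ⟨hw, hs, e1.symm.trans hs⟩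
      refine ⟨this.1, ?_⟩
      rw [idl_iff, hs]
      exact this.2
    · have hs' : X.side v = false := by simpa using hs
      simp only [if_neg (fun h : X.side v = true ∧ X.side w = true => hs h.1)]
      have := hy2 v w ⟨hw, hs', e1.symm.trans hs'⟩
      refine ⟨this.1, ?_⟩
      rw [idl_iff, hs']
      exact this.2

/-- degrees in the inside graph -/
theorem degR_ge (X : Ctx k d G U F) (v : V) :
    (1 / 2 - 10 * de) * d ≤ ((nb X.R v).card : ℝ) := by
  have h1 : (nb X.R v).card = ∑ a : Fin 10,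
      ((nb G v).filter (fun w => X.side w = X.side v ∧ X.cell w = a)).card := by
    rw [card_eq_sum_card_fiberwise (f := X.cell) (t := univ) (fun _ _ => by simp)]
    apply sum_congr rfl
    intro a _
    congr 1
    ext w
    rw [mem_filter, mem_nb, mem_filter, mem_nb, R_adj]
    constructor
    · rintro ⟨⟨a1, a2⟩, a3⟩; exact ⟨a1, a2.symm, a3⟩
    · rintro ⟨a1, a2, a3⟩; exact ⟨⟨a1, a2.symm⟩, a3⟩
  rw [h1]
  push_cast
  have h2 : ∑ _a : Fin 10, ((d : ℝ) / 20 - de * d) ≤ ∑ a : Fin 10,
      (((nb G v).filter (fun w => X.side w = X.side v ∧ X.cell w = a)).card : ℝ) := by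
    apply sum_le_sum
    intro a _
    have := abs_le.1 (X.cellU v (X.side v) a)
    linarith [this.1]
  rw [sum_const, card_univ, Fintype.card_fin, nsmul_eq_mul] at h2
  push_cast at h2
  linarith

/-- few non idle colours are missing at a vertex -/
theorem miss_le (X : Ctx k d G U F) (t0 : V → V → Fin k) (h1 : PEC X.R t0)
    (h2 : ∀ v w, X.R.Adj v w → t0 v w ∈ X.Ga ∧ ¬ X.idl (t0 v w) v) (v : V) :
    ((X.Ga.filter (fun b => ¬ X.idl b v ∧ v ∉ cov X.R t0 b)).card : ℝ) ≤ 30 * de * d := by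
  have h3 : (nb X.R v).image (t0 v) ⊆ X.Ga.filter (fun b => ¬ X.idl b v) := by
    intro b hb
    obtain ⟨w, hw, rfl⟩ := mem_image.1 hb
    rw [mem_nb] at hw
    exact mem_filter.2 (h2 v w hw)
  have h4 : X.Ga.filter (fun b => ¬ X.idl b v ∧ v ∉ cov X.R t0 b) =
      (X.Ga.filter (fun b => ¬ X.idl b v)) \ (nb X.R v).image (t0 v) := by
    ext b
    rw [mem_sdiff, mem_filter, mem_filter, mem_image, mem_cov]
    constructor
    · rintro ⟨a1, a2, a3⟩
      refine ⟨⟨a1, a2⟩, ?_⟩
      rintro ⟨w, hw, hwb⟩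
      exact a3 ⟨w, mem_nb.1 hw, hwb⟩
    · rintro ⟨⟨a1, a2⟩, a3⟩
      refine ⟨a1, a2, ?_⟩
      rintro ⟨w, hw, hwb⟩
      exact a3 ⟨w, mem_nb.2 hw, hwb⟩
  have h5 := card_le_card h3
  rw [h4, card_sdiff_of_subset h3]
  rw [card_nidl, card_image_of_injOn (h1.2 v)] at h5 ⊢
  rw [Nat.cast_sub h5]
  have h6 := degR_ge X v
  have h7 := X.qhi
  push_cast
  nlinarith

/-- the good colours -/
noncomputable def gd (X : Ctx k d G U F) (t0 : V → V → Fin k) : Finset (Fin k) :=
  X.Ga.filter (fun b => ((univ.filter (fun v => ¬ X.idl b v ∧ v ∉ cov X.R t0 b)).card : ℝ) ≤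
    th * Fintype.card V)

theorem npos (X : Ctx k d G U F) : 0 < Fintype.card V := by
  have := X.dbig
  have := X.n3
  have : (0 : ℕ) < 10 ^ 30 := by positivity
  omega

theorem bad_le (X : Ctx k d G U F) (t0 : V → V → Fin k) (h1 : PEC X.R t0)
    (h2 : ∀ v w, X.R.Adj v w → t0 v w ∈ X.Ga ∧ ¬ X.idl (t0 v w) v) :
    ((X.Ga \ gd X t0).card : ℝ) ≤ 30 * de / th * d := by
  have hn : (0 : ℝ) < Fintype.card V := by exact_mod_cast npos X
  have h3 : ∑ b ∈ X.Ga, ((univ.filter (fun v => ¬ X.idl b v ∧ v ∉ cov X.R t0 b)).card : ℝ) =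
      ∑ v, ((X.Ga.filter (fun b => ¬ X.idl b v ∧ v ∉ cov X.R t0 b)).card : ℝ) := by
    have := sum_card_bipartiteAbove_eq_sum_card_bipartiteBelow (s := X.Ga) (t := (univ : Finset V))
      (fun b v => ¬ X.idl b v ∧ v ∉ cov X.R t0 b)
    unfold bipartiteAbove bipartiteBelow at this
    exact_mod_cast this
  have h4 : ∑ v, ((X.Ga.filter (fun b => ¬ X.idl b v ∧ v ∉ cov X.R t0 b)).card : ℝ) ≤
      Fintype.card V * (30 * de * d) := by
    refine (sum_le_sum (fun v _ => miss_le X t0 h1 h2 v)).trans ?_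
    rw [sum_const, card_univ, nsmul_eq_mul]
  have h5 : ((X.Ga \ gd X t0).card : ℝ) * (th * Fintype.card V) ≤
      ∑ b ∈ X.Ga, ((univ.filter (fun v => ¬ X.idl b v ∧ v ∉ cov X.R t0 b)).card : ℝ) := by
    refine le_trans ?_ (sum_le_sum_of_subset_of_nonneg (sdiff_subset (s := X.Ga) (t := gd X t0))
      (fun _ _ _ => Nat.cast_nonneg _))
    rw [← nsmul_eq_mul, ← sum_const]
    apply sum_le_sum
    intro b hb
    rw [mem_sdiff] at hb
    unfold gd at hb
    rw [mem_filter] at hb
    push Not at hb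
    exact (hb.2 hb.1).le
  rw [h3] at h5
  have h6 := h5.trans h4
  have hth : (0 : ℝ) < th := by unfold th; positivity
  rw [div_mul_eq_mul_div, le_div_iff₀ hth]
  have h7 : ((X.Ga \ gd X t0).card : ℝ) * th * Fintype.card V ≤ 30 * de * d * Fintype.card V := by
    nlinarith
  exact le_of_mul_le_mul_right h7 hn

end A

end Pool.Agent.Work.MP_db9399_qr.INSAux
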