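import Mathlib
import Pool.Agent.Work.MP_db9399_qr.INSA

/-! Block INS, part B: counting lemmas. -/

set_option autoImplicit false

namespace Pool.Agent.Work.MP_db9399_qr.INSAux

open Finset Classical
open Pool.Agent.Work.MP_db9399_all (nb)
open _root_.MP_db9399_co

universe u

section B

variable {V : Type u} [Fintype V] {k d : ℕ} {G : SimpleGraph V} {U : Finset V}
  {F : V → Finset (Fin k)}

/-- number of ordinary vertices of colour `b` on the side `s` -/
noncomputable def sS (side : V → Bool) (U : Finset V) (c : V → Fin k) (s : Bool) (b : Fin k) : ℕ :=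
  (univ.filter (fun v => side v = s ∧ v ∉ U ∧ c v = b)).card

/-- number of vertices of `U` forbidding `b` on the side `s` -/
noncomputable def fS (side : V → Bool) (F : V → Finset (Fin k)) (s : Bool) (b : Fin k) : ℕ :=
  (univ.filter (fun v => side v = s ∧ b ∈ F v)).card

theorem W0_card (R : SimpleGraph V) (side : V → Bool) (c : V → Fin k) (t : V → V → Fin k)
    (hF : ∀ v, v ∉ U → F v = ∅) (h1 : ∀ v w, R.Adj v w → t v w ∉ F v)
    (h2 : ∀ v w, R.Adj v w → t v w ≠ c v) (s : Bool) (b : Fin k) :
    (W0 R U F c t b ∩ sd side s).card + sS side U c s b + fS side F s b +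
      (cov R t b ∩ sd side s).card = (sd side s).card := by
  unfold sS fS
  rw [← card_union_of_disjoint, ← card_union_of_disjoint, ← card_union_of_disjoint]
  · congr 1
    ext v
    simp only [mem_union, mem_inter, mem_filter, mem_univ, true_and, W0, mem_sd]
    constructor
    · tauto
    · intro hv
      by_cases a1 : v ∉ U ∧ c v = b
      · tauto
      · by_cases a2 : b ∈ F v
        · tauto
        · by_cases a3 : v ∈ cov R t b <;> tauto
  · rw [Finset.disjoint_left]
    intro v hv hv'
    simp only [mem_union, mem_inter, mem_filter, mem_univ, true_and, W0, mem_sd] at hv hv'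
    obtain ⟨w, hw, hwb⟩ := mem_cov.1 hv'.1
    rcases hv with (h | h) | h
    · exact h.1.2.2 hv'.1
    · exact h2 v w hw (hwb.trans h.2.2.symm)
    · exact h1 v w hw (hwb ▸ h.2)
  · rw [Finset.disjoint_left]
    intro v hv hv'
    simp only [mem_union, mem_inter, mem_filter, mem_univ, true_and, W0, mem_sd] at hv hv'
    rcases hv with h | h
    · exact h.1.2.1 hv'.2
    · rw [hF v h.2.1] at hv'
      simp at hv'
  · rw [Finset.disjoint_left]
    intro v hv hv'
    simp only [mem_inter, mem_filter, mem_univ, true_and, W0, mem_sd] at hv hv'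
    exact hv.1.1 hv'.2

theorem imb_eq (X : Ctx k d G U F) (R : SimpleGraph V) (c : V → Fin k) (t : V → V → Fin k)
    (h1 : ∀ v w, R.Adj v w → t v w ∉ F v)
    (h2 : ∀ v w, R.Adj v w → t v w ≠ c v) (b : Fin k) :
    imb X.side (W0 R U F c t b) = (X.p : ℤ) - ((sS X.side U c true b : ℤ) - sS X.side U c false b)
      - ((fS X.side F true b : ℤ) - fS X.side F false b) -
      (((cov R t b ∩ sd X.side true).card : ℤ) - ((cov R t b ∩ sd X.side false).card : ℤ)) := by
  have e1 := W0_card (U := U) (F := F) R X.side c t X.F0 h1 h2 true b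
  have e2 := W0_card (U := U) (F := F) R X.side c t X.F0 h1 h2 false b
  have e3 := X.sides
  unfold imb
  omega

theorem sum_sS (X : Ctx k d G U F) (c : V → Fin k) (s : Bool) (B : Finset (Fin k))
    (hc : ∀ v, c v ∈ B) :
    ∑ b ∈ B, sS X.side U c s b = (univ.filter (fun v => X.side v = s ∧ v ∉ U)).card := by
  rw [card_eq_sum_card_fiberwise (f := c) (t := B) (fun v _ => by
    rw [mem_coe]; exact hc v)]
  apply sum_congr rfl
  intro b _
  unfold sS
  rw [filter_filter]
  congr 1
  ext v
  simp only [mem_filter, mem_univ, true_and]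
  tauto

theorem Fcard (X : Ctx k d G U F) (v : V) : (F v).card ≤ 2 := by
  by_cases h : v ∈ U
  · exact X.F2 v h
  · rw [X.F0 v h]; simp

theorem sum_fS_le (X : Ctx k d G U F) (B : Finset (Fin k)) :
    ∑ b ∈ B, (fS X.side F true b + fS X.side F false b) ≤ 2 * U.card := by
  have h1 : ∀ b, fS X.side F true b + fS X.side F false b =
      (U.filter (fun v => b ∈ F v)).card := by
    intro b
    unfold fS
    rw [← card_union_of_disjoint]
    · congr 1
      ext v
      simp only [mem_union, mem_filter, mem_univ, true_and]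
      constructor
      · intro h
        have hb : b ∈ F v := by tauto
        refine ⟨?_, hb⟩
        by_contra hv
        rw [X.F0 v hv] at hb
        simp at hb
      · rintro ⟨_, h⟩
        cases X.side v
        · exact Or.inr ⟨rfl, h⟩
        · exact Or.inl ⟨rfl, h⟩
    · rw [Finset.disjoint_left]
      intro v hv hv'
      simp only [mem_filter, mem_univ, true_and] at hv hv'
      rw [hv.1] at hv'
      exact absurd hv'.1 (by simp)
  rw [sum_congr rfl (fun b _ => h1 b)]
  have h2 := sum_card_bipartiteAbove_eq_sum_card_bipartiteBelow (s := B) (t := U)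
      (fun b v => b ∈ F v)
  unfold bipartiteAbove bipartiteBelow at h2
  rw [h2]
  calc ∑ v ∈ U, (B.filter (fun b => b ∈ F v)).card ≤ ∑ v ∈ U, 2 := by
        apply sum_le_sum
        intro v hv
        refine (card_le_card ?_).trans (X.F2 v hv)
        intro b hb
        exact (mem_filter.1 hb).2
    _ = 2 * U.card := by rw [sum_const, smul_eq_mul, mul_comm]

theorem fS_le (X : Ctx k d G U F) (b : Fin k) :
    fS X.side F true b + fS X.side F false b ≤ 2 * U.card := by
  have := sum_fS_le X {b}
  rwa [sum_singleton] at this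

theorem sd_card (X : Ctx k d G U F) :
    (sd X.side true).card + (sd X.side false).card = Fintype.card V := by
  rw [← card_univ, ← card_union_of_disjoint]
  · congr 1
    ext v
    simp only [mem_union, mem_sd, mem_univ, iff_true]
    cases X.side v <;> simp
  · rw [Finset.disjoint_left]
    intro v hv hv'
    rw [mem_sd] at hv hv'
    rw [hv] at hv'
    simp at hv'

/-- the non idle vertices on one side -/
noncomputable def ni (X : Ctx k d G U F) (s : Bool) (b : Fin k) : Finset V :=
  univ.filter (fun v => X.side v = s ∧ ¬ X.idl b v)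

theorem ni_card (X : Ctx k d G U F) (s : Bool) (b : Fin k) :
    |((ni X s b).card : ℝ) - 9 / 20 * Fintype.card V| ≤ 2 * de * Fintype.card V + 1 / 2 := by
  have h1 : (ni X s b).card + (univ.filter (fun v => X.side v = s ∧ X.cell v = gs X s b)).card =
      (sd X.side s).card := by
    rw [← card_union_of_disjoint]
    · congr 1
      ext v
      simp only [ni, mem_union, mem_filter, mem_univ, true_and, mem_sd, idl_iff]
      constructor
      · rintro (h | h) <;> exact h.1
      · intro h
        rw [h]
        by_cases h2 : gs X s b = X.cell v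
        · exact Or.inr ⟨rfl, h2.symm⟩
        · exact Or.inl ⟨rfl, h2⟩
    · rw [Finset.disjoint_left]
      intro v hv hv'
      simp only [ni, mem_filter, mem_univ, true_and, idl_iff] at hv hv'
      apply hv.2
      rw [hv.1]
      exact hv'.2.symm
  have h2 := X.cellsz s (gs X s b)
  have h3 := sd_card X
  have h4 := X.sides
  have h5 := X.p1
  have h3' : ((sd X.side true).card : ℝ) + (sd X.side false).card = Fintype.card V := by
    exact_mod_cast h3
  have h4' : ((sd X.side true).card : ℝ) = (sd X.side false).card + X.p := by exact_mod_cast h4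
  have h5' : (X.p : ℝ) ≤ 1 := by exact_mod_cast h5
  have h6' : (0 : ℝ) ≤ X.p := Nat.cast_nonneg _
  have h1' : ((ni X s b).card : ℝ) +
      ((univ.filter (fun v => X.side v = s ∧ X.cell v = gs X s b)).card : ℝ) =
      (sd X.side s).card := by exact_mod_cast h1
  rw [abs_le] at h2 ⊢
  cases s
  · constructor <;> linarith [h2.1, h2.2]
  · constructor <;> linarith [h2.1, h2.2]

/-- the graph of the usable inside edges -/
def ru (X : Ctx k d G U F) (t0 : V → V → Fin k) (hs : ∀ v w, t0 v w = t0 w v)
    (Gd : Finset (Fin k)) : SimpleGraph V where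
  Adj v w := X.R.Adj v w ∧ t0 v w ∈ Gd ∧ t0 v w ∉ F v ∧ t0 v w ∉ F w
  symm := ⟨fun v w h => ⟨h.1.symm, by rw [hs w v]; exact h.2.1, by rw [hs w v]; exact h.2.2.2,
    by rw [hs w v]; exact h.2.2.1⟩⟩
  loopless := ⟨fun _ h => X.R.loopless.irrefl _ h.1⟩

theorem cov_sub (X : Ctx k d G U F) (t0 : V → V → Fin k) (h1 : PEC X.R t0)
    (h2 : ∀ v w, X.R.Adj v w → t0 v w ∈ X.Ga ∧ ¬ X.idl (t0 v w) v) (Gd : Finset (Fin k))
    (s : Bool) (b : Fin k) :
    cov (rs (ru X t0 h1.1 Gd) X.side s) t0 b ⊆ ni X s b := by
  intro v hv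
  obtain ⟨w, hw, hwb⟩ := mem_cov.1 hv
  unfold ni
  rw [mem_filter]
  refine ⟨mem_univ _, hw.2.1, ?_⟩
  rw [← hwb]
  exact (h2 v w hw.1.1).2

theorem ni_sub (X : Ctx k d G U F) (t0 : V → V → Fin k) (h1 : PEC X.R t0)
    (h2 : ∀ v w, X.R.Adj v w → t0 v w ∈ X.Ga ∧ ¬ X.idl (t0 v w) v) (Gd : Finset (Fin k))
    (s : Bool) (b : Fin k) (hb : b ∈ Gd) :
    (ni X s b).card ≤ (cov (rs (ru X t0 h1.1 Gd) X.side s) t0 b).card +
      (univ.filter (fun v => ¬ X.idl b v ∧ v ∉ cov X.R t0 b)).card + 2 * U.card := by
  have h3 : ni X s b ⊆ ((cov (rs (ru X t0 h1.1 Gd) X.side s) t0 b) ∪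
      (univ.filter (fun v => ¬ X.idl b v ∧ v ∉ cov X.R t0 b))) ∪
      (U ∪ U.biUnion (fun u => (nb X.R u).filter (fun w => t0 u w = b))) := by
    intro v hv
    unfold ni at hv
    rw [mem_filter] at hv
    obtain ⟨-, hs, hv2⟩ := hv
    rw [mem_union, mem_union, mem_union]
    by_cases hc : v ∈ cov X.R t0 b
    · obtain ⟨w, hw, hwb⟩ := mem_cov.1 hc
      by_cases hF1 : b ∈ F v
      · right; left
        by_contra hU
        rw [X.F0 v hU] at hF1
        simp at hF1
      · by_cases hF2 : b ∈ F w
        · right; right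
          rw [mem_biUnion]
          refine ⟨w, ?_, ?_⟩
          · by_contra hU
            rw [X.F0 w hU] at hF2
            simp at hF2
          · rw [mem_filter, mem_nb]
            exact ⟨hw.symm, by rw [h1.1 w v]; exact hwb⟩
        · left; left
          rw [mem_cov]
          refine ⟨w, ⟨⟨hw, by rw [hwb]; exact hb, by rw [hwb]; exact hF1,
            by rw [hwb]; exact hF2⟩, hs, ?_⟩, hwb⟩
          have : X.side v = X.side w := hw.2
          rw [← this]; exact hs
    · left; right
      rw [mem_filter]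
      exact ⟨mem_univ _, hv2, hc⟩
  have h4 : (U.biUnion (fun u => (nb X.R u).filter (fun w => t0 u w = b))).card ≤ U.card := by
    refine card_biUnion_le.trans ?_
    calc ∑ u ∈ U, ((nb X.R u).filter (fun w => t0 u w = b)).card ≤ ∑ u ∈ U, 1 := by
          apply sum_le_sum
          intro u _
          rw [card_le_one]
          intro x hx y hy
          rw [mem_filter] at hx hy
          exact h1.2 u (by rw [mem_coe]; exact hx.1) (by rw [mem_coe]; exact hy.1)
            (hx.2.trans hy.2.symm)
      _ = U.card := by simp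
  have h5 := card_le_card h3
  have h6 := card_union_le ((cov (rs (ru X t0 h1.1 Gd) X.side s) t0 b) ∪
      (univ.filter (fun v => ¬ X.idl b v ∧ v ∉ cov X.R t0 b)))
      (U ∪ U.biUnion (fun u => (nb X.R u).filter (fun w => t0 u w = b)))
  have h7 := card_union_le (cov (rs (ru X t0 h1.1 Gd) X.side s) t0 b)
      (univ.filter (fun v => ¬ X.idl b v ∧ v ∉ cov X.R t0 b))
  have h8 := card_union_le U (U.biUnion (fun u => (nb X.R u).filter (fun w => t0 u w = b)))
  omega

theorem U_small (X : Ctx k d G U F) : (U.card : ℝ) ≤ 3 / 10 ^ 30 * Fintype.card V := by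
  have h1 := X.Ucard
  have h2 : (10 : ℝ) ^ 30 ≤ d := by exact_mod_cast X.dbig
  have h3 : (0 : ℝ) ≤ U.card := Nat.cast_nonneg _
  have h4 : (U.card : ℝ) * 10 ^ 30 ≤ U.card * d := mul_le_mul_of_nonneg_left h2 h3
  rw [div_mul_eq_mul_div, le_div_iff₀ (by positivity)]
  linarith

theorem n_big (X : Ctx k d G U F) : (3 : ℝ) * 10 ^ 30 ≤ Fintype.card V := by
  have h2 : (10 : ℝ) ^ 30 ≤ d := by exact_mod_cast X.dbig
  have h3 : (3 : ℝ) * d ≤ Fintype.card V := by exact_mod_cast X.n3
  linarith

end B

end Pool.Agent.Work.MP_db9399_qr.INSAux
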