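import Mathlib
import Pool.Agent.Work.MP_db9399_qr.INSB

/-! Block INS, part C: the target sizes. -/

set_option autoImplicit false

namespace Pool.Agent.Work.MP_db9399_qr.INSAux

open Finset Classical
open Pool.Agent.Work.MP_db9399_all (nb)
open _root_.MP_db9399_co

universe u

section C

variable {V : Type u} [Fintype V] {k d : ℕ} {G : SimpleGraph V} {U : Finset V}
  {F : V → Finset (Fin k)}

noncomputable def aa (X : Ctx k d G U F) (c : V → Fin k) (b : Fin k) : ℕ :=
  sS X.side U c true b + sS X.side U c false b + (fS X.side F true b + fS X.side F false b)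

noncomputable def dd (X : Ctx k d G U F) (c : V → Fin k) (b : Fin k) : ℤ :=
  ((sS X.side U c true b : ℤ) - sS X.side U c false b) +
    ((fS X.side F true b : ℤ) - fS X.side F false b)

noncomputable def tb (X : Ctx k d G U F) (c : V → Fin k) (B1 : Finset (Fin k)) (b : Fin k) : ℤ :=
  (- dd X c b) / 2 + if b ∈ B1 then 1 else 0

noncomputable def ss (V : Type u) [Fintype V] : ℕ := ⌊(9 / 40 - th) * (Fintype.card V : ℝ)⌋₊

noncomputable def sz (X : Ctx k d G U F) (c : V → Fin k) (B1 : Finset (Fin k)) (s : Bool)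
    (b : Fin k) : ℕ :=
  ((ss V : ℤ) - if s = true then max (- tb X c B1 b) 0 else max (tb X c B1 b) 0).toNat

theorem tb_le (X : Ctx k d G U F) (c : V → Fin k) (B1 : Finset (Fin k)) (b : Fin k) :
    |tb X c B1 b| ≤ aa X c b + 1 := by
  unfold tb dd aa
  push_cast
  rw [abs_le]
  split_ifs <;> constructor <;> omega

theorem aa_le (X : Ctx k d G U F) (c : V → Fin k) (hc : ∀ v w, G.Adj v w → c v ≠ c w)
    (b : Fin k) : ((aa X c b : ℕ) : ℝ) ≤ th / 2 * Fintype.card V := by
  have h1 : sS X.side U c true b + sS X.side U c false b =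
      (univ.filter (fun v => v ∉ U ∧ c v = b)).card := by
    unfold sS
    rw [← card_union_of_disjoint]
    · congr 1
      ext v
      simp only [mem_union, mem_filter, mem_univ, true_and]
      cases X.side v <;> simp
    · rw [Finset.disjoint_left]
      intro v hv hv'
      simp only [mem_filter, mem_univ, true_and] at hv hv'
      rw [hv.1] at hv'
      exact absurd hv'.1 (by simp)
  have h2 := X.ind (univ.filter (fun v => v ∉ U ∧ c v = b)) (by
    intro v hv w hw hvw
    rw [mem_filter] at hv hw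
    exact hc v w hvw (hv.2.2.trans hw.2.2.symm))
  have h3 := fS_le X b
  have h4 := U_small X
  have h5 : ((aa X c b : ℕ) : ℝ) ≤ ((univ.filter (fun v => v ∉ U ∧ c v = b)).card : ℝ) +
      2 * (U.card : ℝ) := by
    unfold aa
    rw [h1]
    exact_mod_cast Nat.add_le_add_left h3 _
  have h6 := n_big X
  unfold th at h2 ⊢
  linarith

theorem sum_aa (X : Ctx k d G U F) (c : V → Fin k) (B : Finset (Fin k)) (hc : ∀ v, c v ∈ B) :
    ∑ b ∈ B, aa X c b ≤ Fintype.card V + 2 * U.card := by
  unfold aa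
  rw [sum_add_distrib, sum_add_distrib, sum_sS X c true B hc, sum_sS X c false B hc]
  have h1 := sum_fS_le X B
  have h2 : (univ.filter (fun v => X.side v = true ∧ v ∉ U)).card +
      (univ.filter (fun v => X.side v = false ∧ v ∉ U)).card ≤ Fintype.card V := by
    rw [← sd_card X]
    apply Nat.add_le_add <;>
    · apply card_le_card
      intro v hv
      rw [mem_filter] at hv
      rw [mem_sd]
      exact hv.2.1
  omega

theorem sz_sub (X : Ctx k d G U F) (c : V → Fin k) (hc : ∀ v w, G.Adj v w → c v ≠ c w)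
    (B1 : Finset (Fin k)) (b : Fin k) :
    ((sz X c B1 true b : ℤ) - sz X c B1 false b = tb X c B1 b) ∧
    (sz X c B1 true b : ℤ) + sz X c B1 false b = 2 * ss V - |tb X c B1 b| := by
  have h1 := tb_le X c B1 b
  have h2 := aa_le X c hc b
  have h3 := n_big X
  have h4 : (9 / 40 - th) * (Fintype.card V : ℝ) - 1 < ss V := by
    unfold ss
    linarith [Nat.lt_floor_add_one ((9 / 40 - th) * (Fintype.card V : ℝ))]
  have h5 : ((aa X c b : ℕ) : ℝ) + 1 ≤ ss V := by
    unfold th at h2 h4
    linarith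
  have h6 : aa X c b + 1 ≤ ss V := by exact_mod_cast h5
  have h7 := abs_le.1 h1
  unfold sz
  simp only [if_true, Bool.false_eq_true, if_false]
  rw [Int.toNat_of_nonneg, Int.toNat_of_nonneg]
  · constructor
    · rcases le_total 0 (tb X c B1 b) with h | h
      · rw [max_eq_right (by omega), max_eq_left h]; ring
      · rw [max_eq_left (by omega), max_eq_right h]; ring
    · rcases le_total 0 (tb X c B1 b) with h | h
      · rw [max_eq_right (by omega), max_eq_left h, abs_of_nonneg h]; ring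
      · rw [max_eq_left (by omega), max_eq_right h, abs_of_nonpos h]; ring
  · rcases le_total 0 (tb X c B1 b) with h | h
    · rw [max_eq_left h]; omega
    · rw [max_eq_right h]; omega
  · rcases le_total 0 (tb X c B1 b) with h | h
    · rw [max_eq_right (by omega)]; omega
    · rw [max_eq_left (by omega)]; omega

theorem sz_le (X : Ctx k d G U F) (c : V → Fin k) (B1 : Finset (Fin k)) (s : Bool) (b : Fin k) :
    sz X c B1 s b ≤ ss V := by
  unfold sz
  cases s
  · simp only [Bool.false_eq_true, if_false]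
    have := le_max_right (tb X c B1 b) 0
    omega
  · simp only [if_true]
    have := le_max_right (- tb X c B1 b) 0
    omega

theorem sz_ge (X : Ctx k d G U F) (c : V → Fin k) (B1 : Finset (Fin k)) (s : Bool) (b : Fin k) :
    (ss V : ℤ) - (aa X c b + 1) ≤ sz X c B1 s b := by
  have h1 := abs_le.1 (tb_le X c B1 b)
  have h2 : (ss V : ℤ) - (if s = true then max (- tb X c B1 b) 0 else max (tb X c B1 b) 0) ≤
      sz X c B1 s b := Int.self_le_toNat _
  refine le_trans ?_ h2
  split_ifs
  · have : max (- tb X c B1 b) 0 ≤ (aa X c b : ℤ) + 1 := max_le (by omega) (by omega)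
    omega
  · have : max (tb X c B1 b) 0 ≤ (aa X c b : ℤ) + 1 := max_le (by omega) (by omega)
    omega

theorem ss_bounds (X : Ctx k d G U F) :
    (9 / 40 - th) * (Fintype.card V : ℝ) - 1 ≤ ss V ∧
      (ss V : ℝ) ≤ (9 / 40 - th) * (Fintype.card V : ℝ) := by
  constructor
  · unfold ss
    linarith [Nat.lt_floor_add_one ((9 / 40 - th) * (Fintype.card V : ℝ))]
  · unfold ss
    apply Nat.floor_le
    have h3 := n_big X
    unfold th
    nlinarith

theorem drop1 (X : Ctx k d G U F) (t0 : V → V → Fin k) (h1 : PEC X.R t0)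
    (h2 : ∀ v w, X.R.Adj v w → t0 v w ∈ X.Ga ∧ ¬ X.idl (t0 v w) v) (c : V → Fin k)
    (B1 : Finset (Fin k)) (s : Bool) (b : Fin k) (hb : b ∈ gd X t0) :
    2 * sz X c B1 s b ≤ (cov (rs (ru X t0 h1.1 (gd X t0)) X.side s) t0 b).card := by
  have h3 := ni_sub X t0 h1 h2 (gd X t0) s b hb
  have h4 := abs_le.1 (ni_card X s b)
  have h5 := sz_le X c B1 s b
  have h6 := (ss_bounds X).2
  have h7 := U_small X
  have h8 := n_big X
  have h9 : ((univ.filter (fun v => ¬ X.idl b v ∧ v ∉ cov X.R t0 b)).card : ℝ) ≤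
      th * Fintype.card V := by
    unfold gd at hb
    exact (mem_filter.1 hb).2
  have h3' : ((ni X s b).card : ℝ) ≤
      ((cov (rs (ru X t0 h1.1 (gd X t0)) X.side s) t0 b).card : ℝ) +
      ((univ.filter (fun v => ¬ X.idl b v ∧ v ∉ cov X.R t0 b)).card : ℝ) + 2 * U.card := by
    exact_mod_cast h3
  have h5' : (sz X c B1 s b : ℝ) ≤ ss V := by exact_mod_cast h5
  have : (2 * (sz X c B1 s b : ℝ)) ≤
      ((cov (rs (ru X t0 h1.1 (gd X t0)) X.side s) t0 b).card : ℝ) := by
    unfold th at h6 h9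
    unfold de at h4
    linarith [h4.1]
  exact_mod_cast this

theorem drop2 (X : Ctx k d G U F) (t0 : V → V → Fin k) (h1 : PEC X.R t0)
    (h2 : ∀ v w, X.R.Adj v w → t0 v w ∈ X.Ga ∧ ¬ X.idl (t0 v w) v) (c : V → Fin k)
    (hc : ∀ v w, G.Adj v w → c v ≠ c w) (hcG : ∀ v, c v ∈ gd X t0)
    (B1 : Finset (Fin k)) (s : Bool) (b : Fin k) :
    ∑ b' ∈ gd X t0, ((cov (rs (ru X t0 h1.1 (gd X t0)) X.side s) t0 b').card -
      2 * sz X c B1 s b') ≤ ⌊20 * th * (d : ℝ)⌋₊ * sz X c B1 s b := by
  have hn := n_big X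
  have hd : (10 : ℝ) ^ 30 ≤ d := by exact_mod_cast X.dbig
  have hU := U_small X
  have hss := ss_bounds X
  -- each term
  have e1 : ∀ b' ∈ gd X t0, (((cov (rs (ru X t0 h1.1 (gd X t0)) X.side s) t0 b').card -
      2 * sz X c B1 s b' : ℕ) : ℝ) ≤ 21 / 10 * th * Fintype.card V + 2 * (aa X c b' : ℝ) := by
    intro b' hb'
    rw [Nat.cast_sub (drop1 X t0 h1 h2 c B1 s b' hb')]
    have a1 : (((cov (rs (ru X t0 h1.1 (gd X t0)) X.side s) t0 b').card : ℕ) : ℝ) ≤
        (ni X s b').card := by exact_mod_cast card_le_card (cov_sub X t0 h1 h2 (gd X t0) s b')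
    have a2 := abs_le.1 (ni_card X s b')
    have a3 : ((ss V : ℝ)) - ((aa X c b' : ℝ) + 1) ≤ sz X c B1 s b' := by
      exact_mod_cast sz_ge X c B1 s b'
    push_cast
    unfold th at hss ⊢
    unfold de at a2
    linarith [a2.2, hss.1]
  have e2 : ((gd X t0).card : ℝ) ≤ 556 / 1000 * d := by
    have a1 : (gd X t0).card ≤ X.Ga.card := card_le_card (filter_subset _ _)
    rw [card_Ga] at a1
    have a2 : ((gd X t0).card : ℝ) ≤ 100 * X.q := by exact_mod_cast a1
    have a3 := X.qhi
    unfold de at a3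
    linarith
  have e3 : ((∑ b' ∈ gd X t0, aa X c b' : ℕ) : ℝ) ≤ Fintype.card V + 2 * U.card := by
    exact_mod_cast sum_aa X c (gd X t0) hcG
  have e4 : ((∑ b' ∈ gd X t0, ((cov (rs (ru X t0 h1.1 (gd X t0)) X.side s) t0 b').card -
      2 * sz X c B1 s b') : ℕ) : ℝ) ≤ 12 / 10 * th * d * Fintype.card V := by
    rw [Nat.cast_sum]
    refine (sum_le_sum e1).trans ?_
    rw [sum_add_distrib, sum_const, nsmul_eq_mul, ← mul_sum]
    rw [Nat.cast_sum] at e3
    have a1 : ((gd X t0).card : ℝ) * (21 / 10 * th * Fintype.card V) ≤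
        556 / 1000 * d * (21 / 10 * th * Fintype.card V) :=
      mul_le_mul_of_nonneg_right e2 (by unfold th; positivity)
    have a2 : (10 : ℝ) ^ 20 * Fintype.card V ≤ th * d * Fintype.card V := by
      apply mul_le_mul_of_nonneg_right _ (by linarith)
      unfold th
      linarith
    nlinarith
  have e5 : (22 / 100 : ℝ) * Fintype.card V ≤ sz X c B1 s b := by
    have a1 : ((ss V : ℝ)) - ((aa X c b : ℝ) + 1) ≤ sz X c B1 s b := by
      exact_mod_cast sz_ge X c B1 s b
    have a2 := aa_le X c hc b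
    unfold th at a2 hss
    linarith [hss.1]
  have e6 : 19 * th * (d : ℝ) ≤ (⌊20 * th * (d : ℝ)⌋₊ : ℝ) := by
    have a1 := Nat.lt_floor_add_one (20 * th * (d : ℝ))
    have a2 : (1 : ℝ) ≤ th * d := by unfold th; linarith
    linarith
  have e7 : (12 / 10 * th * d * Fintype.card V : ℝ) ≤
      (⌊20 * th * (d : ℝ)⌋₊ : ℝ) * sz X c B1 s b := by
    have a1 : (19 * th * (d : ℝ)) * (22 / 100 * Fintype.card V) ≤
        (⌊20 * th * (d : ℝ)⌋₊ : ℝ) * sz X c B1 s b :=
      mul_le_mul e6 e5 (by positivity) (Nat.cast_nonneg _)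
    have a2 : (0 : ℝ) ≤ th * d * Fintype.card V := by unfold th; positivity
    nlinarith
  exact_mod_cast e4.trans e7

end C

end Pool.Agent.Work.MP_db9399_qr.INSAux
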