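import Mathlib
import Pool.Agent.Work.MP_db9399_qr.INSC

/-! Block INS, part D: the pool. -/

set_option autoImplicit false

namespace Pool.Agent.Work.MP_db9399_qr.INSAux

open Finset Classical
open Pool.Agent.Work.MP_db9399_all (nb)
open _root_.MP_db9399_co

universe u

section D

variable {V : Type u} [Fintype V] {k d : ℕ} {G : SimpleGraph V} {U : Finset V}
  {F : V → Finset (Fin k)}

/-- cross degrees -/
theorem inside_diff (X : Ctx k d G U F) :
    (∑ v ∈ sd X.side true, ((nb X.R v).card : ℤ)) - ∑ v ∈ sd X.side false, ((nb X.R v).card : ℤ) =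
    (∑ v ∈ sd X.side true, ((nb G v).card : ℤ)) - ∑ v ∈ sd X.side false, ((nb G v).card : ℤ) := by
  have h1 : ∀ s, ∀ v ∈ sd X.side s, (nb G v).card = (nb X.R v).card +
      ((sd X.side (!s)).filter (fun w => G.Adj v w)).card := by
    intro s v hv
    rw [mem_sd] at hv
    rw [← card_union_of_disjoint]
    · congr 1
      ext w
      rw [mem_union, mem_nb, mem_nb, mem_filter, mem_sd, R_adj]
      constructor
      · intro h
        by_cases h2 : X.side w = s
        · exact Or.inl ⟨h, hv.trans h2.symm⟩
        · right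
          refine ⟨?_, h⟩
          cases hs : X.side w <;> cases s <;> simp_all
      · rintro (h | h)
        · exact h.1
        · exact h.2
    · rw [Finset.disjoint_left]
      intro w hw hw'
      rw [mem_nb, R_adj] at hw
      rw [mem_filter, mem_sd, ← hw.2, hv] at hw'
      exact absurd hw'.1 (by cases s <;> simp)
  have h2 : ∀ s, ∑ v ∈ sd X.side s, ((nb G v).card : ℤ) =
      (∑ v ∈ sd X.side s, ((nb X.R v).card : ℤ)) +
      ∑ v ∈ sd X.side s, (((sd X.side (!s)).filter (fun w => G.Adj v w)).card : ℤ) := by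
    intro s
    rw [← sum_add_distrib]
    apply sum_congr rfl
    intro v hv
    exact_mod_cast h1 s v hv
  have h3 : ∑ v ∈ sd X.side true, (((sd X.side (!true)).filter (fun w => G.Adj v w)).card : ℤ) =
      ∑ v ∈ sd X.side false, (((sd X.side (!false)).filter (fun w => G.Adj v w)).card : ℤ) := by
    have := sum_card_bipartiteAbove_eq_sum_card_bipartiteBelow (s := sd X.side true)
      (t := sd X.side false) (fun v w => G.Adj v w)
    unfold bipartiteAbove bipartiteBelow at this
    have h4 : ∀ v w, G.Adj v w ↔ G.Adj w v := fun v w => ⟨fun h => h.symm, fun h => h.symm⟩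
    simp only [Bool.not_true, Bool.not_false]
    have h5 : ∀ w ∈ sd X.side false, ((sd X.side true).filter (fun v => G.Adj v w)).card =
        ((sd X.side true).filter (fun v => G.Adj w v)).card := by
      intro w _
      congr 1
      ext v
      rw [mem_filter, mem_filter, h4 v w]
    rw [sum_congr rfl h5] at this
    exact_mod_cast this
  rw [h2 true, h2 false, h3]
  ring

/-- degrees of the kept graph -/
theorem kept_sum (X : Ctx k d G U F) (t0 : V → V → Fin k) (h1 : PEC X.R t0)
    (Gd : Finset (Fin k)) (K : SimpleGraph V) (hK : K ≤ X.R)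
    (hKt : ∀ v w, K.Adj v w → t0 v w ∈ Gd) (s : Bool) :
    ∑ v ∈ sd X.side s, (nb K v).card = ∑ b ∈ Gd, (cov K t0 b ∩ sd X.side s).card := by
  have h2 : ∀ v, (nb K v).card = (Gd.filter (fun b => v ∈ cov K t0 b)).card := by
    intro v
    have h3 : Set.InjOn (t0 v) (nb K v : Set V) := by
      intro x hx y hy hxy
      rw [mem_coe, mem_nb] at hx hy
      refine h1.2 v ?_ ?_ hxy
      · rw [mem_coe, mem_nb]; exact hK hx
      · rw [mem_coe, mem_nb]; exact hK hy
    rw [← card_image_of_injOn h3]
    congr 1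
    ext b
    rw [mem_image, mem_filter, mem_cov]
    constructor
    · rintro ⟨w, hw, rfl⟩
      rw [mem_nb] at hw
      exact ⟨hKt v w hw, w, hw, rfl⟩
    · rintro ⟨_, w, hw, hwb⟩
      exact ⟨w, mem_nb.2 hw, hwb⟩
  rw [sum_congr rfl (fun v _ => h2 v)]
  have h4 := sum_card_bipartiteAbove_eq_sum_card_bipartiteBelow (s := sd X.side s) (t := Gd)
      (fun v b => v ∈ cov K t0 b)
  unfold bipartiteAbove bipartiteBelow at h4
  rw [h4]
  apply sum_congr rfl
  intro b _
  congr 1
  ext v
  rw [mem_filter, mem_inter]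
  exact and_comm

theorem sum_dd_le (X : Ctx k d G U F) (c : V → Fin k) (B : Finset (Fin k)) (hc : ∀ v, c v ∈ B) :
    |∑ b ∈ B, dd X c b| ≤ X.p + 3 * U.card := by
  unfold dd
  rw [sum_add_distrib, sum_sub_distrib]
  have h1 : ∀ s, (∑ b ∈ B, (sS X.side U c s b : ℤ)) =
      ((univ.filter (fun v => X.side v = s ∧ v ∉ U)).card : ℤ) := by
    intro s
    exact_mod_cast sum_sS X c s B hc
  rw [h1 true, h1 false]
  have h2 : ∀ s, ((univ.filter (fun v => X.side v = s ∧ v ∉ U)).card : ℤ) +
      ((U.filter (fun v => X.side v = s)).card : ℤ) = (sd X.side s).card := by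
    intro s
    rw [← Nat.cast_add, ← card_union_of_disjoint]
    · congr 2
      ext v
      rw [mem_union, mem_filter, mem_filter, mem_sd]
      constructor
      · rintro (h | h)
        · exact h.2.1
        · exact h.2
      · intro h
        by_cases hU : v ∈ U
        · exact Or.inr ⟨hU, h⟩
        · exact Or.inl ⟨mem_univ _, h, hU⟩
    · rw [Finset.disjoint_left]
      intro v hv hv'
      rw [mem_filter] at hv hv'
      exact hv.2.2 hv'.1
  have h3 : ((U.filter (fun v => X.side v = true)).card : ℤ) +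
      ((U.filter (fun v => X.side v = false)).card : ℤ) = U.card := by
    rw [← Nat.cast_add, ← card_union_of_disjoint]
    · congr 2
      ext v
      rw [mem_union, mem_filter, mem_filter]
      cases X.side v <;> simp
    · rw [Finset.disjoint_left]
      intro v hv hv'
      rw [mem_filter] at hv hv'
      rw [hv.2] at hv'
      exact absurd hv'.2 (by simp)
  have h4 : ((sd X.side true).card : ℤ) = (sd X.side false).card + X.p := by
    exact_mod_cast X.sides
  have h5 : |∑ b ∈ B, ((fS X.side F true b : ℤ) - fS X.side F false b)| ≤ 2 * U.card := by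
    refine (abs_sum_le_sum_abs _ _).trans ?_
    have h6 : ∀ b ∈ B, |(fS X.side F true b : ℤ) - fS X.side F false b| ≤
        ((fS X.side F true b + fS X.side F false b : ℕ) : ℤ) := by
      intro b _
      push_cast
      rw [abs_le]
      constructor <;> omega
    refine (sum_le_sum h6).trans ?_
    exact_mod_cast sum_fS_le X B
  have h7 := h2 true
  have h8 := h2 false
  rw [abs_le] at h5 ⊢
  constructor <;> omega

theorem odd_le (X : Ctx k d G U F) (c : V → Fin k) (B P : Finset (Fin k)) (hP : ∀ v, c v ∈ P) :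
    (B.filter (fun b => dd X c b ≠ 0)).card ≤ P.card + 2 * U.card := by
  have h1 : B.filter (fun b => dd X c b ≠ 0) ⊆
      P ∪ B.filter (fun b => fS X.side F true b + fS X.side F false b ≠ 0) := by
    intro b hb
    rw [mem_filter] at hb
    rw [mem_union, mem_filter]
    by_contra hcon
    push Not at hcon
    obtain ⟨hcP, hc2⟩ := hcon
    have h2 := hc2 hb.1
    apply hb.2
    have h3 : ∀ s, sS X.side U c s b = 0 := by
      intro s
      unfold sS
      rw [card_eq_zero, filter_eq_empty_iff]
      rintro v _ ⟨_, _, h⟩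
      exact hcP (h ▸ hP v)
    unfold dd
    rw [h3, h3]
    omega
  refine (card_le_card h1).trans ((card_union_le _ _).trans ?_)
  apply Nat.add_le_add_left
  refine le_trans ?_ (sum_fS_le X B)
  rw [card_eq_sum_ones, sum_filter]
  apply sum_le_sum
  intro b _
  split_ifs with h
  · omega
  · omega

/-- twice the sum of the targets -/
theorem sum_tb (X : Ctx k d G U F) (c : V → Fin k) (B B1 P : Finset (Fin k))
    (hc : ∀ v, c v ∈ B) (hP : ∀ v, c v ∈ P) (hB1 : B1 ⊆ B) (hB1c : B1.card = X.p * (d / 2)) :
    |2 * (∑ b ∈ B, tb X c B1 b) - X.p * d| ≤ P.card + 5 * U.card + 2 := by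
  have h1 : ∑ b ∈ B, tb X c B1 b = (∑ b ∈ B, (- dd X c b) / 2) + X.p * (d / 2 : ℕ) := by
    unfold tb
    rw [sum_add_distrib]
    congr 1
    rw [← sum_filter, filter_mem_eq_inter, inter_eq_right.2 hB1, sum_const, hB1c]
    simp
  have h2 : |2 * (∑ b ∈ B, (- dd X c b) / 2) + ∑ b ∈ B, dd X c b| ≤ P.card + 2 * U.card := by
    rw [mul_sum, ← sum_add_distrib]
    refine (abs_sum_le_sum_abs _ _).trans ?_
    have h3 := odd_le X c B P hP
    have h4 : ∑ b ∈ B, |2 * ((- dd X c b) / 2) + dd X c b| ≤
        ((B.filter (fun b => dd X c b ≠ 0)).card : ℤ) := by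
      rw [card_eq_sum_ones, Nat.cast_sum, sum_filter]
      apply sum_le_sum
      intro b _
      split_ifs with h
      · push_cast
        rw [abs_le]
        constructor <;> omega
      · push Not at h
        rw [h]
        simp
    refine h4.trans ?_
    exact_mod_cast h3
  have h5 := sum_dd_le X c B hc
  have h6 := X.p1
  rw [h1]
  rw [abs_le] at h2 h5 ⊢
  have h7 : (X.p : ℤ) * ((d / 2 : ℕ) : ℤ) * 2 ≤ X.p * d := by
    have : (((d / 2 : ℕ) : ℤ)) * 2 ≤ d := by omega
    nlinarith
  have h8 : (X.p : ℤ) * d ≤ X.p * ((d / 2 : ℕ) : ℤ) * 2 + X.p := by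
    have : (d : ℤ) ≤ (((d / 2 : ℕ) : ℤ)) * 2 + 1 := by omega
    nlinarith
  have h9 : (X.p : ℤ) ≤ 1 := by exact_mod_cast h6
  constructor
  · linarith [h2.1, h2.2, h5.1, h5.2]
  · linarith [h2.1, h2.2, h5.1, h5.2]

end D

end Pool.Agent.Work.MP_db9399_qr.INSAux
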