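import Mathlib
import Pool.Agent.Work.MP_db9399_qr.INSD

/-! Block INS. -/

set_option autoImplicit false

namespace Pool.Agent.Work.MP_db9399_qr

open Finset Classical
open Pool.Agent.Work.MP_db9399_all (nb)
open _root_.MP_db9399_co
open INSAux

universe u

namespace INSAux

variable {V : Type u} [Fintype V] {k d : ℕ} {G : SimpleGraph V} {U : Finset V}
  {F : V → Finset (Fin k)}

/-- the data before the pool -/
structure Pre (X : Ctx k d G U F) where
  t0 : V → V → Fin k
  h1 : PEC X.R t0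
  h2 : ∀ v w, X.R.Adj v w → t0 v w ∈ X.Ga ∧ ¬ X.idl (t0 v w) v
  P : Finset (Fin k)
  c : V → Fin k
  Pc : P.card ≤ 5000 * X.χ
  cP : ∀ v, c v ∈ P
  cG : ∀ v, c v ∈ gd X t0 ∧ X.gi (c v) = X.cell v ∧ X.gj (c v) = X.cell v
  cadj : ∀ v w, G.Adj v w → c v ≠ c w
  csub : ∀ v w, c v = c w → X.sub v = X.sub w
  cF : ∀ v, ∀ u ∈ U, G.Adj v u → c v ∉ F u
  B1 : Finset (Fin k)
  B1s : B1 ⊆ gd X t0
  B1c : B1.card = X.p * (d / 2)
  K : SimpleGraph V
  KR : ∀ v w, K.Adj v w → X.R.Adj v w ∧ t0 v w ∈ gd X t0 ∧ t0 v w ∉ F v ∧ t0 v w ∉ F w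
  Kc : ∀ s, ∀ b ∈ gd X t0, (cov K t0 b ∩ sd X.side s).card = 2 * sz X c B1 s b
  Kd : ∀ v, ((nb X.R v).filter (fun w => ¬ K.Adj v w ∧ t0 v w ∈ gd X t0)).card ≤
    ⌊20 * th * (d : ℝ)⌋₊ + 4

theorem two_nbU (X : Ctx k d G U F) (t0 : V → V → Fin k) (h1 : PEC X.R t0) (v : V) :
    ((nb X.R v).filter (fun w => t0 v w ∈ F v ∨ t0 v w ∈ F w)).card ≤ 4 := by
  have h3 : (nb X.R v).filter (fun w => t0 v w ∈ F v ∨ t0 v w ∈ F w) ⊆
      (nb X.R v).filter (fun w => t0 v w ∈ F v) ∪
      univ.filter (fun u => u ∈ U ∧ G.Adj v u) := by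
    intro w hw
    rw [mem_filter] at hw
    rw [mem_union, mem_filter, mem_filter]
    rcases hw.2 with h | h
    · exact Or.inl ⟨hw.1, h⟩
    · right
      refine ⟨mem_univ _, ?_, (mem_nb.1 hw.1).1⟩
      by_contra hU
      rw [X.F0 w hU] at h
      simp at h
  have h4 : ((nb X.R v).filter (fun w => t0 v w ∈ F v)).card ≤ 2 := by
    refine le_trans ?_ (Fcard X v)
    apply card_le_card_of_injOn (t0 v)
    · intro w hw
      rw [mem_coe, mem_filter] at hw
      exact hw.2
    · intro x hx y hy hxy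
      rw [mem_coe, mem_filter] at hx hy
      exact h1.2 v (by rw [mem_coe]; exact hx.1) (by rw [mem_coe]; exact hy.1) hxy
  have h5 := card_le_card h3
  have h6 := card_union_le ((nb X.R v).filter (fun w => t0 v w ∈ F v))
    (univ.filter (fun u => u ∈ U ∧ G.Adj v u))
  have h7 := X.U2 v
  omega

theorem exists_pre (hJ : Stmt_JCOL.{u}) (hV : Stmt_VC.{u}) (hD : Stmt_DROP.{u})
    (X : Ctx k d G U F) : Nonempty (Pre X) := by
  obtain ⟨t0, h1, h2⟩ := first hJ X
  have hbad := bad_le X t0 h1 h2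
  have hd : (10 : ℝ) ^ 30 ≤ d := by exact_mod_cast X.dbig
  have hq : (d : ℝ) / 180 ≤ X.q := by
    have a1 := X.qlo (DD d) (DD_le d)
    have a2 : (1 / 20 + de) * (d : ℝ) < DD d + 1 := by
      unfold DD
      exact Nat.lt_floor_add_one _
    have a3 : (10 : ℝ) * (DD d + 1) + 90 ≤ 90 * X.q := by exact_mod_cast a1
    have a4 : (0 : ℝ) ≤ de * d := by unfold de; positivity
    linarith
  have hgd : (X.Ga.card : ℝ) ≤ (gd X t0).card + (X.Ga \ gd X t0).card := by
    have : X.Ga.card = (X.Ga \ gd X t0).card + (gd X t0).card := by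
      rw [card_sdiff_add_card_eq_card]
      exact filter_subset _ _
    rw [this]
    push_cast
    linarith
  obtain ⟨P, c, hP1, hP2, hc, hcs, hcF⟩ := hV G U k X.χ F X.g X.cell X.sub
    (fun i => (gd X t0).filter (fun b => X.gi b = i ∧ X.gj b = i)) X.glt X.gadj X.F2 X.U2
    (by
      intro i
      have a1 : X.Ga.filter (fun b => X.gi b = i ∧ X.gj b = i) ⊆
          (gd X t0).filter (fun b => X.gi b = i ∧ X.gj b = i) ∪ (X.Ga \ gd X t0) := by
        intro b hb
        rw [mem_filter] at hb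
        rw [mem_union, mem_filter, mem_sdiff]
        by_cases hg : b ∈ gd X t0
        · exact Or.inl ⟨hg, hb.2⟩
        · exact Or.inr ⟨hb.1, hg⟩
      have a2 := (card_le_card a1).trans (card_union_le _ _)
      rw [X.Gaq i i] at a2
      have a3 : (X.q : ℝ) ≤ ((gd X t0).filter (fun b => X.gi b = i ∧ X.gj b = i)).card +
          (X.Ga \ gd X t0).card := by exact_mod_cast a2
      have a4 := X.chid
      have a5 : (500 * X.χ : ℝ) ≤
          ((gd X t0).filter (fun b => X.gi b = i ∧ X.gj b = i)).card := by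
        unfold de th at hbad
        linarith
      exact_mod_cast a5)
    (by
      intro i j hij
      rw [Finset.disjoint_left]
      intro b hb hb'
      rw [mem_filter] at hb hb'
      exact hij (hb.2.1.symm.trans hb'.2.1))
  have hcG : ∀ v, c v ∈ gd X t0 ∧ X.gi (c v) = X.cell v ∧ X.gj (c v) = X.cell v := by
    intro v
    have := (hP2 v).2
    rw [mem_filter] at this
    exact this
  obtain ⟨B1, hB1, hB1c⟩ : ∃ B1 ⊆ gd X t0, B1.card = X.p * (d / 2) := by
    apply exists_subset_card_eq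
    have a1 : X.p * (d / 2) ≤ d / 2 := by
      have := X.p1
      calc X.p * (d / 2) ≤ 1 * (d / 2) := Nat.mul_le_mul_right _ this
        _ = d / 2 := one_mul _
    refine a1.trans ?_
    have a2 : ((d / 2 : ℕ) : ℝ) ≤ d / 2 := by
      rw [le_div_iff₀ (by norm_num)]
      have : (d / 2) * 2 ≤ d := by omega
      exact_mod_cast this
    have a3 : (X.Ga.card : ℝ) = 100 * X.q := by exact_mod_cast card_Ga X
    have a4 : ((d / 2 : ℕ) : ℝ) ≤ (gd X t0).card := by
      unfold de th at hbad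
      linarith
    exact_mod_cast a4
  have hpec : ∀ s, PEC (rs (ru X t0 h1.1 (gd X t0)) X.side s) t0 := by
    intro s
    refine ⟨h1.1, fun v x hx y hy hxy => ?_⟩
    rw [mem_coe, mem_nb] at hx hy
    refine h1.2 v ?_ ?_ hxy
    · rw [mem_coe, mem_nb]; exact hx.1.1
    · rw [mem_coe, mem_nb]; exact hy.1.1
  have hK : ∀ s, ∃ K : SimpleGraph V, K ≤ rs (ru X t0 h1.1 (gd X t0)) X.side s ∧
      (∀ b ∈ gd X t0, (cov K t0 b).card = 2 * sz X c B1 s b) ∧
      ∀ v, ((nb (rs (ru X t0 h1.1 (gd X t0)) X.side s) v).filter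
        (fun w => t0 v w ∈ gd X t0 ∧ ¬ K.Adj v w)).card ≤ ⌊20 * th * (d : ℝ)⌋₊ := by
    intro s
    obtain ⟨K, g1, g2, g3⟩ := hD (rs (ru X t0 h1.1 (gd X t0)) X.side s) (Fin k) t0 (gd X t0)
      (sz X c B1 s)
      ⌊20 * th * (d : ℝ)⌋₊ (hpec s) (fun b hb => drop1 X t0 h1 h2 c B1 s b hb)
      (fun b _ => drop2 X t0 h1 h2 c hc (fun v => (hcG v).1) B1 s b)
    refine ⟨K, g1, g2, fun v => (card_le_card ?_).trans (g3 v)⟩
    intro w hw
    simp only [mem_filter] at hw ⊢
    exact hw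
  choose Ks hK1 hK2 hK3 using hK
  have hadj : ∀ v w, (Ks true ⊔ Ks false).Adj v w ↔ (Ks (X.side v)).Adj v w := by
    intro v w
    rw [SimpleGraph.sup_adj]
    constructor
    · rintro (h | h)
      · have := (hK1 true h).2.1
        rw [this]; exact h
      · have := (hK1 false h).2.1
        rw [this]; exact h
    · intro h
      cases hs : X.side v
      · rw [hs] at h; exact Or.inr h
      · rw [hs] at h; exact Or.inl h
  refine ⟨⟨t0, h1, h2, P, c, hP1, fun v => (hP2 v).1, hcG, hc, hcs, hcF, B1, hB1, hB1c,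
    Ks true ⊔ Ks false, ?_, ?_, ?_⟩⟩
  · intro v w h
    rw [hadj] at h
    exact (hK1 _ h).1
  · intro s b hb
    rw [← hK2 s b hb]
    congr 1
    ext v
    rw [mem_inter, mem_cov, mem_cov, mem_sd]
    constructor
    · rintro ⟨⟨w, hw, hwb⟩, hs⟩
      rw [hadj, hs] at hw
      exact ⟨w, hw, hwb⟩
    · rintro ⟨w, hw, hwb⟩
      have hs : X.side v = s := (hK1 s hw).2.1
      refine ⟨⟨w, ?_, hwb⟩, hs⟩
      rw [hadj, hs]
      exact hw
  · intro v
    have a0 := Nat.add_le_add (hK3 (X.side v) v) (two_nbU X t0 h1 v)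
    refine le_trans ?_ a0
    refine le_trans ?_ (card_union_le _ _)
    apply card_le_card
    have a1 : (nb X.R v).filter (fun w => ¬ (Ks true ⊔ Ks false).Adj v w ∧ t0 v w ∈ gd X t0) ⊆
        (nb (rs (ru X t0 h1.1 (gd X t0)) X.side (X.side v)) v).filter
        (fun w => t0 v w ∈ gd X t0 ∧ ¬ (Ks (X.side v)).Adj v w) ∪
        (nb X.R v).filter (fun w => t0 v w ∈ F v ∨ t0 v w ∈ F w) := by
      intro w hw
      rw [mem_filter, hadj, mem_nb] at hw
      rw [mem_union, mem_filter, mem_filter, mem_nb, mem_nb]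
      by_cases hF : t0 v w ∈ F v ∨ t0 v w ∈ F w
      · exact Or.inr ⟨hw.1, hF⟩
      · push Not at hF
        left
        refine ⟨⟨⟨hw.1, hw.2.2, hF.1, hF.2⟩, rfl, ?_⟩, hw.2.2, hw.2.1⟩
        exact hw.1.2.symm
    intro w hw
    simp only [mem_filter] at hw
    have a2 : w ∈ _ := a1 (by simp only [mem_filter]; exact hw)
    simp only [mem_union, mem_filter] at a2 ⊢
    exact a2

end INSAux

theorem stmt_INS (hJ : Stmt_JCOL.{u}) (hV : Stmt_VC.{u}) (hD : Stmt_DROP.{u})
    (hP : Stmt_POOL.{u}) : Stmt_INS.{u} := by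
  intro V _ k d G U F X
  obtain ⟨Y⟩ := exists_pre hJ hV hD X
  have hd : (10 : ℝ) ^ 30 ≤ d := by exact_mod_cast X.dbig
  have hn := n_big X
  have hU := U_small X
  have hbad := bad_le X Y.t0 Y.h1 Y.h2
  have hbad' : ((X.Ga \ gd X Y.t0).card : ℝ) ≤ th * d := by
    refine hbad.trans ?_
    unfold de th
    nlinarith
  -- the pool
  have hcap : ((⌊20 * th * (d : ℝ)⌋₊ : ℕ) : ℝ) ≤ 20 * th * d :=
    Nat.floor_le (by unfold th; positivity)
  set Rp : SimpleGraph V := X.R \ Y.K with hRp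
  have hRpadj : ∀ v w, Rp.Adj v w ↔ X.R.Adj v w ∧ ¬ Y.K.Adj v w := by
    intro v w; rw [hRp, SimpleGraph.sdiff_adj]
  have hRpdeg : ∀ v, (nb Rp v).card ≤ ⌊22 * th * (d : ℝ)⌋₊ := by
    intro v
    apply Nat.le_floor
    have a1 : nb Rp v ⊆ (nb X.R v).filter (fun w => Y.t0 v w ∉ gd X Y.t0) ∪
        (nb X.R v).filter (fun w => ¬ Y.K.Adj v w ∧ Y.t0 v w ∈ gd X Y.t0) := by
      intro w hw
      rw [mem_nb, hRpadj] at hw
      rw [mem_union, mem_filter, mem_filter, mem_nb]
      by_cases hg : Y.t0 v w ∈ gd X Y.t0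
      · exact Or.inr ⟨hw.1, hw.2, hg⟩
      · exact Or.inl ⟨hw.1, hg⟩
    have a2 : ((nb X.R v).filter (fun w => Y.t0 v w ∉ gd X Y.t0)).card ≤
        (X.Ga \ gd X Y.t0).card := by
      apply card_le_card_of_injOn (Y.t0 v)
      · intro w hw
        rw [mem_coe, mem_filter, mem_nb] at hw
        rw [mem_coe, mem_sdiff]
        exact ⟨(Y.h2 v w hw.1).1, hw.2⟩
      · intro x hx y hy hxy
        rw [mem_coe, mem_filter] at hx hy
        exact Y.h1.2 v (by rw [mem_coe]; exact hx.1) (by rw [mem_coe]; exact hy.1) hxy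
    have a3 := (card_le_card a1).trans (card_union_le _ _)
    have a4 := Y.Kd v
    have a5 : (nb Rp v).card ≤ (X.Ga \ gd X Y.t0).card + (⌊20 * th * (d : ℝ)⌋₊ + 4) := by omega
    have a6 : ((nb Rp v).card : ℝ) ≤ (X.Ga \ gd X Y.t0).card +
        ((⌊20 * th * (d : ℝ)⌋₊ : ℝ) + 4) := by exact_mod_cast a5
    refine a6.trans ?_
    unfold de th at hbad
    unfold th at hcap ⊢
    linarith
  obtain ⟨tp, hp1, hp2, hp3⟩ := hP Rp X.side X.cell ⌊22 * th * (d : ℝ)⌋₊
    (4 * ⌊22 * th * (d : ℝ)⌋₊ + 9) (Fin k) X.Pe X.ty F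
    (fun v w h => ((hRpadj v w).1 h).1.2) hRpdeg (Fcard X)
    (by
      intro τ
      have a1 := X.Pem τ
      have a2 : ((⌊22 * th * (d : ℝ)⌋₊ : ℕ) : ℝ) ≤ 22 * th * d :=
        Nat.floor_le (by unfold th; positivity)
      have a3 : ((4 * ⌊22 * th * (d : ℝ)⌋₊ + 9 : ℕ) : ℝ) ≤
          ((X.Pe.filter (fun b => X.ty b = τ)).card : ℝ) := by
        push_cast
        linarith
      exact_mod_cast a3)
    le_rfl
  -- the colouring
  set t : V → V → Fin k := fun v w => if Y.K.Adj v w then Y.t0 v w else tp v w with ht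
  have hGdGa : gd X Y.t0 ⊆ X.Ga := filter_subset _ _
  have hGP : ∀ b, b ∈ gd X Y.t0 → b ∉ X.Pe := fun b hb hb' =>
    Finset.disjoint_left.1 X.disj (hGdGa hb) hb'
  have t1 : ∀ v w, Y.K.Adj v w → t v w = Y.t0 v w := fun v w h => by
    simp only [ht]; rw [if_pos h]
  have t2 : ∀ v w, ¬ Y.K.Adj v w → t v w = tp v w := fun v w h => by
    simp only [ht]; rw [if_neg h]
  have hpec : PEC X.R t := by
    refine ⟨?_, ?_⟩
    · intro v w
      by_cases h : Y.K.Adj v w
      · rw [t1 v w h, t1 w v h.symm]; exact Y.h1.1 v w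
      · rw [t2 v w h, t2 w v (fun h' => h h'.symm)]; exact hp1.1 v w
    · intro v x hx y hy hxy
      rw [mem_coe, mem_nb] at hx hy
      by_cases h : Y.K.Adj v x <;> by_cases h' : Y.K.Adj v y
      · rw [t1 v x h, t1 v y h'] at hxy
        exact Y.h1.2 v (by rw [mem_coe, mem_nb]; exact hx) (by rw [mem_coe, mem_nb]; exact hy) hxy
      · rw [t1 v x h, t2 v y h'] at hxy
        exact absurd (hp2 v y ((hRpadj v y).2 ⟨hy, h'⟩)).1
          (hxy ▸ hGP _ (Y.KR v x h).2.1)
      · rw [t2 v x h, t1 v y h'] at hxy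
        exact absurd (hp2 v x ((hRpadj v x).2 ⟨hx, h⟩)).1
          (hxy ▸ hGP _ (Y.KR v y h').2.1)
      · rw [t2 v x h, t2 v y h'] at hxy
        exact hp1.2 v (by rw [mem_coe, mem_nb, hRpadj]; exact ⟨hx, h⟩)
          (by rw [mem_coe, mem_nb, hRpadj]; exact ⟨hy, h'⟩) hxy
  have htF : ∀ v w, X.R.Adj v w → t v w ∉ F v := by
    intro v w hvw
    by_cases h : Y.K.Adj v w
    · rw [t1 v w h]; exact (Y.KR v w h).2.2.1
    · rw [t2 v w h]; exact (hp2 v w ((hRpadj v w).2 ⟨hvw, h⟩)).2.1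
  have htc : ∀ v w, X.R.Adj v w → t v w ≠ Y.c v := by
    intro v w hvw heq
    by_cases h : Y.K.Adj v w
    · rw [t1 v w h] at heq
      apply (Y.h2 v w hvw).2
      rw [heq]
      exact ⟨fun _ => (Y.cG v).2.1, fun _ => (Y.cG v).2.2⟩
    · rw [t2 v w h] at heq
      have := (hp2 v w ((hRpadj v w).2 ⟨hvw, h⟩)).1
      rw [heq] at this
      exact hGP _ (Y.cG v).1 this
  have covG : ∀ b ∈ gd X Y.t0, cov X.R t b = cov Y.K Y.t0 b := by
    intro b hb
    ext v
    rw [mem_cov, mem_cov]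
    constructor
    · rintro ⟨w, hw, hwb⟩
      by_cases h : Y.K.Adj v w
      · rw [t1 v w h] at hwb; exact ⟨w, h, hwb⟩
      · rw [t2 v w h] at hwb
        exact absurd (hwb ▸ (hp2 v w ((hRpadj v w).2 ⟨hw, h⟩)).1) (hGP b hb)
    · rintro ⟨w, hw, hwb⟩
      exact ⟨w, (Y.KR v w hw).1, by rw [t1 v w hw]; exact hwb⟩
  have covP : ∀ b ∈ X.Pe, cov X.R t b = cov Rp tp b := by
    intro b hb
    ext v
    rw [mem_cov, mem_cov]
    constructor
    · rintro ⟨w, hw, hwb⟩
      by_cases h : Y.K.Adj v w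
      · rw [t1 v w h] at hwb
        exact absurd hb (hwb ▸ hGP _ (Y.KR v w h).2.1)
      · rw [t2 v w h] at hwb
        exact ⟨w, (hRpadj v w).2 ⟨hw, h⟩, hwb⟩
    · rintro ⟨w, hw, hwb⟩
      have := (hRpadj v w).1 hw
      exact ⟨w, this.1, by rw [t2 v w this.2]; exact hwb⟩
  have covB : ∀ b ∈ X.Ga \ gd X Y.t0, cov X.R t b = ∅ := by
    intro b hb
    rw [mem_sdiff] at hb
    rw [eq_empty_iff_forall_notMem]
    intro v hv
    obtain ⟨w, hw, hwb⟩ := mem_cov.1 hv
    by_cases h : Y.K.Adj v w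
    · rw [t1 v w h] at hwb
      exact hb.2 (hwb ▸ (Y.KR v w h).2.1)
    · rw [t2 v w h] at hwb
      exact Finset.disjoint_left.1 X.disj hb.1 (hwb ▸ (hp2 v w ((hRpadj v w).2 ⟨hw, h⟩)).1)
  have himb := imb_eq X X.R Y.c t htF htc
  have hKle : Y.K ≤ X.R := fun v w h => (Y.KR v w h).1
  have hsz := sz_sub X Y.c Y.cadj Y.B1
  refine ⟨⟨gd X Y.t0, Y.c, t, hGdGa, hbad', Y.cG, Y.cadj, Y.cF, Y.csub, hpec, htF, ?_, ?_, ?_,
    ?_, ?_⟩⟩
  · -- tcol
    intro v w hvw
    by_cases h : Y.K.Adj v w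
    · left
      rw [t1 v w h]
      exact ⟨(Y.KR v w h).2.1, (Y.h2 v w hvw).2⟩
    · right
      rw [t2 v w h]
      have := hp2 v w ((hRpadj v w).2 ⟨hvw, h⟩)
      exact ⟨this.1, this.2.2⟩
  · -- ecount
    intro v
    have a1 : (gd X Y.t0).filter (fun b => ¬ X.idl b v ∧ v ∉ cov X.R t b) ⊆
        X.Ga.filter (fun b => ¬ X.idl b v ∧ v ∉ cov X.R Y.t0 b) ∪
        ((nb X.R v).filter (fun w => ¬ Y.K.Adj v w ∧ Y.t0 v w ∈ gd X Y.t0)).image (Y.t0 v) := by
      intro b hb
      rw [mem_filter] at hb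
      rw [mem_union, mem_filter, mem_image]
      by_cases hc : v ∈ cov X.R Y.t0 b
      · right
        obtain ⟨w, hw, hwb⟩ := mem_cov.1 hc
        refine ⟨w, mem_filter.2 ⟨mem_nb.2 hw, ?_, hwb ▸ hb.1⟩, hwb⟩
        intro h
        apply hb.2.2
        rw [covG b hb.1]
        exact mem_cov.2 ⟨w, h, hwb⟩
      · exact Or.inl ⟨hGdGa hb.1, hb.2.1, hc⟩
    have a2 := (card_le_card a1).trans (card_union_le _ _)
    have a3 := miss_le X Y.t0 Y.h1 Y.h2 v
    have a4 : (((nb X.R v).filter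
        (fun w => ¬ Y.K.Adj v w ∧ Y.t0 v w ∈ gd X Y.t0)).image (Y.t0 v)).card ≤
        ⌊20 * th * (d : ℝ)⌋₊ + 4 := card_image_le.trans (Y.Kd v)
    have a5 : (((gd X Y.t0).filter (fun b => ¬ X.idl b v ∧ v ∉ cov X.R t b)).card : ℝ) ≤
        (X.Ga.filter (fun b => ¬ X.idl b v ∧ v ∉ cov X.R Y.t0 b)).card +
        ((⌊20 * th * (d : ℝ)⌋₊ : ℝ) + 4) := by
      exact_mod_cast a2.trans (Nat.add_le_add_left a4 _)
    refine a5.trans ?_
    unfold de at a3
    unfold th at hcap ⊢
    linarith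
  · -- esize
    intro b hb
    have a1 : (univ.filter (fun v => ¬ X.idl b v ∧ v ∉ cov X.R t b)).card +
        ((cov Y.K Y.t0 b ∩ sd X.side true).card + (cov Y.K Y.t0 b ∩ sd X.side false).card) ≤
        (ni X true b).card + (ni X false b).card := by
      rw [← card_union_of_disjoint, ← card_union_of_disjoint, ← card_union_of_disjoint]
      · apply card_le_card
        intro v hv
        have hni : X.side v = true ∨ X.side v = false := by cases X.side v <;> simp
        have hid : ¬ X.idl b v := by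
          rw [mem_union, mem_union, mem_inter, mem_inter, mem_filter] at hv
          have hcv : v ∈ cov Y.K Y.t0 b → ¬ X.idl b v := by
            intro hc
            obtain ⟨w, hw, hwb⟩ := mem_cov.1 hc
            rw [← hwb]
            exact (Y.h2 v w (Y.KR v w hw).1).2
          rcases hv with h | h | h
          · exact h.2.1
          · exact hcv h.1
          · exact hcv h.1
        rw [mem_union]
        unfold ni
        rw [mem_filter, mem_filter]
        rcases hni with h | h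
        · exact Or.inl ⟨mem_univ _, h, hid⟩
        · exact Or.inr ⟨mem_univ _, h, hid⟩
      · rw [Finset.disjoint_left]
        intro v hv hv'
        unfold ni at hv hv'
        rw [mem_filter] at hv hv'
        rw [hv.2.1] at hv'
        exact absurd hv'.2.1 (by simp)
      · rw [Finset.disjoint_left]
        intro v hv hv'
        rw [mem_filter, covG b hb] at hv
        rw [mem_union, mem_inter, mem_inter] at hv'
        rcases hv' with h | h
        · exact hv.2.2 h.1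
        · exact hv.2.2 h.1
      · rw [Finset.disjoint_left]
        intro v hv hv'
        rw [mem_inter, mem_sd] at hv hv'
        rw [hv.2] at hv'
        exact absurd hv'.2 (by simp)
    rw [Y.Kc true b hb, Y.Kc false b hb] at a1
    have a2 := abs_le.1 (ni_card X true b)
    have a3 := abs_le.1 (ni_card X false b)
    have a4 : (sz X Y.c Y.B1 true b : ℝ) + sz X Y.c Y.B1 false b =
        2 * ss V - |((tb X Y.c Y.B1 b : ℤ) : ℝ)| := by
      have := (hsz b).2
      exact_mod_cast this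
    have a5 : |((tb X Y.c Y.B1 b : ℤ) : ℝ)| ≤ aa X Y.c b + 1 := by
      exact_mod_cast tb_le X Y.c Y.B1 b
    have a6 := aa_le X Y.c Y.cadj b
    have a7 := ss_bounds X
    have a8 : (((univ.filter (fun v => ¬ X.idl b v ∧ v ∉ cov X.R t b)).card : ℕ) : ℝ) +
        (2 * (sz X Y.c Y.B1 true b : ℝ) + 2 * sz X Y.c Y.B1 false b) ≤
        (ni X true b).card + (ni X false b).card := by exact_mod_cast a1
    unfold de at a2 a3
    unfold th at a6 a7 ⊢
    linarith [a2.2, a3.2, a7.1]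
  · -- imbG
    intro b hb
    rw [himb b, covG b hb, Y.Kc true b hb, Y.Kc false b hb]
    have a1 := (hsz b).1
    have a2 := X.p1
    have a3 : b ∈ Y.B1 → X.p = 1 := by
      intro hB
      by_contra hp
      have : X.p = 0 := by omega
      have h0 := Y.B1c
      rw [this, zero_mul, card_eq_zero] at h0
      rw [h0] at hB
      simp at hB
    unfold tb dd at a1
    rw [abs_le]
    by_cases hB : b ∈ Y.B1
    · rw [if_pos hB] at a1
      have := a3 hB
      constructor <;> omega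
    · rw [if_neg hB] at a1
      constructor <;> omega
  · -- imbP
    have b0 : ∀ b, b ∉ gd X Y.t0 → ∀ s, sS X.side U Y.c s b = 0 := by
      intro b hb s
      unfold sS
      rw [card_eq_zero, filter_eq_empty_iff]
      rintro v _ ⟨_, _, h⟩
      exact hb (h ▸ (Y.cG v).1)
    have c1 : ∀ b ∈ X.Pe, |imb X.side (W0 X.R U F Y.c t b)| ≤ 1 +
        ((fS X.side F true b + fS X.side F false b : ℕ) : ℤ) +
        |((cov Rp tp b ∩ sd X.side true).card : ℤ) - ((cov Rp tp b ∩ sd X.side false).card : ℤ)| := by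
      intro b hb
      have hbG : b ∉ gd X Y.t0 := fun h => hGP b h hb
      rw [himb b, covP b hb, b0 b hbG, b0 b hbG]
      have a2 := X.p1
      have a3 := abs_le.1 (le_refl
        |((cov Rp tp b ∩ sd X.side true).card : ℤ) - ((cov Rp tp b ∩ sd X.side false).card : ℤ)|)
      rw [abs_le]
      constructor <;> omega
    have c2 : ∀ b ∈ X.Ga \ gd X Y.t0, |imb X.side (W0 X.R U F Y.c t b)| ≤ 1 +
        ((fS X.side F true b + fS X.side F false b : ℕ) : ℤ) := by
      intro b hb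
      have hbG : b ∉ gd X Y.t0 := (mem_sdiff.1 hb).2
      rw [himb b, covB b hb, b0 b hbG, b0 b hbG]
      have a2 := X.p1
      simp only [empty_inter, card_empty]
      rw [abs_le]
      constructor <;> omega
    have c3 : ∑ b ∈ X.Pe ∪ (X.Ga \ gd X Y.t0), |imb X.side (W0 X.R U F Y.c t b)| ≤
        (X.Pe.card + (X.Ga \ gd X Y.t0).card : ℤ) + 2 * U.card +
        ∑ b ∈ X.Pe, |((cov Rp tp b ∩ sd X.side true).card : ℤ) -
          ((cov Rp tp b ∩ sd X.side false).card : ℤ)| := by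
      have hdis : Disjoint X.Pe (X.Ga \ gd X Y.t0) :=
        (X.disj.symm).mono_right sdiff_subset
      rw [sum_union hdis]
      have s1 := sum_le_sum c1
      have s2 := sum_le_sum c2
      have s3 : (∑ b ∈ X.Pe ∪ (X.Ga \ gd X Y.t0),
          ((fS X.side F true b + fS X.side F false b : ℕ) : ℤ)) ≤ 2 * U.card := by
        exact_mod_cast sum_fS_le X (X.Pe ∪ (X.Ga \ gd X Y.t0))
      rw [sum_union hdis] at s3
      rw [sum_add_distrib, sum_add_distrib, sum_const, nsmul_one] at s1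
      rw [sum_add_distrib, sum_const, nsmul_one] at s2
      linarith
    have c4 : (∑ v ∈ sd X.side true, ((nb Rp v).card : ℤ)) -
        (∑ v ∈ sd X.side false, ((nb Rp v).card : ℤ)) =
        ((∑ v ∈ sd X.side true, ((nb G v).card : ℤ)) -
          ∑ v ∈ sd X.side false, ((nb G v).card : ℤ)) -
        2 * ∑ b ∈ gd X Y.t0, tb X Y.c Y.B1 b := by
      have e1 : ∀ s, ∑ v ∈ sd X.side s, ((nb X.R v).card : ℤ) =
          (∑ v ∈ sd X.side s, ((nb Rp v).card : ℤ)) +
          ∑ b ∈ gd X Y.t0, (2 * (sz X Y.c Y.B1 s b : ℤ)) := by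
        intro s
        have e2 := kept_sum X Y.t0 Y.h1 (gd X Y.t0) Y.K hKle (fun v w h => (Y.KR v w h).2.1) s
        rw [sum_congr rfl (fun b hb => Y.Kc s b hb)] at e2
        have e3 : ∑ v ∈ sd X.side s, ((nb Y.K v).card : ℤ) =
            ∑ b ∈ gd X Y.t0, (2 * (sz X Y.c Y.B1 s b : ℤ)) := by exact_mod_cast e2
        rw [← e3, ← sum_add_distrib]
        apply sum_congr rfl
        intro v _
        rw [← Nat.cast_add, ← card_union_of_disjoint]
        · congr 2
          ext w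
          rw [mem_union, mem_nb, mem_nb, mem_nb, hRpadj]
          constructor
          · intro h
            by_cases h' : Y.K.Adj v w
            · exact Or.inr h'
            · exact Or.inl ⟨h, h'⟩
          · rintro (h | h)
            · exact h.1
            · exact hKle h
        · rw [Finset.disjoint_left]
          intro w hw hw'
          rw [mem_nb, hRpadj] at hw
          rw [mem_nb] at hw'
          exact hw.2 hw'
      have e4 := e1 true
      have e5 := e1 false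
      have e6 := inside_diff X
      have e7 : ∑ b ∈ gd X Y.t0, (2 * (sz X Y.c Y.B1 true b : ℤ)) -
          ∑ b ∈ gd X Y.t0, (2 * (sz X Y.c Y.B1 false b : ℤ)) =
          2 * ∑ b ∈ gd X Y.t0, tb X Y.c Y.B1 b := by
        rw [← sum_sub_distrib, mul_sum]
        apply sum_congr rfl
        intro b _
        rw [← (hsz b).1]
        ring
      linarith
    have c5 := sum_tb X Y.c (gd X Y.t0) Y.B1 Y.P (fun v => (Y.cG v).1) Y.cP Y.B1s Y.B1c
    have c6 := X.degsum
    have c7 : |(((∑ v ∈ sd X.side true, ((nb Rp v).card : ℤ)) -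
        (∑ v ∈ sd X.side false, ((nb Rp v).card : ℤ)) : ℤ) : ℝ)| ≤
        de * d + U.card + (Y.P.card + 5 * U.card + 2) := by
      rw [c4]
      push_cast
      have c5' : |2 * (((∑ b ∈ gd X Y.t0, tb X Y.c Y.B1 b : ℤ)) : ℝ) - X.p * d| ≤
          Y.P.card + 5 * U.card + 2 := by exact_mod_cast c5
      push_cast at c5'
      rw [abs_le] at c5' c6 ⊢
      constructor <;> linarith [c5'.1, c5'.2, c6.1, c6.2]
    have c8 := c3.trans (add_le_add_right hp3 _)
    have c9 : (((∑ b ∈ X.Pe ∪ (X.Ga \ gd X Y.t0), |imb X.side (W0 X.R U F Y.c t b)| : ℤ)) : ℝ) ≤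
        (X.Pe.card + (X.Ga \ gd X Y.t0).card : ℝ) + 2 * U.card +
        |(((∑ v ∈ sd X.side true, ((nb Rp v).card : ℤ)) -
        (∑ v ∈ sd X.side false, ((nb Rp v).card : ℤ)) : ℤ) : ℝ)| := by
      exact_mod_cast c8
    have c10 : (Y.P.card : ℝ) ≤ 5000 * X.χ := by exact_mod_cast Y.Pc
    have c11 := X.chid
    have c12 := X.Pecard
    have c13 : (∑ b ∈ X.Pe ∪ (X.Ga \ gd X Y.t0),
        |((imb X.side (W0 X.R U F Y.c t b) : ℤ) : ℝ)|) =
        (((∑ b ∈ X.Pe ∪ (X.Ga \ gd X Y.t0), |imb X.side (W0 X.R U F Y.c t b)| : ℤ)) : ℝ) := by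
      push_cast
      rfl
    rw [c13]
    unfold de at c7
    unfold th at hbad'
    have hU0 : (0 : ℝ) ≤ U.card := Nat.cast_nonneg _
    linarith

end Pool.Agent.Work.MP_db9399_qr
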