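import Pool.Agent.Work.MP_db9399_qr.SPLIT

/-!
# Block JCOL (helper63): near-optimal edge colouring in which the colour `b` avoids the cell `g b`
-/

set_option autoImplicit false

namespace Pool.Agent.Work.MP_db9399_qr

open Finset Classical
open Pool.Agent.Work.MP_db9399_all (nb)

universe u

namespace JCOLAux

variable {V : Type u} [Fintype V]

/-- the edges between the two cells of `s` -/
def RS (R : SimpleGraph V) (cell : V → Fin 10) (s : Sym2 (Fin 10)) : SimpleGraph V where
  Adj v w := R.Adj v w ∧ s(cell v, cell w) = s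
  symm := ⟨fun v w h => ⟨h.1.symm, by rw [Sym2.eq_swap]; exact h.2⟩⟩
  loopless := ⟨fun _ h => R.loopless.irrefl _ h.1⟩

/-- the part `i` -/
def JS (R : SimpleGraph V) (T : V → V → Fin 10) (hT : ∀ v w, T v w = T w v) (i : Fin 10) :
    SimpleGraph V where
  Adj v w := R.Adj v w ∧ T v w = i
  symm := ⟨fun v w h => ⟨h.1.symm, (hT w v).trans h.2⟩⟩
  loopless := ⟨fun _ h => R.loopless.irrefl _ h.1⟩

/-- the sizes of the parts -/
def pr (D : ℕ) (s : Sym2 (Fin 10)) (i : Fin 10) : ℕ :=
  if i ∈ s then 0 else if s.IsDiag then (D + 9) / 9 else (D + 8) / 8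

theorem pr_sum (D : ℕ) (s : Sym2 (Fin 10)) : D + 1 ≤ ∑ i, pr D s i := by
  have h1 : ∀ s : Sym2 (Fin 10), (s.IsDiag → (univ.filter (fun i : Fin 10 => i ∉ s)).card = 9) ∧
      (¬ s.IsDiag → (univ.filter (fun i : Fin 10 => i ∉ s)).card = 8) := by
    intro s
    induction s using Sym2.ind with
    | _ a b =>
      have h2 : (univ.filter (fun i : Fin 10 => i ∉ s(a, b))) = univ \ {a, b} := by
        ext i
        simp [Sym2.mem_iff]
      rw [h2, card_sdiff_of_subset (subset_univ _)]
      constructor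
      · intro h
        have : a = b := h
        subst this
        simp
      · intro h
        have : a ≠ b := h
        rw [card_pair this]
        simp
  have h3 : ∑ i, pr D s i = (univ.filter (fun i : Fin 10 => i ∉ s)).card *
      if s.IsDiag then (D + 9) / 9 else (D + 8) / 8 := by
    rw [← smul_eq_mul, ← sum_const, sum_filter]
    refine sum_congr rfl fun i _ => ?_
    unfold pr
    by_cases hi : i ∈ s
    · rw [if_pos hi, if_neg (fun h => h hi)]
    · rw [if_neg hi, if_pos hi]
  rw [h3]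
  by_cases hd : s.IsDiag
  · rw [(h1 s).1 hd, if_pos hd]
    omega
  · rw [(h1 s).2 hd, if_neg hd]
    omega

theorem pr_total (D m : ℕ) (hm : 10 * (D + 1) + 90 ≤ 9 * m) (a i : Fin 10) :
    ∑ a', pr D s(a, a') i ≤ m - 1 := by
  have h1 : ∀ a' : Fin 10, pr D s(a, a') i ≤ (if a' = a then (D + 9) / 9 else 0) +
      if a' ≠ a ∧ a' ≠ i then (D + 8) / 8 else 0 := by
    intro a'
    unfold pr
    by_cases hi : i ∈ s(a, a')
    · rw [if_pos hi]
      omega
    · rw [if_neg hi]
      rw [Sym2.mem_iff] at hi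
      push Not at hi
      by_cases h2 : a' = a
      · subst h2
        simp
      · rw [if_neg (show ¬ s(a, a').IsDiag from fun h => h2 (Eq.symm h)), if_neg h2,
          if_pos ⟨h2, fun h => hi.2 h.symm⟩]
        omega
  by_cases hia : i = a
  · have h2 : ∑ a', pr D s(a, a') i = 0 := by
      refine sum_eq_zero fun a' _ => ?_
      unfold pr
      rw [if_pos (by rw [hia]; exact Sym2.mem_mk_left _ _)]
    omega
  · have h2 : ∑ a' : Fin 10, ((if a' = a then (D + 9) / 9 else 0) +
        if a' ≠ a ∧ a' ≠ i then (D + 8) / 8 else 0) = (D + 9) / 9 + 8 * ((D + 8) / 8) := by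
      rw [sum_add_distrib, sum_ite_eq' univ a, if_pos (mem_univ _), ← sum_filter, sum_const,
        smul_eq_mul]
      have h3 : (univ.filter (fun a' : Fin 10 => a' ≠ a ∧ a' ≠ i)) = univ \ {a, i} := by
        ext x
        simp
      rw [h3, card_sdiff_of_subset (subset_univ _), card_pair (Ne.symm hia)]
      simp
    have h4 := sum_le_sum fun (a' : Fin 10) (_ : a' ∈ univ) => h1 a'
    rw [h2] at h4
    omega

end JCOLAux

open JCOLAux

theorem stmt_JCOL : Stmt_JCOL.{u} := by
  intro V _ R cell D m C Ga g hD hG hm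
  have hsub : ∀ s : Sym2 (Fin 10), ∀ v, (nb (RS R cell s) v).card ≤ D := by
    intro s v
    by_cases h : ∃ a, s(cell v, a) = s
    · obtain ⟨a, ha⟩ := h
      refine le_trans (card_le_card ?_) (hD v a)
      intro w hw
      obtain ⟨h1, h2⟩ := (mem_filter.1 hw).2
      refine mem_filter.2 ⟨mem_filter.2 ⟨mem_univ _, h1⟩, ?_⟩
      rw [← ha] at h2
      exact Sym2.congr_right.1 h2
    · have h0 : nb (RS R cell s) v = ∅ := by
        rw [eq_empty_iff_forall_notMem]
        intro w hw
        exact h ⟨cell w, (mem_filter.1 hw).2.2⟩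
      rw [h0, card_empty]
      exact Nat.zero_le _
  have hsp : ∀ s : Sym2 (Fin 10), ∃ τ : V → V → Fin 10, (∀ v w, τ v w = τ w v) ∧
      ∀ v i, ((nb (RS R cell s) v).filter (fun w => τ v w = i)).card ≤ pr D s i := by
    intro s
    obtain ⟨τ, h1, h2⟩ := stmt_SPLIT (RS R cell s) D (Fin 10) (pr D s) (hsub s) (pr_sum D s)
    refine ⟨τ, h1, fun v i => ?_⟩
    convert h2 v i
  choose τ hτs hτ using hsp
  set T : V → V → Fin 10 := fun v w => τ s(cell v, cell w) v w with hT
  have hTs : ∀ v w, T v w = T w v := by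
    intro v w
    simp only [hT]
    rw [hτs, Sym2.eq_swap]
  -- the parts
  set J : Fin 10 → SimpleGraph V := fun i => JS R T hTs i with hJd
  have hJ : ∀ i v, (nb (J i) v).card ≤ m - 1 := by
    intro i v
    have h1 : nb (J i) v ⊆ univ.biUnion (fun a : Fin 10 =>
        (nb (RS R cell s(cell v, a)) v).filter (fun w => τ s(cell v, a) v w = i)) := by
      intro w hw
      obtain ⟨h1, h2⟩ := (mem_filter.1 hw).2
      exact mem_biUnion.2 ⟨cell w, mem_univ _, mem_filter.2 ⟨mem_filter.2 ⟨mem_univ _, h1, rfl⟩,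
        h2⟩⟩
    refine (card_le_card h1).trans (card_biUnion_le.trans ?_)
    exact (sum_le_sum fun a _ => hτ s(cell v, a) v i).trans (pr_total D m hm (cell v) i)
  have hav : ∀ v w, R.Adj v w → T v w ≠ cell v ∧ T v w ≠ cell w := by
    intro v w h
    have h1 : T v w ∉ s(cell v, cell w) := by
      intro h2
      have h3 := hτ s(cell v, cell w) v (T v w)
      unfold pr at h3
      rw [if_pos h2] at h3
      have h4 : w ∈ (nb (RS R cell s(cell v, cell w)) v).filter
          (fun w' => τ s(cell v, cell w) v w' = T v w) :=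
        mem_filter.2 ⟨mem_filter.2 ⟨mem_univ _, h, rfl⟩, rfl⟩
      have h5 := card_pos.2 ⟨w, h4⟩
      omega
    rw [Sym2.mem_iff] at h1
    push Not at h1
    exact h1
  have hm1 : 1 ≤ m := by omega
  have hviz : ∀ i, ∃ t : V → V → ℕ, (∀ v w, t v w = t w v) ∧ (∀ v w, t v w < m) ∧
      ∀ v, Set.InjOn (t v) (nb (J i) v : Set V) := by
    intro i
    obtain ⟨t, h1, h2, h3⟩ := MP_db9399_all.stmt_VIZ (J i) (m - 1) (hJ i)
    exact ⟨t, h1, fun v w => by have := h2 v w; omega, h3⟩
  choose t ht1 ht2 ht3 using hviz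
  have hemb : ∀ i, ∃ e : Fin m → C, Function.Injective e ∧ ∀ x, e x ∈ Ga ∧ g (e x) = i := by
    intro i
    have h1 : Fintype.card (Fin m) ≤ Fintype.card {b // b ∈ Ga.filter (fun b => g b = i)} := by
      rw [Fintype.card_fin, Fintype.card_coe]
      exact hG i
    obtain ⟨e⟩ := Function.Embedding.nonempty_of_card_le h1
    exact ⟨fun x => (e x).1, fun x y h => e.injective (Subtype.ext h),
      fun x => mem_filter.1 (e x).2⟩
  choose e he1 he2 using hemb
  refine ⟨fun v w => e (T v w) ⟨t (T v w) v w, ht2 _ _ _⟩, ⟨fun v w => ?_, fun v => ?_⟩,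
    fun v w h => ⟨(he2 _ _).1, ?_, ?_⟩⟩
  · simp only [hTs v w, ht1 _ v w]
  · intro w hw w' hw' h
    have hw1 : R.Adj v w := (mem_filter.1 (mem_coe.1 hw)).2
    have hw2 : R.Adj v w' := (mem_filter.1 (mem_coe.1 hw')).2
    have h1 : T v w = T v w' := by
      have h2 := congrArg g h
      simp only [(he2 _ _).2] at h2
      exact h2
    simp only [← h1] at h
    have h3 := he1 _ h
    have h4 : t (T v w) v w = t (T v w) v w' := by simpa using h3
    exact ht3 (T v w) v (mem_coe.2 (mem_filter.2 ⟨mem_univ _, hw1, rfl⟩))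
      (mem_coe.2 (mem_filter.2 ⟨mem_univ _, hw2, h1.symm⟩)) h4
  · rw [(he2 _ _).2]
    exact (hav v w h).1
  · rw [(he2 _ _).2]
    exact (hav v w h).2

end Pool.Agent.Work.MP_db9399_qr
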