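import Pool.Agent.Work.MP_db9399_qr.Interface

/-!
# Block TASK: the cross matchings (helper75)
-/

set_option autoImplicit false

namespace Pool.Agent.Work.MP_db9399_qr

open Finset Classical
open Pool.Agent.Work.MP_db9399_all (nb)
open _root_.MP_db9399_co

universe u

namespace TASKAux

theorem mem_nb {V : Type u} [Fintype V] {G : SimpleGraph V} {v w : V} :
    w ∈ nb G v ↔ G.Adj v w := by
  simp [nb]

section ctx
variable {V : Type u} [Fintype V] {k d : ℕ} {G : SimpleGraph V} {U : Finset V}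
    {F : V → Finset (Fin k)} (X : Ctx k d G U F)

/-! ### Types of the cross edges -/

/-- cross edges between the cell `i` of the side `true` and the cell `j` of the side `false` -/
def Rij (i j : Fin 10) : SimpleGraph V where
  Adj v w := G.Adj v w ∧ ((X.side v = true ∧ X.cell v = i ∧ X.side w = false ∧ X.cell w = j) ∨
    (X.side w = true ∧ X.cell w = i ∧ X.side v = false ∧ X.cell v = j))
  symm := ⟨fun _ _ h => ⟨h.1.symm, h.2.symm⟩⟩
  loopless := ⟨fun _ h => G.loopless.irrefl _ h.1⟩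

/-- neighbours on the other side in the cell `κ` -/
noncomputable def nbc (v : V) (κ : Fin 10) : Finset V :=
  (nb G v).filter (fun w => X.side w = !X.side v ∧ X.cell w = κ)

theorem nbc_card (v : V) (κ : Fin 10) :
    |((nbc X v κ).card : ℝ) - (d : ℝ) / 20| ≤ de * d := X.cellU v _ κ

theorem types (hS : Stmt_SPLIT.{u}) : ∃ (D e : ℕ) (τ : V → V → Fin 3),
    (D : ℝ) ≤ (1 / 20 + de) * d ∧ (1 / 20 + de) * d < (D : ℝ) + 1 ∧ 10 * e ≤ D + 1 ∧
    D + 1 < 10 * e + 10 ∧ (∀ v w, X.side v ≠ X.side w → τ v w = τ w v) ∧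
    (∀ v κ, ((nbc X v κ).filter (fun w => τ v w = 0)).card + 2 * e ≤ D + 1) ∧
    (∀ v κ, ((nbc X v κ).filter (fun w => τ v w = 1)).card ≤ e) ∧
    (∀ v κ, ((nbc X v κ).filter (fun w => τ v w = 2)).card ≤ e) := by
  set D := ⌊(1 / 20 + de) * (d : ℝ)⌋₊ with hD
  set e := (D + 1) / 10 with he
  have hnn : (0 : ℝ) ≤ (1 / 20 + de) * d := by unfold de; positivity
  have hDle : (D : ℝ) ≤ (1 / 20 + de) * d := Nat.floor_le hnn
  have h2e : 2 * e ≤ D + 1 := by omega
  have h1 : ∀ i j : Fin 10, ∃ τ : V → V → Fin 3, (∀ v w, τ v w = τ w v) ∧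
      ∀ v t, ((nb (Rij X i j) v).filter (fun w => τ v w = t)).card ≤
        (![D + 1 - 2 * e, e, e] : Fin 3 → ℕ) t := by
    intro i j
    obtain ⟨τ, hτ1, hτ2⟩ := hS (Rij X i j) D (Fin 3) (![D + 1 - 2 * e, e, e] : Fin 3 → ℕ) (by
      intro v
      have hsub : nb (Rij X i j) v ⊆ nbc X v (if X.side v = true then j else i) := by
        intro w hw
        rw [mem_nb] at hw
        obtain ⟨h1, h2⟩ := hw
        unfold nbc
        rw [Finset.mem_filter, mem_nb]
        refine ⟨h1, ?_⟩
        rcases h2 with ⟨a1, a2, a3, a4⟩ | ⟨a1, a2, a3, a4⟩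
        · rw [a1, a3, a4]; simp
        · rw [a3, a1, a2]; simp
      have h2 := (abs_le.1 (nbc_card X v (if X.side v = true then j else i))).2
      have h3 : ((nb (Rij X i j) v).card : ℝ) ≤ (1 / 20 + de) * d := by
        have : ((nb (Rij X i j) v).card : ℝ) ≤
            ((nbc X v (if X.side v = true then j else i)).card : ℝ) := by
          exact_mod_cast Finset.card_le_card hsub
        linarith
      exact Nat.le_floor h3) (by
      simp only [Fin.sum_univ_three, Matrix.cons_val_zero, Matrix.cons_val_one,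
        Matrix.cons_val]
      omega)
    refine ⟨τ, hτ1, fun v t => ?_⟩
    have h5 := hτ2 v t
    convert h5
  choose τ' hτs hτc using h1
  have key : ∀ v κ t, ((nbc X v κ).filter (fun w =>
      (if X.side v = true then τ' (X.cell v) (X.cell w) v w
        else τ' (X.cell w) (X.cell v) v w) = t)).card ≤
      (![D + 1 - 2 * e, e, e] : Fin 3 → ℕ) t := by
    intro v κ t
    cases hv : X.side v with
    | true =>
      refine (Finset.card_le_card ?_).trans (hτc (X.cell v) κ v t)
      intro w hw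
      simp only [nbc, Finset.mem_filter, mem_nb, hv, if_true] at hw ⊢
      obtain ⟨⟨h1, h2, h3⟩, h4⟩ := hw
      rw [h3] at h4
      exact ⟨⟨h1, Or.inl ⟨hv, rfl, by simpa using h2, h3⟩⟩, h4⟩
    | false =>
      refine (Finset.card_le_card ?_).trans (hτc κ (X.cell v) v t)
      intro w hw
      simp only [nbc, Finset.mem_filter, mem_nb, hv, Bool.false_eq_true, if_false] at hw ⊢
      obtain ⟨⟨h1, h2, h3⟩, h4⟩ := hw
      rw [h3] at h4
      exact ⟨⟨h1, Or.inr ⟨by simpa using h2, h3, hv, rfl⟩⟩, h4⟩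
  refine ⟨D, e, fun v w => if X.side v = true then τ' (X.cell v) (X.cell w) v w
    else τ' (X.cell w) (X.cell v) v w, hDle, Nat.lt_floor_add_one _, by omega, by omega, ?_,
    ?_, ?_, ?_⟩
  · intro v w hvw
    cases hv : X.side v with
    | true =>
      have hw : X.side w = false := by
        cases hw : X.side w with
        | true => exact absurd (hv.trans hw.symm) hvw
        | false => rfl
      simp only [hv, hw, if_true, Bool.false_eq_true, if_false]
      exact hτs _ _ _ _
    | false =>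
      have hw : X.side w = true := by
        cases hw : X.side w with
        | false => exact absurd (hv.trans hw.symm) hvw
        | true => rfl
      simp only [hv, hw, if_true, Bool.false_eq_true, if_false]
      exact hτs _ _ _ _
  · intro v κ
    have := key v κ 0
    simp only [Matrix.cons_val_zero] at this
    beta_reduce
    omega
  · intro v κ
    have := key v κ 1
    simpa using this
  · intro v κ
    have := key v κ 2
    simpa using this

/-! ### Lower bounds for the number of edges of each type -/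

theorem low {D e : ℕ} {τ : V → V → Fin 3} (h1 : (D : ℝ) ≤ (1 / 20 + de) * d)
    (_h2' : (1 / 20 + de) * d < (D : ℝ) + 1) (h3 : 10 * e ≤ D + 1) (h4 : D + 1 < 10 * e + 10)
    (k0 : ∀ v κ, ((nbc X v κ).filter (fun w => τ v w = 0)).card + 2 * e ≤ D + 1)
    (k1 : ∀ v κ, ((nbc X v κ).filter (fun w => τ v w = 1)).card ≤ e)
    (k2 : ∀ v κ, ((nbc X v κ).filter (fun w => τ v w = 2)).card ≤ e) (v : V) (κ : Fin 10) :
    0.0399 * (d : ℝ) ≤ (((nbc X v κ).filter (fun w => τ v w = 0)).card : ℝ) ∧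
    0.0049 * (d : ℝ) ≤ (((nbc X v κ).filter (fun w => τ v w = 1)).card : ℝ) ∧
    0.0049 * (d : ℝ) ≤ (((nbc X v κ).filter (fun w => τ v w = 2)).card : ℝ) := by
  have h5 := (abs_le.1 (nbc_card X v κ)).1
  have hsum : (nbc X v κ).card = ((nbc X v κ).filter (fun w => τ v w = 0)).card +
      ((nbc X v κ).filter (fun w => τ v w = 1)).card +
      ((nbc X v κ).filter (fun w => τ v w = 2)).card := by
    rw [Finset.card_eq_sum_card_fiberwise (f := fun w => τ v w) (t := univ)
      (fun w _ => Finset.mem_univ _), Fin.sum_univ_three]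
  have hsumr : ((nbc X v κ).card : ℝ) = (((nbc X v κ).filter (fun w => τ v w = 0)).card : ℝ) +
      (((nbc X v κ).filter (fun w => τ v w = 1)).card : ℝ) +
      (((nbc X v κ).filter (fun w => τ v w = 2)).card : ℝ) := by exact_mod_cast hsum
  have e0 : (((nbc X v κ).filter (fun w => τ v w = 0)).card : ℝ) + 2 * (e : ℝ) ≤ (D : ℝ) + 1 := by
    exact_mod_cast k0 v κ
  have e1 : (((nbc X v κ).filter (fun w => τ v w = 1)).card : ℝ) ≤ (e : ℝ) := by
    exact_mod_cast k1 v κ
  have e2 : (((nbc X v κ).filter (fun w => τ v w = 2)).card : ℝ) ≤ (e : ℝ) := by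
    exact_mod_cast k2 v κ
  have e3 : 10 * (e : ℝ) ≤ (D : ℝ) + 1 := by exact_mod_cast h3
  have e4 : (D : ℝ) + 1 ≤ 10 * (e : ℝ) + 10 := by exact_mod_cast h4.le
  have e5 : (10 : ℝ) ^ 30 ≤ d := by exact_mod_cast X.dbig
  unfold de at *
  refine ⟨?_, ?_, ?_⟩
  · linarith
  · linarith
  · linarith

/-! ### The tasks -/

variable (I : Ins X)

/-- the vertices to be covered in the task -/
noncomputable def W (a : Fin k ⊕ Fin 4) : Finset V :=
  match a with
  | Sum.inl b => if b ∈ X.Ga ∪ X.Pe then W0 X.R U F I.c I.t b else ∅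
  | Sum.inr j => univ \ ZQ X.side F (univ \ (X.Ga ∪ X.Pe)) j

/-- the larger side -/
noncomputable def sg (a : Fin k ⊕ Fin 4) : Bool := decide (0 ≤ imb X.side (W X I a))

/-- the two cells of the side `s` which can be touched by the inside edges of the task -/
noncomputable def tc (a : Fin k ⊕ Fin 4) (s : Bool) : Fin 10 × Fin 10 :=
  match a with
  | Sum.inl b => if b ∈ X.Pe then (if s = true then ((X.ty b).1, (X.ty b).2.1) else
      ((X.ty b).2.2.1, (X.ty b).2.2.2)) else (1, 1)
  | Sum.inr _ => (1, 1)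

/-- a third cell -/
def fr (c1 c2 : Fin 10) : Fin 10 :=
  if 0 ≠ c1 ∧ 0 ≠ c2 then 0 else if 1 ≠ c1 ∧ 1 ≠ c2 then 1 else 2

theorem fr_ne (c1 c2 : Fin 10) : fr c1 c2 ≠ c1 ∧ fr c1 c2 ≠ c2 := by
  revert c1 c2
  decide

/-- the task of a good colour -/
def isG (a : Fin k ⊕ Fin 4) : Prop := ∃ b ∈ I.Gd, a = Sum.inl b

/-- an actual task -/
def isT (a : Fin k ⊕ Fin 4) : Prop := ∀ b, a = Sum.inl b → b ∈ X.Ga ∪ X.Pe

/-- the cell in which the missed vertices are chosen -/
noncomputable def kap (a : Fin k ⊕ Fin 4) : Fin 10 :=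
  match a with
  | Sum.inl b => if b ∈ I.Gd then (if sg X I (Sum.inl b) = true then X.gi b else X.gj b) else
      fr (tc X (Sum.inl b) (sg X I (Sum.inl b))).1 (tc X (Sum.inl b) (sg X I (Sum.inl b))).2
  | Sum.inr j => fr (tc X (Sum.inr j) (sg X I (Sum.inr j))).1
      (tc X (Sum.inr j) (sg X I (Sum.inr j))).2

variable {X I}

theorem Gd_Pe {b : Fin k} (h : b ∈ I.Gd) : b ∉ X.Pe :=
  fun h' => Finset.disjoint_left.1 X.disj (I.Gdsub h) h'

/-- covered by an inside edge of colour `b` -/
theorem cov_cases {b : Fin k} {v : V} (h : v ∈ cov X.R I.t b) :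
    (b ∈ I.Gd ∧ ¬ X.idl b v) ∨ (b ∈ X.Pe ∧
      (X.cell v = (tc X (Sum.inl b) (X.side v)).1 ∨ X.cell v = (tc X (Sum.inl b) (X.side v)).2)) := by
  simp only [cov, Finset.mem_filter, Finset.mem_univ, true_and] at h
  obtain ⟨w, hw, hb⟩ := h
  rcases I.tcol v w hw with ⟨h1, h2⟩ | ⟨h1, h2, h3⟩
  · left
    rw [hb] at h1 h2
    exact ⟨h1, h2⟩
  · right
    rw [hb] at h1 h2 h3
    refine ⟨h1, ?_⟩
    simp only [tc, if_pos h1]
    cases hs : X.side v with
    | true => simpa using h2 hs
    | false => simpa using h3 hs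

theorem memW_G {b : Fin k} (hb : b ∈ I.Gd) {w : V} (hi : X.idl b w) (hU : w ∉ U)
    (hc : I.c w ≠ b) : w ∈ W X I (Sum.inl b) := by
  have h1 : b ∈ X.Ga ∪ X.Pe := Finset.mem_union_left _ (I.Gdsub hb)
  simp only [W, if_pos h1, W0, Finset.mem_filter, Finset.mem_univ, true_and]
  refine ⟨fun h => hc h.2, ?_, ?_⟩
  · rw [X.F0 w hU]; simp
  · intro h
    rcases cov_cases h with h2 | h2
    · exact h2.2 hi
    · exact Gd_Pe hb h2.1

theorem memW_O {a : Fin k ⊕ Fin 4} (ha : ¬ isG X I a) (hT : isT X a) {w : V} (hU : w ∉ U)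
    (h1 : X.cell w ≠ (tc X a (X.side w)).1) (h2 : X.cell w ≠ (tc X a (X.side w)).2) :
    w ∈ W X I a := by
  cases a with
  | inl b =>
    have hb := hT b rfl
    have hbG : b ∉ I.Gd := fun h => ha ⟨b, h, rfl⟩
    simp only [W, if_pos hb, W0, Finset.mem_filter, Finset.mem_univ, true_and]
    refine ⟨fun h => hbG (h.2 ▸ (I.cG w).1), ?_, ?_⟩
    · rw [X.F0 w hU]; simp
    · intro h
      rcases cov_cases h with h3 | h3
      · exact hbG h3.1
      · rcases h3.2 with h4 | h4
        · exact h1 h4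
        · exact h2 h4
  | inr j =>
    simp only [W, ZQ, Finset.mem_sdiff, Finset.mem_univ, true_and, Finset.mem_filter, not_and]
    intro _
    rw [X.F0 w hU]
    simp

/-! ### Missed vertices -/

variable (X I)

/-- number of missed vertices -/
noncomputable def zz (a : Fin k ⊕ Fin 4) : ℕ := (imb X.side (W X I a)).natAbs

/-- candidates for missed vertices -/
noncomputable def Cand (a : Fin k ⊕ Fin 4) : Finset V :=
  univ.filter (fun v => X.side v = sg X I a ∧ X.cell v = kap X I a ∧ v ∉ U ∧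
    ∀ b, a = Sum.inl b → I.c v ≠ b)

variable {X I}

theorem kap_G {b : Fin k} (hb : b ∈ I.Gd) :
    kap X I (Sum.inl b) = if sg X I (Sum.inl b) = true then X.gi b else X.gj b := by
  simp only [kap, if_pos hb]

theorem kap_O {a : Fin k ⊕ Fin 4} (ha : ¬ isG X I a) :
    kap X I a = fr (tc X a (sg X I a)).1 (tc X a (sg X I a)).2 := by
  cases a with
  | inl b =>
    have hbG : b ∉ I.Gd := fun h => ha ⟨b, h, rfl⟩
    simp only [kap, if_neg hbG]
  | inr j => simp only [kap]

theorem cand_sub {a : Fin k ⊕ Fin 4} (hT : isT X a) : Cand X I a ⊆ W X I a := by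
  intro v hv
  simp only [Cand, Finset.mem_filter, Finset.mem_univ, true_and] at hv
  obtain ⟨h1, h2, h3, h4⟩ := hv
  by_cases ha : isG X I a
  · obtain ⟨b, hb, rfl⟩ := ha
    rw [kap_G hb] at h2
    refine memW_G hb ?_ h3 (h4 b rfl)
    refine ⟨fun hs => ?_, fun hs => ?_⟩
    · rw [← h1, hs, if_pos rfl] at h2
      exact h2.symm
    · rw [← h1, hs, if_neg (by simp)] at h2
      exact h2.symm
  · rw [kap_O ha] at h2
    refine memW_O ha hT h3 ?_ ?_
    · rw [h1, h2]
      exact (fr_ne _ _).1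
    · rw [h1, h2]
      exact (fr_ne _ _).2

theorem n_pos (X : Ctx k d G U F) : (10 : ℝ) ^ 30 ≤ d ∧ 3 * (d : ℝ) ≤ Fintype.card V := by
  refine ⟨by exact_mod_cast X.dbig, by exact_mod_cast X.n3⟩

theorem U_small (X : Ctx k d G U F) : (U.card : ℝ) * 10 ^ 30 ≤ 3 * (Fintype.card V : ℝ) := by
  have h := X.Ucard
  have h1 : (10 : ℝ) ^ 30 ≤ d := by exact_mod_cast X.dbig
  have h2 : (0 : ℝ) ≤ U.card := Nat.cast_nonneg _
  nlinarith

theorem cls_small (b : Fin k) :
    ((univ.filter (fun v => I.c v = b)).card : ℝ) ≤ th / 4 * Fintype.card V := by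
  apply X.ind
  intro v hv w hw hvw
  simp only [Finset.mem_filter, Finset.mem_univ, true_and] at hv hw
  exact I.cadj v w hvw (hv.trans hw.symm)

theorem cand_card (a : Fin k ⊕ Fin 4) :
    0.0499 * (Fintype.card V : ℝ) ≤ ((Cand X I a).card : ℝ) := by
  have h1 : (univ.filter (fun v => X.side v = sg X I a ∧ X.cell v = kap X I a)) ⊆
      (Cand X I a ∪ U) ∪ univ.filter (fun v => ∃ b, a = Sum.inl b ∧ I.c v = b) := by
    intro v hv
    simp only [Cand, Finset.mem_filter, Finset.mem_univ, true_and, Finset.mem_union] at hv ⊢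
    by_cases hU : v ∈ U
    · exact Or.inl (Or.inr hU)
    by_cases hb : ∃ b, a = Sum.inl b ∧ I.c v = b
    · exact Or.inr hb
    · left; left
      refine ⟨hv.1, hv.2, hU, fun b hab hcb => hb ⟨b, hab, hcb⟩⟩
  have h2 : ((univ.filter (fun v => ∃ b, a = Sum.inl b ∧ I.c v = b)).card : ℝ) ≤
      th / 4 * Fintype.card V := by
    cases a with
    | inl b =>
      refine le_trans ?_ (cls_small (X := X) (I := I) b)
      have : (univ.filter (fun v => ∃ b', (Sum.inl b : Fin k ⊕ Fin 4) = Sum.inl b' ∧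
          I.c v = b')).card ≤ (univ.filter (fun v => I.c v = b)).card := by
        refine Finset.card_le_card fun v hv => ?_
        simp only [Finset.mem_filter, Finset.mem_univ, true_and] at hv ⊢
        obtain ⟨b', hb', hv'⟩ := hv
        rw [hv', Sum.inl.inj hb']
      exact_mod_cast this
    | inr j =>
      have : (univ.filter (fun v => ∃ b', (Sum.inr j : Fin k ⊕ Fin 4) = Sum.inl b' ∧
          I.c v = b')) = ∅ := by
        ext v
        simp
      rw [this]
      unfold th
      simp only [Finset.card_empty, Nat.cast_zero]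
      positivity
  have h3 : ((univ.filter (fun v => X.side v = sg X I a ∧ X.cell v = kap X I a)).card : ℝ) ≤
      ((Cand X I a).card : ℝ) + U.card +
        ((univ.filter (fun v => ∃ b, a = Sum.inl b ∧ I.c v = b)).card : ℝ) := by
    have := (Finset.card_le_card h1).trans ((Finset.card_union_le _ _).trans
      (Nat.add_le_add_right (Finset.card_union_le _ _) _))
    exact_mod_cast this
  have h4 := (abs_le.1 (X.cellsz (sg X I a) (kap X I a))).1
  have h5 := U_small X
  unfold de at h4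
  unfold th at h2
  linarith

theorem z_G {b : Fin k} (hb : b ∈ I.Gd) : zz X I (Sum.inl b) ≤ 2 := by
  have h1 : b ∈ X.Ga ∪ X.Pe := Finset.mem_union_left _ (I.Gdsub hb)
  have h := abs_le.1 (I.imbG b hb)
  simp only [zz, W, if_pos h1]
  omega

theorem imb_empty : imb X.side (∅ : Finset V) = 0 := by
  simp [imb]

theorem z_0 {b : Fin k} (hb : b ∉ X.Ga ∪ X.Pe) : zz X I (Sum.inl b) = 0 := by
  simp only [zz, W, if_neg hb, imb_empty, Int.natAbs_zero]

theorem z_P : ((∑ b ∈ X.Pe ∪ (X.Ga \ I.Gd), zz X I (Sum.inl b) : ℕ) : ℝ) ≤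
    d / 1000 + 20 * U.card := by
  refine le_trans (le_of_eq ?_) I.imbP
  push_cast
  refine Finset.sum_congr rfl fun b hb => ?_
  have h1 : b ∈ X.Ga ∪ X.Pe := by
    rcases Finset.mem_union.1 hb with h | h
    · exact Finset.mem_union_right _ h
    · exact Finset.mem_union_left _ (Finset.mem_sdiff.1 h).1
  simp only [zz, W, if_pos h1]
  rw [Nat.cast_natAbs, Int.cast_abs]

theorem ZQ_sub (L : Finset (Fin k)) (j : Fin 4) : ZQ X.side F L j ⊆ U := by
  intro v hv
  by_contra hU
  simp only [ZQ, Finset.mem_filter, Finset.mem_univ, true_and] at hv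
  rw [X.F0 v hU] at hv
  simp at hv

theorem z_R (j : Fin 4) : zz X I (Sum.inr j) ≤ 1 + U.card := by
  have h1 := X.sides
  have h2 := X.p1
  set Q := ZQ X.side F (univ \ (X.Ga ∪ X.Pe)) j with hQ
  have hQU : Q.card ≤ U.card := Finset.card_le_card (ZQ_sub _ _)
  have h3 : ∀ s : Bool, ((univ \ Q) ∩ sd X.side s).card + (Q ∩ sd X.side s).card =
      (sd X.side s).card := by
    intro s
    rw [← Finset.card_union_of_disjoint]
    · congr 1
      ext v
      simp only [Finset.mem_union, Finset.mem_inter, Finset.mem_sdiff, Finset.mem_univ, true_and]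
      tauto
    · rw [Finset.disjoint_left]
      intro v hv hv'
      simp only [Finset.mem_inter, Finset.mem_sdiff] at hv hv'
      exact hv.1.2 hv'.1
  have h4 : (Q ∩ sd X.side true).card + (Q ∩ sd X.side false).card ≤ Q.card := by
    rw [← Finset.card_union_of_disjoint]
    · refine Finset.card_le_card fun v hv => ?_
      simp only [Finset.mem_union, Finset.mem_inter] at hv
      rcases hv with h | h
      · exact h.1
      · exact h.1
    · rw [Finset.disjoint_left]
      intro v hv hv'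
      simp only [Finset.mem_inter, sd, Finset.mem_filter, Finset.mem_univ, true_and] at hv hv'
      rw [hv.2] at hv'
      exact absurd hv'.2 (by simp)
  have h5 := h3 true
  have h6 := h3 false
  simp only [zz, W, imb, ← hQ]
  omega

theorem grp_i (i : Fin 10) : (X.Ga.filter (fun b => X.gi b = i)).card = 10 * X.q := by
  rw [Finset.card_eq_sum_card_fiberwise (f := fun b => X.gj b) (t := univ)
      (fun w _ => Finset.mem_univ _)]
  have : ∀ j : Fin 10, ((X.Ga.filter (fun b => X.gi b = i)).filter (fun b => X.gj b = j)).card =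
      X.q := by
    intro j
    rw [Finset.filter_filter]
    exact X.Gaq i j
  rw [Finset.sum_congr rfl fun j _ => this j]
  simp

theorem grp_j (j : Fin 10) : (X.Ga.filter (fun b => X.gj b = j)).card = 10 * X.q := by
  rw [Finset.card_eq_sum_card_fiberwise (f := fun b => X.gi b) (t := univ)
      (fun w _ => Finset.mem_univ _)]
  have : ∀ i : Fin 10, ((X.Ga.filter (fun b => X.gj b = j)).filter (fun b => X.gi b = i)).card =
      X.q := by
    intro i
    rw [Finset.filter_filter, ← X.Gaq i j]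
    congr 1
    refine Finset.filter_congr fun b _ => ?_
    tauto
  rw [Finset.sum_congr rfl fun j _ => this j]
  simp

/-- the colours of `Ga` idle on the side `s` in the cell `κ` -/
noncomputable def GG (X : Ctx k d G U F) (s : Bool) (κ : Fin 10) : Finset (Fin k) :=
  X.Ga.filter (fun b => (if s = true then X.gi b else X.gj b) = κ)

theorem GG_card (s : Bool) (κ : Fin 10) : (GG X s κ).card = 10 * X.q := by
  cases s with
  | true => simpa [GG] using grp_i (X := X) κ
  | false => simpa [GG] using grp_j (X := X) κ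

theorem z_sum (t : Fin k ⊕ Fin 4) :
    ((∑ t' ∈ univ.filter (fun t' => ¬ Disjoint (Cand X I t') (Cand X I t)), zz X I t' : ℕ) : ℝ) ≤
      20 * X.q + (d / 1000 + 20 * U.card) + 4 * (1 + U.card) := by
  rw [Finset.sum_filter, Fintype.sum_sum_type]
  have h1 : ∑ b : Fin k, (if ¬ Disjoint (Cand X I (Sum.inl b)) (Cand X I t) then
      zz X I (Sum.inl b) else 0) ≤ 2 * (GG X (sg X I t) (kap X I t)).card +
      ∑ b ∈ X.Pe ∪ (X.Ga \ I.Gd), zz X I (Sum.inl b) := by
    have h2 : ∀ b : Fin k, (if ¬ Disjoint (Cand X I (Sum.inl b)) (Cand X I t) then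
      zz X I (Sum.inl b) else 0) ≤ (if b ∈ GG X (sg X I t) (kap X I t) then 2 else 0) +
      (if b ∈ X.Pe ∪ (X.Ga \ I.Gd) then zz X I (Sum.inl b) else 0) := by
      intro b
      by_cases hbG : b ∈ I.Gd
      · by_cases hdis : Disjoint (Cand X I (Sum.inl b)) (Cand X I t)
        · rw [if_neg (not_not.2 hdis)]
          exact Nat.zero_le _
        · rw [if_pos hdis]
          obtain ⟨v, hv, hv'⟩ := Finset.not_disjoint_iff.1 hdis
          simp only [Cand, Finset.mem_filter, Finset.mem_univ, true_and] at hv hv'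
          have h3 : b ∈ GG X (sg X I t) (kap X I t) := by
            simp only [GG, Finset.mem_filter]
            refine ⟨I.Gdsub hbG, ?_⟩
            rw [← hv'.2.1, hv.2.1, kap_G hbG, ← hv'.1, hv.1]
          rw [if_pos h3]
          exact (z_G hbG).trans (Nat.le_add_right _ _)
      · by_cases hb : b ∈ X.Ga ∪ X.Pe
        · have h3 : b ∈ X.Pe ∪ (X.Ga \ I.Gd) := by
            rcases Finset.mem_union.1 hb with h | h
            · exact Finset.mem_union_right _ (Finset.mem_sdiff.2 ⟨h, hbG⟩)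
            · exact Finset.mem_union_left _ h
          rw [if_pos h3]
          split_ifs <;> omega
        · rw [z_0 hb]
          split_ifs <;> omega
    refine (Finset.sum_le_sum fun b _ => h2 b).trans ?_
    rw [Finset.sum_add_distrib]
    refine Nat.add_le_add ?_ ?_
    · rw [Finset.sum_ite_mem, Finset.univ_inter, Finset.sum_const, smul_eq_mul, mul_comm]
    · rw [Finset.sum_ite_mem, Finset.univ_inter]
  have h4 : ∑ j : Fin 4, (if ¬ Disjoint (Cand X I (Sum.inr j)) (Cand X I t) then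
      zz X I (Sum.inr j) else 0) ≤ 4 * (1 + U.card) := by
    refine (Finset.sum_le_card_nsmul _ _ (1 + U.card) fun j _ => ?_).trans (by simp)
    split_ifs
    · exact Nat.zero_le _
    · exact z_R j
  rw [GG_card] at h1
  have h5 : ((∑ b : Fin k, (if ¬ Disjoint (Cand X I (Sum.inl b)) (Cand X I t) then
      zz X I (Sum.inl b) else 0) : ℕ) : ℝ) ≤ ((2 * (10 * X.q) +
      ∑ b ∈ X.Pe ∪ (X.Ga \ I.Gd), zz X I (Sum.inl b) : ℕ) : ℝ) := by exact_mod_cast h1
  have h6 : ((∑ j : Fin 4, (if ¬ Disjoint (Cand X I (Sum.inr j)) (Cand X I t) then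
      zz X I (Sum.inr j) else 0) : ℕ) : ℝ) ≤ ((4 * (1 + U.card) : ℕ) : ℝ) := by exact_mod_cast h4
  have h7 := z_P (X := X) (I := I)
  rw [Nat.cast_add] at h5
  push_cast at h5 h6 h7 ⊢
  linarith

theorem z_bound (t : Fin k ⊕ Fin 4) :
    ∑ t' ∈ univ.filter (fun t' => ¬ Disjoint (Cand X I t') (Cand X I t)), zz X I t' ≤
      (Cand X I t).card := by
  have h1 := z_sum (X := X) (I := I) t
  have h2 := cand_card (X := X) (I := I) t
  have h3 := X.qhi
  have h4 := U_small X
  obtain ⟨h5, h6⟩ := n_pos X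
  have h7 : ((∑ t' ∈ univ.filter (fun t' => ¬ Disjoint (Cand X I t') (Cand X I t)),
      zz X I t' : ℕ) : ℝ) ≤ ((Cand X I t).card : ℝ) := by
    unfold de at h3
    linarith
  exact_mod_cast h7

theorem z_le (t : Fin k ⊕ Fin 4) : zz X I t ≤ (Cand X I t).card := by
  refine le_trans ?_ (z_bound (X := X) (I := I) t)
  have h : t ∈ univ.filter (fun t' => ¬ Disjoint (Cand X I t') (Cand X I t)) := by
    rw [Finset.mem_filter]
    refine ⟨Finset.mem_univ _, ?_⟩
    have h2 := cand_card (X := X) (I := I) t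
    obtain ⟨h5, h6⟩ := n_pos X
    have h7 : (0 : ℝ) < ((Cand X I t).card : ℝ) := by linarith
    have h8 : 0 < (Cand X I t).card := by exact_mod_cast h7
    obtain ⟨v, hv⟩ := Finset.card_pos.1 h8
    exact Finset.not_disjoint_iff.2 ⟨v, hv, hv⟩
  exact Finset.single_le_sum (f := fun t' => zz X I t') (fun _ _ => Nat.zero_le _) h

/-! ### Admissible and used edges -/

/-- the type of the edges between a non idle vertex on the side `s` and an idle vertex -/
def st (s : Bool) : Fin 3 := if s = true then 1 else 2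

theorem st_ne_zero (s : Bool) : st s ≠ 0 := by cases s <;> decide

theorem st_inj {s s' : Bool} (h : st s = st s') : s = s' := by
  revert h
  cases s <;> cases s' <;> decide

variable (X I)

/-- admissible cross edges of the task -/
def Al (τ : V → V → Fin 3) (a : Fin k ⊕ Fin 4) (v w : V) : Prop :=
  G.Adj v w ∧ X.side v ≠ X.side w ∧ ∀ b ∈ I.Gd, a = Sum.inl b →
    (X.idl b v ∧ X.idl b w ∧ τ v w = 0) ∨ (¬ X.idl b v ∧ X.idl b w ∧ τ v w = st (X.side v)) ∨
    (X.idl b v ∧ ¬ X.idl b w ∧ τ v w = st (X.side w))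

/-- the requirement of the task -/
def PP (τ : V → V → Fin 3) (Z : Fin k ⊕ Fin 4 → Finset V) (a : Fin k ⊕ Fin 4)
    (M : Finset (V × V)) : Prop :=
  (∀ e ∈ M, Al X I τ a e.1 e.2 ∧ X.side e.1 = true ∧ X.side e.2 = false) ∧
    PMat M ((W X I a \ Z a) ∩ sd X.side true) ((W X I a \ Z a) ∩ sd X.side false)

/-- the pair is used by the set `Mo a` -/
def Us (Mo : Fin k ⊕ Fin 4 → Finset (V × V)) (a : Fin k ⊕ Fin 4) (v w : V) : Prop :=
  (v, w) ∈ Mo a ∨ (w, v) ∈ Mo a

variable {X I}

theorem Al_symm {τ : V → V → Fin 3} (hτ : ∀ v w, X.side v ≠ X.side w → τ v w = τ w v)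
    {a : Fin k ⊕ Fin 4} {v w : V} (h : Al X I τ a v w) : Al X I τ a w v := by
  obtain ⟨h1, h2, h3⟩ := h
  refine ⟨h1.symm, h2.symm, fun b hb hab => ?_⟩
  rw [← hτ v w h2]
  rcases h3 b hb hab with h | h | h
  · exact Or.inl ⟨h.2.1, h.1, h.2.2⟩
  · exact Or.inr (Or.inr ⟨h.2.1, h.1, h.2.2⟩)
  · exact Or.inr (Or.inl ⟨h.2.1, h.1, h.2.2⟩)

section used
variable {τ : V → V → Fin 3} (hτ : ∀ v w, X.side v ≠ X.side w → τ v w = τ w v)
  {Z : Fin k ⊕ Fin 4 → Finset V} {Mo : Fin k ⊕ Fin 4 → Finset (V × V)}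
  (hMo : ∀ t, Mo t = ∅ ∨ PP X I τ Z t (Mo t))
include hτ hMo

theorem Us_PP {t : Fin k ⊕ Fin 4} {v w : V} (h : Us Mo t v w) : PP X I τ Z t (Mo t) := by
  rcases hMo t with h1 | h1
  · rcases h with h | h <;> rw [h1] at h <;> exact absurd h (Finset.notMem_empty _)
  · exact h1

theorem Us_Al {t : Fin k ⊕ Fin 4} {v w : V} (h : Us Mo t v w) :
    Al X I τ t v w ∧ v ∈ W X I t \ Z t := by
  have h1 := Us_PP hτ hMo h
  rcases h with h | h
  · exact ⟨(h1.1 _ h).1, (Finset.mem_inter.1 (h1.2.1 _ h).1).1⟩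
  · exact ⟨Al_symm hτ (h1.1 _ h).1, (Finset.mem_inter.1 (h1.2.1 _ h).2).1⟩

theorem Us_card (t : Fin k ⊕ Fin 4) (v : V) : (univ.filter (fun w => Us Mo t v w)).card ≤ 1 := by
  rw [Finset.card_le_one]
  intro w hw w' hw'
  simp only [Finset.mem_filter, Finset.mem_univ, true_and] at hw hw'
  have h1 := Us_PP hτ hMo hw
  obtain ⟨hA, hP1, hP2, hP3⟩ := h1
  rcases hw with hw | hw
  · have hv : X.side v = true := (hA _ hw).2.1
    rcases hw' with hw' | hw'
    · obtain ⟨e, _, he2⟩ := hP2 v (hP1 _ hw).1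
      have e1 := he2 _ ⟨hw, rfl⟩
      have e2 := he2 _ ⟨hw', rfl⟩
      exact (Prod.ext_iff.1 (e1.trans e2.symm)).2
    · have : X.side v = false := (hA _ hw').2.2
      rw [hv] at this
      exact absurd this (by simp)
  · have hv : X.side v = false := (hA _ hw).2.2
    rcases hw' with hw' | hw'
    · have : X.side v = true := (hA _ hw').2.1
      rw [hv] at this
      exact absurd this (by simp)
    · obtain ⟨e, _, he2⟩ := hP3 v (hP1 _ hw).2
      have e1 := he2 _ ⟨hw, rfl⟩
      have e2 := he2 _ ⟨hw', rfl⟩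
      exact (Prod.ext_iff.1 (e1.trans e2.symm)).1

theorem used_card (t : Fin k ⊕ Fin 4) (v : V) (A : Finset (Fin k)) (S : Finset V)
    (hA : ∀ w ∈ S, ∀ b, Us Mo (Sum.inl b) v w → b ∈ A) :
    (S.filter (fun w => ∃ t', t' ≠ t ∧ Us Mo t' v w)).card ≤ A.card + 4 := by
  have h1 : S.filter (fun w => ∃ t', t' ≠ t ∧ Us Mo t' v w) ⊆
      (A.disjSum (univ : Finset (Fin 4))).biUnion (fun t' => univ.filter (fun w => Us Mo t' v w)) := by
    intro w hw
    simp only [Finset.mem_filter] at hw
    obtain ⟨hwS, t', _, ht'⟩ := hw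
    refine Finset.mem_biUnion.2 ⟨t', ?_, Finset.mem_filter.2 ⟨Finset.mem_univ _, ht'⟩⟩
    rw [Finset.mem_disjSum]
    cases t' with
    | inl b => exact Or.inl ⟨b, hA w hwS b ht', rfl⟩
    | inr j => exact Or.inr ⟨j, Finset.mem_univ _, rfl⟩
  refine (Finset.card_le_card h1).trans (Finset.card_biUnion_le.trans ?_)
  refine (Finset.sum_le_card_nsmul _ _ 1 fun t' _ => Us_card hτ hMo t' v).trans ?_
  rw [smul_eq_mul, mul_one, Finset.card_disjSum]
  simp

/-- the colours of the tasks using an edge -/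
theorem Us_col {b : Fin k} {v w : V} (h : Us Mo (Sum.inl b) v w) :
    (b ∈ I.Gd ∧ v ∉ cov X.R I.t b) ∨ b ∈ X.Pe ∪ (X.Ga \ I.Gd) := by
  have h1 := (Us_Al hτ hMo h).2
  have h2 := (Finset.mem_sdiff.1 h1).1
  by_cases hb : b ∈ X.Ga ∪ X.Pe
  · by_cases hbG : b ∈ I.Gd
    · left
      simp only [W, if_pos hb, W0, Finset.mem_filter] at h2
      exact ⟨hbG, h2.2.2.2⟩
    · right
      rcases Finset.mem_union.1 hb with h | h
      · exact Finset.mem_union_right _ (Finset.mem_sdiff.2 ⟨h, hbG⟩)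
      · exact Finset.mem_union_left _ h
  · simp only [W, if_neg hb] at h2
    exact absurd h2 (Finset.notMem_empty _)

end used

theorem PB_card : ((X.Pe ∪ (X.Ga \ I.Gd)).card : ℝ) ≤ d / 10 ^ 4 + th * d := by
  have h1 := X.Pecard
  have h2 := I.bad
  have h3 : ((X.Pe ∪ (X.Ga \ I.Gd)).card : ℝ) ≤ (X.Pe.card : ℝ) + ((X.Ga \ I.Gd).card : ℝ) := by
    exact_mod_cast Finset.card_union_le _ _
  linarith

/-- good neighbours -/
noncomputable def TT (X : Ctx k d G U F) (I : Ins X) (τ : V → V → Fin 3)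
    (Z : Fin k ⊕ Fin 4 → Finset V)
    (Mo : Fin k ⊕ Fin 4 → Finset (V × V)) (t : Fin k ⊕ Fin 4) (v : V) : Finset V :=
  (W X I t \ Z t).filter (fun w => X.side w ≠ X.side v ∧ Al X I τ t v w ∧
    ¬ ∃ t', t' ≠ t ∧ Us Mo t' v w)

theorem U_nb (X : Ctx k d G U F) (v : V) (S : Finset V) (hS : S ⊆ nb G v) : ((S ∩ U).card : ℝ) ≤ 2 := by
  have : (S ∩ U).card ≤ 2 := by
    refine (Finset.card_le_card fun w hw => ?_).trans (X.U2 v)
    simp only [Finset.mem_inter] at hw
    simp only [Finset.mem_filter, Finset.mem_univ, true_and]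
    exact ⟨hw.2, mem_nb.1 (hS hw.1)⟩
  exact_mod_cast this

theorem cls_nb (b : Fin k) (v : V) (κ : Fin 10) :
    (((nbc X v κ).filter (fun w => I.c w = b)).card : ℝ) ≤ 6 / 10 ^ 4 * d := by
  by_cases h : ∃ w0, I.c w0 = b
  · obtain ⟨w0, hw0⟩ := h
    refine le_trans ?_ (X.subU v (!X.side v) κ (X.sub w0))
    have : ((nbc X v κ).filter (fun w => I.c w = b)).card ≤ ((nb G v).filter (fun w =>
        X.side w = !X.side v ∧ X.cell w = κ ∧ X.sub w = X.sub w0)).card := by
      refine Finset.card_le_card fun w hw => ?_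
      simp only [nbc, Finset.mem_filter] at hw ⊢
      exact ⟨hw.1.1, hw.1.2.1, hw.1.2.2, I.csub w w0 (hw.2.trans hw0.symm)⟩
    exact_mod_cast this
  · have : (nbc X v κ).filter (fun w => I.c w = b) = ∅ := by
      rw [Finset.filter_eq_empty_iff]
      exact fun w _ hw => h ⟨w, hw⟩
    rw [this]
    simp only [Finset.card_empty, Nat.cast_zero]
    positivity

section deg
variable {τ : V → V → Fin 3} (hτ : ∀ v w, X.side v ≠ X.side w → τ v w = τ w v)
  {Z : Fin k ⊕ Fin 4 → Finset V} (hZ : ∀ t, Z t ⊆ Cand X I t) (hZc : ∀ t, (Z t).card = zz X I t)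
  {Mo : Fin k ⊕ Fin 4 → Finset (V × V)}
  (hMo : ∀ t, Mo t = ∅ ∨ PP X I τ Z t (Mo t))
include hτ hMo

/-- general counting step for the task of a good colour -/
theorem degG {b : Fin k} (hb : b ∈ I.Gd) (hZc : ((Z (Sum.inl b)).card : ℝ) ≤ 2) (v : V)
    (κ : Fin 10) (hκ : κ = if X.side v = true then X.gj b else X.gi b)
    (ty : Fin 3) (hty : (X.idl b v ∧ ty = 0) ∨ (¬ X.idl b v ∧ ty = st (X.side v)))
    (A : Finset (Fin k))
    (hA : ∀ w ∈ (nbc X v κ).filter (fun w => τ v w = ty), ∀ b, Us Mo (Sum.inl b) v w → b ∈ A) :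
    (((nbc X v κ).filter (fun w => τ v w = ty)).card : ℝ) ≤
      ((TT X I τ Z Mo (Sum.inl b) v).card : ℝ) + (2 + 6 / 10 ^ 4 * d + 2 + (A.card + 4)) := by
  set S := (nbc X v κ).filter (fun w => τ v w = ty) with hS
  have hsub : S ⊆ (((TT X I τ Z Mo (Sum.inl b) v ∪ (S ∩ U)) ∪
      ((nbc X v κ).filter (fun w => I.c w = b))) ∪ Z (Sum.inl b)) ∪
      (S.filter (fun w => ∃ t', t' ≠ Sum.inl b ∧ Us Mo t' v w)) := by
    intro w hw
    have hw' := hw
    rw [hS] at hw'
    simp only [nbc, Finset.mem_filter, mem_nb] at hw'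
    obtain ⟨⟨h1, h2, h3⟩, h4⟩ := hw'
    by_cases hU : w ∈ U
    · simp only [Finset.mem_union, Finset.mem_inter]; tauto
    by_cases hc : I.c w = b
    · have : w ∈ (nbc X v κ).filter (fun w => I.c w = b) := by
        rw [Finset.mem_filter]
        exact ⟨(Finset.mem_filter.1 hw).1, hc⟩
      simp only [Finset.mem_union]; tauto
    by_cases hZw : w ∈ Z (Sum.inl b)
    · simp only [Finset.mem_union]; tauto
    by_cases hus : ∃ t', t' ≠ Sum.inl b ∧ Us Mo t' v w
    · simp only [Finset.mem_union, Finset.mem_filter]; tauto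
    · have hidw : X.idl b w := by
        refine ⟨fun hs => ?_, fun hs => ?_⟩
        · rw [hs] at h2
          have h5 : X.side v = false := by simpa using h2.symm
          rw [h3, hκ, h5]; simp
        · rw [hs] at h2
          have h5 : X.side v = true := by simpa using h2.symm
          rw [h3, hκ, h5]; simp
      have hT : w ∈ TT X I τ Z Mo (Sum.inl b) v := by
        simp only [TT, Finset.mem_filter, Finset.mem_sdiff]
        refine ⟨⟨memW_G hb hidw hU hc, hZw⟩, ?_, ⟨h1, ?_, ?_⟩, hus⟩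
        · rw [h2]; cases X.side v <;> simp
        · rw [h2]; cases X.side v <;> simp
        · intro b' _ hbb
          rw [← Sum.inl.inj hbb]
          rcases hty with ⟨h6, h7⟩ | ⟨h6, h7⟩
          · exact Or.inl ⟨h6, hidw, h4.trans h7⟩
          · exact Or.inr (Or.inl ⟨h6, hidw, h4.trans h7⟩)
      simp only [Finset.mem_union]; tauto
  have h1 := Finset.card_le_card hsub
  have h2 := U_nb X v S (fun w hw => (Finset.mem_filter.1 (Finset.mem_filter.1 hw).1).1)
  have h3 := cls_nb (X := X) (I := I) b v κ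
  have h4 : ((S.filter (fun w => ∃ t', t' ≠ Sum.inl b ∧ Us Mo t' v w)).card : ℝ) ≤
      (A.card : ℝ) + 4 := by exact_mod_cast used_card hτ hMo (Sum.inl b) v A S hA
  have h5 : (S.card : ℝ) ≤ ((TT X I τ Z Mo (Sum.inl b) v).card : ℝ) + ((S ∩ U).card : ℝ) +
      (((nbc X v κ).filter (fun w => I.c w = b)).card : ℝ) + ((Z (Sum.inl b)).card : ℝ) +
      ((S.filter (fun w => ∃ t', t' ≠ Sum.inl b ∧ Us Mo t' v w)).card : ℝ) := by
    have := h1.trans ((Finset.card_union_le _ _).trans (Nat.add_le_add_right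
      ((Finset.card_union_le _ _).trans (Nat.add_le_add_right
      ((Finset.card_union_le _ _).trans (Nat.add_le_add_right
      (Finset.card_union_le _ _) _)) _)) _))
    exact_mod_cast this
  linarith

/-- idle vertices -/
theorem deg_idle {b : Fin k} (hb : b ∈ I.Gd) (hZc : ((Z (Sum.inl b)).card : ℝ) ≤ 2)
    (hlow : ∀ v κ, 0.0399 * (d : ℝ) ≤ (((nbc X v κ).filter (fun w => τ v w = 0)).card : ℝ))
    (v : V) (hv : X.idl b v) :
    0.029 * (d : ℝ) ≤ ((TT X I τ Z Mo (Sum.inl b) v).card : ℝ) := by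
  set κ : Fin 10 := if X.side v = true then X.gj b else X.gi b with hκ
  have h1 := degG hτ hMo hb hZc v κ hκ 0 (Or.inl ⟨hv, rfl⟩)
    (X.Ga.filter (fun b' => X.gi b' = X.gi b ∧ X.gj b' = X.gj b) ∪ (X.Pe ∪ (X.Ga \ I.Gd))) (by
      intro w hw b' hus
      simp only [nbc, Finset.mem_filter, mem_nb] at hw
      obtain ⟨⟨h1, h2, h3⟩, h4⟩ := hw
      rcases Us_col hτ hMo hus with h5 | h5
      · refine Finset.mem_union_left _ (Finset.mem_filter.2 ⟨I.Gdsub h5.1, ?_⟩)
        rcases (Us_Al hτ hMo hus).1.2.2 b' h5.1 rfl with h6 | h6 | h6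
        · obtain ⟨h7, h8, _⟩ := h6
          cases hs : X.side v with
          | true =>
            rw [hs] at h2
            have h2' : X.side w = false := by simpa using h2
            refine ⟨(h7.1 hs).trans (hv.1 hs).symm, ?_⟩
            rw [h8.2 h2', h3, hκ, hs]; simp
          | false =>
            rw [hs] at h2
            have h2' : X.side w = true := by simpa using h2
            refine ⟨?_, (h7.2 hs).trans (hv.2 hs).symm⟩
            rw [h8.1 h2', h3, hκ, hs]; simp
        · exact absurd (h6.2.2.symm.trans h4) (st_ne_zero _)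
        · exact absurd (h6.2.2.symm.trans h4) (st_ne_zero _)
      · exact Finset.mem_union_right _ h5)
  have h2 : (((X.Ga.filter (fun b' => X.gi b' = X.gi b ∧ X.gj b' = X.gj b) ∪
      (X.Pe ∪ (X.Ga \ I.Gd))).card : ℕ) : ℝ) ≤ X.q + (d / 10 ^ 4 + th * d) := by
    have h3 := PB_card (X := X) (I := I)
    have h4 : (((X.Ga.filter (fun b' => X.gi b' = X.gi b ∧ X.gj b' = X.gj b) ∪
      (X.Pe ∪ (X.Ga \ I.Gd))).card : ℕ) : ℝ) ≤
      ((X.Ga.filter (fun b' => X.gi b' = X.gi b ∧ X.gj b' = X.gj b)).card : ℝ) +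
      ((X.Pe ∪ (X.Ga \ I.Gd)).card : ℝ) := by exact_mod_cast Finset.card_union_le _ _
    rw [X.Gaq] at h4
    linarith
  have h3 := hlow v κ
  have h4 := X.qhi
  obtain ⟨h5, _⟩ := n_pos X
  unfold th at h2
  unfold de at h4
  linarith

/-- non idle vertices -/
theorem deg_nonidle {b : Fin k} (hb : b ∈ I.Gd) (hZc : ((Z (Sum.inl b)).card : ℝ) ≤ 2)
    (hlow : ∀ v κ s, 0.0049 * (d : ℝ) ≤
      (((nbc X v κ).filter (fun w => τ v w = st s)).card : ℝ))
    (v : V) (hv : ¬ X.idl b v) :
    0.004 * (d : ℝ) ≤ ((TT X I τ Z Mo (Sum.inl b) v).card : ℝ) := by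
  set κ : Fin 10 := if X.side v = true then X.gj b else X.gi b with hκ
  have h1 := degG hτ hMo hb hZc v κ hκ (st (X.side v)) (Or.inr ⟨hv, rfl⟩)
    (I.Gd.filter (fun b' => ¬ X.idl b' v ∧ v ∉ cov X.R I.t b') ∪ (X.Pe ∪ (X.Ga \ I.Gd))) (by
      intro w hw b' hus
      simp only [nbc, Finset.mem_filter, mem_nb] at hw
      obtain ⟨⟨h1, h2, h3⟩, h4⟩ := hw
      rcases Us_col hτ hMo hus with h5 | h5
      · refine Finset.mem_union_left _ (Finset.mem_filter.2 ⟨h5.1, ?_, h5.2⟩)
        have hAl := (Us_Al hτ hMo hus).1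
        rcases hAl.2.2 b' h5.1 rfl with h6 | h6 | h6
        · exact absurd (h4.symm.trans h6.2.2) (st_ne_zero _)
        · exact h6.1
        · exact absurd (st_inj (h4.symm.trans h6.2.2)) hAl.2.1
      · exact Finset.mem_union_right _ h5)
  have h2 : (((I.Gd.filter (fun b' => ¬ X.idl b' v ∧ v ∉ cov X.R I.t b') ∪
      (X.Pe ∪ (X.Ga \ I.Gd))).card : ℕ) : ℝ) ≤ 22 * th * d + (d / 10 ^ 4 + th * d) := by
    have h3 := PB_card (X := X) (I := I)
    have h4 : (((I.Gd.filter (fun b' => ¬ X.idl b' v ∧ v ∉ cov X.R I.t b') ∪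
      (X.Pe ∪ (X.Ga \ I.Gd))).card : ℕ) : ℝ) ≤
      ((I.Gd.filter (fun b' => ¬ X.idl b' v ∧ v ∉ cov X.R I.t b')).card : ℝ) +
      ((X.Pe ∪ (X.Ga \ I.Gd)).card : ℝ) := by exact_mod_cast Finset.card_union_le _ _
    have h5 := I.ecount v
    linarith
  have h3 := hlow v κ (X.side v)
  obtain ⟨h5, _⟩ := n_pos X
  unfold th at h2
  linarith

include hZ

/-- other tasks -/
theorem deg_other {t : Fin k ⊕ Fin 4} (ht : ¬ isG X I t) (hT : isT X t) (v : V) :
    0.29 * (d : ℝ) ≤ ((TT X I τ Z Mo t v).card : ℝ) := by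
  set S := (nb G v).filter (fun w => X.side w = !X.side v) with hS
  set c1 := (tc X t (!X.side v)).1 with hc1
  set c2 := (tc X t (!X.side v)).2 with hc2
  have hScard : (10 * (1 / 20 - de)) * (d : ℝ) ≤ (S.card : ℝ) := by
    have h1 : S.card = ∑ κ : Fin 10, (nbc X v κ).card := by
      rw [Finset.card_eq_sum_card_fiberwise (f := fun w => X.cell w) (t := univ)
        (fun w _ => Finset.mem_univ _)]
      refine Finset.sum_congr rfl fun κ _ => ?_
      rw [hS, Finset.filter_filter]
      rfl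
    rw [h1]
    push_cast
    have h2 : ∀ κ ∈ (univ : Finset (Fin 10)), (1 / 20 - de) * (d : ℝ) ≤
        ((nbc X v κ).card : ℝ) := by
      intro κ _
      have := (abs_le.1 (nbc_card X v κ)).1
      linarith
    have h3 := Finset.card_nsmul_le_sum _ _ _ h2
    simp only [Finset.card_univ, Fintype.card_fin, nsmul_eq_mul] at h3
    push_cast at h3
    linarith
  have hsub : S ⊆ ((((TT X I τ Z Mo t v ∪ (S ∩ U)) ∪ nbc X v c1) ∪ nbc X v c2) ∪
      nbc X v (kap X I t)) ∪ (S.filter (fun w => ∃ t', t' ≠ t ∧ Us Mo t' v w)) := by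
    intro w hw
    have hw' := hw
    rw [hS] at hw'
    simp only [Finset.mem_filter, mem_nb] at hw'
    obtain ⟨h1, h2⟩ := hw'
    have hn : ∀ κ, X.cell w = κ → w ∈ nbc X v κ := by
      intro κ hκ
      simp only [nbc, Finset.mem_filter, mem_nb]
      exact ⟨h1, h2, hκ⟩
    by_cases hU : w ∈ U
    · simp only [Finset.mem_union, Finset.mem_inter]; tauto
    by_cases hw1 : X.cell w = c1
    · have := hn _ hw1
      simp only [Finset.mem_union]; tauto
    by_cases hw2 : X.cell w = c2
    · have := hn _ hw2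
      simp only [Finset.mem_union]; tauto
    by_cases hZw : w ∈ Z t
    · have h3 := hZ t hZw
      simp only [Cand, Finset.mem_filter] at h3
      have := hn _ h3.2.2.1
      simp only [Finset.mem_union]; tauto
    by_cases hus : ∃ t', t' ≠ t ∧ Us Mo t' v w
    · simp only [Finset.mem_union, Finset.mem_filter]; tauto
    · have hT : w ∈ TT X I τ Z Mo t v := by
        simp only [TT, Finset.mem_filter, Finset.mem_sdiff]
        refine ⟨⟨memW_O ht hT hU (by rw [h2]; exact hw1) (by rw [h2]; exact hw2), hZw⟩,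
          ?_, ⟨h1, ?_, ?_⟩, hus⟩
        · rw [h2]; cases X.side v <;> simp
        · rw [h2]; cases X.side v <;> simp
        · intro b' hb' hbb
          exact absurd ⟨b', hb', hbb⟩ ht
      simp only [Finset.mem_union]; tauto
  set A : Finset (Fin k) := (GG X (X.side v) (X.cell v) ∪
    I.Gd.filter (fun b' => ¬ X.idl b' v ∧ v ∉ cov X.R I.t b')) ∪ (X.Pe ∪ (X.Ga \ I.Gd)) with hA
  have hAus : ∀ w ∈ S, ∀ b, Us Mo (Sum.inl b) v w → b ∈ A := by
    intro w _ b hus
    rcases Us_col hτ hMo hus with h5 | h5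
    · refine Finset.mem_union_left _ ?_
      by_cases hi : X.idl b v
      · refine Finset.mem_union_left _ (Finset.mem_filter.2 ⟨I.Gdsub h5.1, ?_⟩)
        cases hs : X.side v with
        | true => simpa using hi.1 hs
        | false => simpa using hi.2 hs
      · exact Finset.mem_union_right _ (Finset.mem_filter.2 ⟨h5.1, hi, h5.2⟩)
    · exact Finset.mem_union_right _ h5
  have hAc : ((A.card : ℕ) : ℝ) ≤ 10 * X.q + 22 * th * d + (d / 10 ^ 4 + th * d) := by
    have h3 := PB_card (X := X) (I := I)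
    have h4 : ((A.card : ℕ) : ℝ) ≤ ((GG X (X.side v) (X.cell v)).card : ℝ) +
        ((I.Gd.filter (fun b' => ¬ X.idl b' v ∧ v ∉ cov X.R I.t b')).card : ℝ) +
        ((X.Pe ∪ (X.Ga \ I.Gd)).card : ℝ) := by
      have := (Finset.card_union_le (GG X (X.side v) (X.cell v) ∪
        I.Gd.filter (fun b' => ¬ X.idl b' v ∧ v ∉ cov X.R I.t b')) (X.Pe ∪ (X.Ga \ I.Gd))).trans
        (Nat.add_le_add_right (Finset.card_union_le _ _) _)
      exact_mod_cast this
    have h5 := I.ecount v
    rw [GG_card] at h4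
    push_cast at h4
    linarith
  have h1 := Finset.card_le_card hsub
  have h2 := U_nb X v S (fun w hw => (Finset.mem_filter.1 hw).1)
  have h4 : ((S.filter (fun w => ∃ t', t' ≠ t ∧ Us Mo t' v w)).card : ℝ) ≤
      (A.card : ℝ) + 4 := by exact_mod_cast used_card hτ hMo t v A S hAus
  have h5 : (S.card : ℝ) ≤ ((TT X I τ Z Mo t v).card : ℝ) + ((S ∩ U).card : ℝ) +
      ((nbc X v c1).card : ℝ) + ((nbc X v c2).card : ℝ) + ((nbc X v (kap X I t)).card : ℝ) +
      ((S.filter (fun w => ∃ t', t' ≠ t ∧ Us Mo t' v w)).card : ℝ) := by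
    have := h1.trans ((Finset.card_union_le _ _).trans (Nat.add_le_add_right
      ((Finset.card_union_le _ _).trans (Nat.add_le_add_right
      ((Finset.card_union_le _ _).trans (Nat.add_le_add_right
      ((Finset.card_union_le _ _).trans (Nat.add_le_add_right
      (Finset.card_union_le _ _) _)) _)) _)) _))
    exact_mod_cast this
  have e1 := (abs_le.1 (nbc_card X v c1)).2
  have e2 := (abs_le.1 (nbc_card X v c2)).2
  have e3 := (abs_le.1 (nbc_card X v (kap X I t))).2
  have e4 := X.qhi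
  obtain ⟨e5, _⟩ := n_pos X
  unfold th at hAc
  unfold de at e1 e2 e3 e4 hScard
  linarith

end deg

/-! ### Balance -/

theorem balance {Z : Fin k ⊕ Fin 4 → Finset V} {t : Fin k ⊕ Fin 4} (hT : isT X t)
    (hZ : Z t ⊆ Cand X I t) (hZc : (Z t).card = zz X I t) :
    ((W X I t \ Z t) ∩ sd X.side true).card = ((W X I t \ Z t) ∩ sd X.side false).card := by
  have hZW : Z t ⊆ W X I t := hZ.trans (cand_sub hT)
  have hZs : Z t ⊆ sd X.side (sg X I t) := by
    intro v hv
    have := hZ hv
    simp only [Cand, Finset.mem_filter, Finset.mem_univ, true_and] at this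
    simp only [sd, Finset.mem_filter, Finset.mem_univ, true_and]
    exact this.1
  have h1 : ∀ s, ((W X I t \ Z t) ∩ sd X.side s).card + (Z t ∩ sd X.side s).card =
      (W X I t ∩ sd X.side s).card := by
    intro s
    rw [← Finset.card_union_of_disjoint]
    · congr 1
      ext v
      have h2 := @hZW v
      simp only [Finset.mem_union, Finset.mem_inter, Finset.mem_sdiff]
      tauto
    · rw [Finset.disjoint_left]
      intro v hv hv'
      simp only [Finset.mem_inter, Finset.mem_sdiff] at hv hv'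
      exact hv.1.2 hv'.1
  have h2 : (Z t ∩ sd X.side (sg X I t)).card = (Z t).card := by
    rw [Finset.inter_eq_left.2 hZs]
  have h3 : (Z t ∩ sd X.side (!(sg X I t))).card = 0 := by
    rw [Finset.card_eq_zero, Finset.eq_empty_iff_forall_notMem]
    intro v hv
    have h4 := hZs (Finset.mem_inter.1 hv).1
    have h5 := (Finset.mem_inter.1 hv).2
    simp only [sd, Finset.mem_filter, Finset.mem_univ, true_and] at h4 h5
    rw [h4] at h5
    cases hs : sg X I t <;> rw [hs] at h5 <;> simp at h5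
  have h4 := h1 true
  have h5 := h1 false
  have h6 : sg X I t = decide (0 ≤ imb X.side (W X I t)) := rfl
  have h7 : (zz X I t : ℤ) = |imb X.side (W X I t)| := by
    unfold zz
    rw [Int.natCast_natAbs]
  have h8 : imb X.side (W X I t) = ((W X I t ∩ sd X.side true).card : ℤ) -
      ((W X I t ∩ sd X.side false).card : ℤ) := rfl
  rw [← hZc] at h7
  by_cases hp : 0 ≤ imb X.side (W X I t)
  · rw [abs_of_nonneg hp] at h7
    have h9 : sg X I t = true := by rw [h6]; simp [hp]
    rw [h9] at h2 h3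
    simp only [Bool.not_true] at h3
    omega
  · rw [abs_of_neg (not_le.1 hp)] at h7
    have h9 : sg X I t = false := by rw [h6]; simp [hp]
    rw [h9] at h2 h3
    simp only [Bool.not_false] at h3
    omega

/-- matchings from the relation -/
theorem PMat_IsM {M : Finset (V × V)} {A B : Finset V} (hM : PMat M A B)
    (hs : ∀ e ∈ M, X.side e.1 = true ∧ X.side e.2 = false) : Lin.IsM M := by
  intro e he f hf hef
  obtain ⟨h1, h2, h3⟩ := hM
  rcases hef with h | h | h | h
  · obtain ⟨g, _, hg⟩ := h2 e.1 (h1 e he).1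
    exact (hg e ⟨he, rfl⟩).trans (hg f ⟨hf, h.symm⟩).symm
  · have a1 := (hs e he).1
    have a2 := (hs f hf).2
    rw [h, a2] at a1
    exact absurd a1 (by simp)
  · have a1 := (hs e he).2
    have a2 := (hs f hf).1
    rw [h, a2] at a1
    exact absurd a1 (by simp)
  · obtain ⟨g, _, hg⟩ := h3 e.2 (h1 e he).2
    exact (hg e ⟨he, rfl⟩).trans (hg f ⟨hf, h.symm⟩).symm

theorem PMat_cov {M : Finset (V × V)} {A : Finset V}
    (hM : PMat M (A ∩ sd X.side true) (A ∩ sd X.side false)) (v : V) :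
    (∃ e ∈ M, e.1 = v ∨ e.2 = v) ↔ v ∈ A := by
  obtain ⟨h1, h2, h3⟩ := hM
  constructor
  · rintro ⟨e, he, h | h⟩
    · rw [← h]; exact (Finset.mem_inter.1 (h1 e he).1).1
    · rw [← h]; exact (Finset.mem_inter.1 (h1 e he).2).1
  · intro hv
    cases hs : X.side v with
    | true =>
      obtain ⟨e, he, _⟩ := h2 v (Finset.mem_inter.2 ⟨hv, by simp [sd, hs]⟩)
      exact ⟨e, he.1, Or.inl he.2⟩
    | false =>
      obtain ⟨e, he, _⟩ := h3 v (Finset.mem_inter.2 ⟨hv, by simp [sd, hs]⟩)
      exact ⟨e, he.1, Or.inr he.2⟩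

/-- one step: the perfect matching for the task `t` -/
theorem step (hH : Stmt_HALL.{u}) {τ : V → V → Fin 3}
    (hτ : ∀ v w, X.side v ≠ X.side w → τ v w = τ w v)
    (hlow : ∀ v κ, 0.0399 * (d : ℝ) ≤ (((nbc X v κ).filter (fun w => τ v w = 0)).card : ℝ) ∧
      0.0049 * (d : ℝ) ≤ (((nbc X v κ).filter (fun w => τ v w = 1)).card : ℝ) ∧
      0.0049 * (d : ℝ) ≤ (((nbc X v κ).filter (fun w => τ v w = 2)).card : ℝ))
    {Z : Fin k ⊕ Fin 4 → Finset V} (hZ : ∀ t, Z t ⊆ Cand X I t)
    (hZc : ∀ t, (Z t).card = zz X I t) (t : Fin k ⊕ Fin 4)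
    (Mo : Fin k ⊕ Fin 4 → Finset (V × V)) (hMo : ∀ t, Mo t = ∅ ∨ PP X I τ Z t (Mo t)) :
    ∃ M : Finset (V × V), PP X I τ Z t M ∧ ∀ t', t' ≠ t → Disjoint M (Mo t') := by
  obtain ⟨hd30, h3d⟩ := n_pos X
  have hd0 : 0 < d := by
    have := X.dbig
    exact lt_of_lt_of_le (by norm_num) this
  by_cases hT : isT X t
  swap
  · have hW : W X I t = ∅ := by
      simp only [isT, not_forall] at hT
      obtain ⟨b, hb, hb'⟩ := hT
      subst hb
      simp only [W, if_neg hb']
    refine ⟨∅, ⟨fun e he => absurd he (Finset.notMem_empty _), ?_⟩, fun t' _ =>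
      Finset.disjoint_empty_left _⟩
    rw [hW]
    simp only [Finset.empty_sdiff, Finset.empty_inter]
    refine ⟨fun e he => absurd he (Finset.notMem_empty _), fun x hx =>
      absurd hx (Finset.notMem_empty _), fun x hx => absurd hx (Finset.notMem_empty _)⟩
  have hbal := balance hT (hZ t) (hZc t)
  obtain ⟨Rl, hRl⟩ : ∃ Rl : V → V → Prop, ∀ x y, Rl x y ↔ (Al X I τ t x y ∧ X.side x = true ∧
      X.side y = false ∧ ¬ ∃ t', t' ≠ t ∧ Us Mo t' x y) := ⟨_, fun _ _ => Iff.rfl⟩
  set Xs := (W X I t \ Z t) ∩ sd X.side true with hXs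
  set Ys := (W X I t \ Z t) ∩ sd X.side false with hYs
  have hTx : ∀ x ∈ Xs, ((TT X I τ Z Mo t x).card : ℝ) ≤ ((Ys.filter (fun y => Rl x y)).card : ℝ) := by
    intro x hx
    have hsx : X.side x = true := by
      have := (Finset.mem_inter.1 hx).2
      simpa [sd] using this
    have : (TT X I τ Z Mo t x).card ≤ (Ys.filter (fun y => Rl x y)).card := by
      refine Finset.card_le_card fun w hw => ?_
      simp only [TT, Finset.mem_filter] at hw
      obtain ⟨h1, h2, h3, h4⟩ := hw
      have hsw : X.side w = false := by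
        rw [hsx] at h2
        simpa using h2
      rw [Finset.mem_filter, hYs, Finset.mem_inter]
      exact ⟨⟨h1, by simp [sd, hsw]⟩, (hRl _ _).2 ⟨h3, hsx, hsw, h4⟩⟩
    exact_mod_cast this
  have hTy : ∀ y ∈ Ys, ((TT X I τ Z Mo t y).card : ℝ) ≤ ((Xs.filter (fun x => Rl x y)).card : ℝ) := by
    intro y hy
    have hsy : X.side y = false := by
      have := (Finset.mem_inter.1 hy).2
      simpa [sd] using this
    have : (TT X I τ Z Mo t y).card ≤ (Xs.filter (fun x => Rl x y)).card := by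
      refine Finset.card_le_card fun w hw => ?_
      simp only [TT, Finset.mem_filter] at hw
      obtain ⟨h1, h2, h3, h4⟩ := hw
      have hsw : X.side w = true := by
        rw [hsy] at h2
        simpa using h2
      rw [Finset.mem_filter, hXs, Finset.mem_inter]
      refine ⟨⟨h1, by simp [sd, hsw]⟩, (hRl _ _).2 ⟨Al_symm hτ h3, hsw, hsy, ?_⟩⟩
      rintro ⟨t', ht', hus⟩
      exact h4 ⟨t', ht', Or.symm hus⟩
    exact_mod_cast this
  have hAdj : ∀ x ∈ Xs, ∀ y ∈ Ys, Rl x y → G.Adj x y := fun x _ y _ h => ((hRl _ _).1 h).1.1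
  have hfin : (∃ M : Finset (V × V), (∀ e ∈ M, Rl e.1 e.2) ∧ PMat M Xs Ys) →
      ∃ M : Finset (V × V), PP X I τ Z t M ∧ ∀ t', t' ≠ t → Disjoint M (Mo t') := by
    rintro ⟨M, hM1, hM2⟩
    have hM1 := fun e he => (hRl _ _).1 (hM1 e he)
    refine ⟨M, ⟨fun e he => ⟨(hM1 e he).1, (hM1 e he).2.1, (hM1 e he).2.2.1⟩, hM2⟩, ?_⟩
    intro t' ht'
    rw [Finset.disjoint_left]
    intro e he he'
    exact (hM1 e he).2.2.2 ⟨t', ht', Or.inl he'⟩
  apply hfin
  by_cases ht : isG X I t
  · obtain ⟨b, hb, rfl⟩ := ht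
    have hZ2 : ((Z (Sum.inl b)).card : ℝ) ≤ 2 := by
      rw [hZc]
      exact_mod_cast z_G hb
    have hl0 : ∀ v κ, 0.0399 * (d : ℝ) ≤
        (((nbc X v κ).filter (fun w => τ v w = 0)).card : ℝ) := fun v κ => (hlow v κ).1
    have hl1 : ∀ v κ s, 0.0049 * (d : ℝ) ≤
        (((nbc X v κ).filter (fun w => τ v w = st s)).card : ℝ) := by
      intro v κ s
      cases s with
      | true => exact (hlow v κ).2.1
      | false => exact (hlow v κ).2.2
    set E : Finset V := univ.filter (fun v => ¬ X.idl b v ∧ v ∉ cov X.R I.t b) with hE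
    have hEc : (E.card : ℝ) ≤ 8 * th * Fintype.card V := I.esize b hb
    have hcase : ∀ v, v ∈ W X I (Sum.inl b) \ Z (Sum.inl b) → v ∉ E → X.idl b v := by
      intro v hv hvE
      by_contra hi
      apply hvE
      rw [hE, Finset.mem_filter]
      refine ⟨Finset.mem_univ _, hi, ?_⟩
      have h1 := (Finset.mem_sdiff.1 hv).1
      have h2 : b ∈ X.Ga ∪ X.Pe := Finset.mem_union_left _ (I.Gdsub hb)
      simp only [W, if_pos h2, W0, Finset.mem_filter] at h1
      exact h1.2.2.2
    have hcase2 : ∀ v, v ∈ E → ¬ X.idl b v := by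
      intro v hvE
      rw [hE, Finset.mem_filter] at hvE
      exact hvE.2.1
    refine hH G d ep 0.029 0.004 (8 * th) Xs Ys E Rl hd0 (by unfold ep; positivity)
      (by unfold th; positivity) (by unfold th ep; norm_num) X.mix hAdj hbal ?_ ?_ ?_ ?_ ?_ ?_ ?_
    · refine le_trans ?_ hEc
      exact_mod_cast Finset.card_le_card Finset.inter_subset_right
    · refine le_trans ?_ hEc
      exact_mod_cast Finset.card_le_card Finset.inter_subset_right
    · intro x hx hxE
      exact (deg_idle hτ hMo hb hZ2 hl0 x (hcase x (Finset.mem_inter.1 hx).1 hxE)).trans (hTx x hx)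
    · intro x hx hxE
      exact (deg_nonidle hτ hMo hb hZ2 hl1 x (hcase2 x hxE)).trans (hTx x hx)
    · intro x hx hxE
      exact (deg_idle hτ hMo hb hZ2 hl0 x (hcase x (Finset.mem_inter.1 hx).1 hxE)).trans (hTy x hx)
    · intro x hx hxE
      exact (deg_nonidle hτ hMo hb hZ2 hl1 x (hcase2 x hxE)).trans (hTy x hx)
    · have h1 : Xs ⊆ (univ.filter (fun v => X.side v = true ∧ X.cell v = X.gi b)) ∪ E := by
        intro x hx
        by_cases hxE : x ∈ E
        · exact Finset.mem_union_right _ hxE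
        · have hi := hcase x (Finset.mem_inter.1 hx).1 hxE
          have hsx : X.side x = true := by
            have := (Finset.mem_inter.1 hx).2
            simpa [sd] using this
          refine Finset.mem_union_left _ (Finset.mem_filter.2 ⟨Finset.mem_univ _, hsx, ?_⟩)
          exact (hi.1 hsx).symm
      have h2 : (Xs.card : ℝ) ≤
          ((univ.filter (fun v => X.side v = true ∧ X.cell v = X.gi b)).card : ℝ) + E.card := by
        exact_mod_cast (Finset.card_le_card h1).trans (Finset.card_union_le _ _)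
      have h3 := (abs_le.1 (X.cellsz true (X.gi b))).2
      unfold th at hEc
      unfold de at h3
      unfold ep
      linarith
  · have hdeg : ∀ v, 0.29 * (d : ℝ) ≤ ((TT X I τ Z Mo t v).card : ℝ) := fun v =>
      deg_other hτ hZ hMo ht hT v
    refine hH G d ep 0.29 0.29 0 Xs Ys ∅ Rl hd0 (by unfold ep; positivity)
      le_rfl (by unfold ep; norm_num) X.mix hAdj hbal ?_ ?_ ?_ ?_ ?_ ?_ ?_
    · simp
    · simp
    · exact fun x hx _ => (hdeg x).trans (hTx x hx)
    · exact fun x hx _ => (hdeg x).trans (hTx x hx)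
    · exact fun x hx _ => (hdeg x).trans (hTy x hx)
    · exact fun x hx _ => (hdeg x).trans (hTy x hx)
    · have h1 : Xs.card ≤ (sd X.side true).card := Finset.card_le_card Finset.inter_subset_right
      have h2 : (sd X.side true).card + (sd X.side false).card = Fintype.card V := by
        unfold sd
        have h3 := Finset.card_filter_add_card_filter_not (s := (univ : Finset V))
          (fun v => X.side v = true)
        rw [Finset.card_univ] at h3
        rw [← h3]
        congr 2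
        ext v
        simp
      have h3 := X.sides
      have h4 := X.p1
      have h5 : 2 * Xs.card ≤ Fintype.card V + 1 := by omega
      have h6 : 2 * (Xs.card : ℝ) ≤ (Fintype.card V : ℝ) + 1 := by exact_mod_cast h5
      unfold ep
      linarith

end ctx

end TASKAux

open TASKAux

/-- Block TASK. -/
theorem stmt_TASK (hS : Stmt_SPLIT.{u}) (hH : Stmt_HALL.{u}) (hQ : Stmt_SEQ.{u})
    (hZS : Stmt_ZSEL.{u}) : Stmt_TASK.{u} := by
  intro V _ k d G U F X I
  obtain ⟨D, e, τ, h1, h2, h3, h4, hτ, k0, k1, k2⟩ := types X hS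
  have hlow := low X h1 h2 h3 h4 k0 k1 k2
  obtain ⟨Z, hZ, hZd⟩ := hZS V (Fin k ⊕ Fin 4) (Cand X I) (zz X I) (z_le (X := X) (I := I))
    (z_bound (X := X) (I := I))
  obtain ⟨M, hM, hMd⟩ := hQ (V × V) (Fin k ⊕ Fin 4) (PP X I τ Z) (fun t Mo hMo =>
    step hH hτ hlow (fun t => (hZ t).1) (fun t => (hZ t).2) t Mo hMo)
  have hW : ∀ b ∈ X.Ga ∪ X.Pe, W X I (Sum.inl b) = W0 X.R U F I.c I.t b := by
    intro b hb
    simp only [W, if_pos hb]
  refine ⟨⟨Z, M, ?_, hZd, hMd, ?_, ?_, ?_, ?_, ?_⟩⟩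
  · intro a
    rw [Finset.disjoint_left]
    intro v hv
    have := (hZ a).1 hv
    simp only [Cand, Finset.mem_filter] at this
    exact this.2.2.2.1
  · intro a e he
    have := (hM a).1 e he
    exact ⟨this.2.1, this.2.2, this.1.1⟩
  · intro a
    exact PMat_IsM (X := X) (hM a).2 (fun e he => ((hM a).1 e he).2)
  · intro b hb
    rw [Finset.eq_empty_iff_forall_notMem]
    intro e he
    have h5 := ((hM (Sum.inl b)).2.1 e he).1
    have h6 : W X I (Sum.inl b) = ∅ := by simp only [W, if_neg hb]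
    rw [h6] at h5
    simp at h5
  · intro b hb v
    rw [PMat_cov (hM (Sum.inl b)).2 v, hW b hb, Finset.mem_sdiff]
  · intro j v
    rw [PMat_cov (hM (Sum.inr j)).2 v, Finset.mem_sdiff]
    simp only [W, Finset.mem_sdiff, Finset.mem_univ, true_and]

end Pool.Agent.Work.MP_db9399_qr
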