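import Pool.Agent.Work.MP_db9399_qr.Interface

/-!
# Block VC
-/

set_option autoImplicit false

namespace Pool.Agent.Work.MP_db9399_qr

open Finset Classical
open Pool.Agent.Work.MP_db9399_all (nb)

universe u

theorem stmt_VC : Stmt_VC.{u} := by
  intro V _ G U k χ F g cell sub Gd hg hgadj hF hU hGd hdisj
  -- the injections
  have hinj : ∀ i : Fin 10, ∃ φ : Fin 100 × Fin χ × Fin 5 → Fin k, Function.Injective φ ∧
      ∀ x, φ x ∈ Gd i := by
    intro i
    have hcard : Fintype.card (Fin 100 × Fin χ × Fin 5) ≤ Fintype.card (Gd i) := by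
      rw [Fintype.card_coe]
      have := hGd i
      simp only [Fintype.card_prod, Fintype.card_fin]
      omega
    obtain ⟨e⟩ := Function.Embedding.nonempty_of_card_le hcard
    exact ⟨fun x => (e x : Fin k), fun x y hxy => e.injective (Subtype.ext hxy),
      fun x => (e x).2⟩
  choose φ hφ hφm using hinj
  -- the forbidden colours
  have hforb : ∀ v, ∃ τ : Fin 5, ∀ u ∈ U, G.Adj v u →
      φ (cell v) (sub v, ⟨g v, hg v⟩, τ) ∉ F u := by
    intro v
    by_contra hcon
    push Not at hcon
    set B : Finset (Fin k) := (univ.filter (fun u => u ∈ U ∧ G.Adj v u)).biUnion F with hB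
    have h1 : B.card ≤ 4 := by
      calc B.card ≤ ∑ u ∈ univ.filter (fun u => u ∈ U ∧ G.Adj v u), (F u).card :=
            card_biUnion_le
        _ ≤ ∑ u ∈ univ.filter (fun u => u ∈ U ∧ G.Adj v u), 2 :=
            sum_le_sum fun u hu => hF u (mem_filter.1 hu).2.1
        _ = (univ.filter (fun u => u ∈ U ∧ G.Adj v u)).card * 2 := by
            rw [sum_const, smul_eq_mul]
        _ ≤ 2 * 2 := Nat.mul_le_mul_right 2 (hU v)
    have h2 : (univ.image (fun τ : Fin 5 => φ (cell v) (sub v, ⟨g v, hg v⟩, τ))) ⊆ B := by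
      intro x hx
      rw [mem_image] at hx
      obtain ⟨τ, _, rfl⟩ := hx
      obtain ⟨u, hu, hvu, hx⟩ := hcon τ
      rw [hB, mem_biUnion]
      exact ⟨u, mem_filter.2 ⟨mem_univ _, hu, hvu⟩, hx⟩
    have h3 : (univ.image (fun τ : Fin 5 => φ (cell v) (sub v, ⟨g v, hg v⟩, τ))).card = 5 := by
      rw [card_image_of_injective]
      · simp
      · intro τ τ' h
        have := hφ (cell v) h
        simpa using this
    have h4 := card_le_card h2
    omega
  choose τ hτ using hforb
  refine ⟨univ.biUnion (fun i : Fin 10 => univ.image (φ i)),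
    fun v => φ (cell v) (sub v, ⟨g v, hg v⟩, τ v), ?_, ?_, ?_, ?_, ?_⟩
  · calc (univ.biUnion (fun i : Fin 10 => univ.image (φ i))).card
        ≤ ∑ i : Fin 10, (univ.image (φ i)).card := card_biUnion_le
      _ ≤ ∑ i : Fin 10, 500 * χ := by
          refine sum_le_sum fun i _ => ?_
          refine card_image_le.trans ?_
          simp only [card_univ, Fintype.card_prod, Fintype.card_fin]
          omega
      _ = 5000 * χ := by
          rw [sum_const, card_univ, Fintype.card_fin, smul_eq_mul]
          ring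
  · intro v
    refine ⟨?_, hφm _ _⟩
    rw [mem_biUnion]
    exact ⟨cell v, mem_univ _, mem_image_of_mem _ (mem_univ _)⟩
  · intro v w hvw heq
    have hc : cell v = cell w := by
      by_contra hne
      have h1 := hφm (cell v) (sub v, ⟨g v, hg v⟩, τ v)
      have h2 := hφm (cell w) (sub w, ⟨g w, hg w⟩, τ w)
      have heq' : φ (cell v) (sub v, ⟨g v, hg v⟩, τ v) = φ (cell w) (sub w, ⟨g w, hg w⟩, τ w) := heq
      rw [← heq'] at h2
      exact disjoint_left.1 (hdisj _ _ hne) h1 h2
    simp only [hc] at heq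
    have := hφ _ heq
    simp only [Prod.mk.injEq, Fin.mk.injEq] at this
    exact hgadj v w hvw this.2.1
  · intro v w heq
    have hc : cell v = cell w := by
      by_contra hne
      have h1 := hφm (cell v) (sub v, ⟨g v, hg v⟩, τ v)
      have h2 := hφm (cell w) (sub w, ⟨g w, hg w⟩, τ w)
      have heq' : φ (cell v) (sub v, ⟨g v, hg v⟩, τ v) = φ (cell w) (sub w, ⟨g w, hg w⟩, τ w) := heq
      rw [← heq'] at h2
      exact disjoint_left.1 (hdisj _ _ hne) h1 h2
    simp only [hc] at heq
    have := hφ _ heq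
    simp only [Prod.mk.injEq, Fin.mk.injEq] at this
    exact this.1
  · intro v u hu hvu
    exact hτ v u hu hvu

end Pool.Agent.Work.MP_db9399_qr
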