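import Pool.Agent.Work.MP_db9399_qr.HALL
import Pool.Agent.Work.MP_db9399_qr.SEQ
import Pool.Agent.Work.MP_db9399_qr.ZSEL
import Pool.Agent.Work.MP_db9399_qr.JCOL
import Pool.Agent.Work.MP_db9399_qr.DROP
import Pool.Agent.Work.MP_db9399_qr.POOL
import Pool.Agent.Work.MP_db9399_qr.PART
import Pool.Agent.Work.MP_db9399_qr.CHI
import Pool.Agent.Work.MP_db9399_qr.IND
import Pool.Agent.Work.MP_db9399_qr.VC
import Pool.Agent.Work.MP_db9399_qr.INS
import Pool.Agent.Work.MP_db9399_qr.GF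
import Pool.Agent.Work.MP_db9399_qr.CTX
import Pool.Agent.Work.MP_db9399_qr.FINQ
import Pool.Agent.Work.MP_db9399_qr.TASK

/-!
# MP_db9399: assembly of the theorem on quasirandom graphs
-/

set_option autoImplicit false

namespace Pool.Agent.Work.MP_db9399_qr

universe u

theorem stmt_MAIN : Stmt_MAIN.{u} :=
  stmt_FINQ.{u} (stmt_CTX.{u} stmt_PART.{u} stmt_CHI.{u} stmt_IND.{u})
    (stmt_INS.{u} stmt_JCOL.{u} stmt_VC.{u} stmt_DROP.{u} stmt_POOL.{u})
    (stmt_TASK.{u} stmt_SPLIT.{u} stmt_HALL.{u} stmt_SEQ.{u} stmt_ZSEL.{u}) stmt_GF.{u}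

end Pool.Agent.Work.MP_db9399_qr
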