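import Pool.Agent.Work.MP_db9399_qr.Interface

/-!
# Block HALL (owner helper11): perfect matchings in quasirandom graphs
-/

set_option autoImplicit false

namespace Pool.Agent.Work.MP_db9399_qr

open Finset Classical
open Pool.Agent.Work.MP_db9399_all (nb)

universe u

namespace HALLAux

variable {V : Type u} [Fintype V]

/-- The expansion estimate for one side. -/
theorem half (G : SimpleGraph V) (d : ℕ) (ε a1 a2 θ : ℝ) (A B E : Finset V)
    (hd : 0 < d) (he : 0 ≤ ε) (ha2 : 2 * θ + 2 * ε < a2) (hmix : Mix G d ε)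
    (hA : A.Nonempty) (hBA : B.card < A.card)
    (hE : ((A ∩ E).card : ℝ) ≤ θ * Fintype.card V)
    (h1 : ∀ x ∈ A, x ∉ E → a1 * d ≤ ((nb G x ∩ B).card : ℝ))
    (h2 : ∀ x ∈ A, x ∈ E → a2 * d ≤ ((nb G x ∩ B).card : ℝ)) :
    (a1 - 2 * ε) * Fintype.card V ≤ (B.card : ℝ) := by
  obtain ⟨x0, hx0⟩ := hA
  have hn : (0 : ℝ) < Fintype.card V := by
    have : 0 < Fintype.card V := Fintype.card_pos_iff.2 ⟨x0⟩
    exact_mod_cast this
  have hd' : (0 : ℝ) < d := by exact_mod_cast hd
  have hcard : (A ∩ E).card + (A \ E).card = A.card := by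
    rw [add_comm]; exact card_sdiff_add_card_inter A E
  have hBA' : (B.card : ℝ) < (A ∩ E).card + (A \ E).card := by
    have : B.card < (A ∩ E).card + (A \ E).card := by omega
    exact_mod_cast this
  rcases le_or_gt (A \ E).card (A ∩ E).card with hc | hc
  · exfalso
    have hc' : ((A \ E).card : ℝ) ≤ (A ∩ E).card := by exact_mod_cast hc
    have hpos : (0 : ℝ) < (A ∩ E).card := by
      have : 0 < (A ∩ E).card := by
        have : 0 < A.card := card_pos.2 ⟨x0, hx0⟩
        omega
      exact_mod_cast this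
    have hm := hmix (A ∩ E) B
    have hlow : ((A ∩ E).card : ℝ) * (a2 * d) ≤ ∑ a ∈ A ∩ E, ((nb G a ∩ B).card : ℝ) := by
      have := Finset.card_nsmul_le_sum (A ∩ E) (fun a => ((nb G a ∩ B).card : ℝ)) (a2 * d)
        (fun x hx => h2 x (mem_inter.1 hx).1 (mem_inter.1 hx).2)
      simpa [nsmul_eq_mul] using this
    have hB2 : (B.card : ℝ) ≤ 2 * (A ∩ E).card := by linarith
    have hmax : max ((A ∩ E).card : ℝ) (B.card : ℝ) ≤ 2 * (A ∩ E).card :=
      max_le (by linarith) hB2
    have h3 : (d : ℝ) / (Fintype.card V) * (A ∩ E).card * B.card ≤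
        d * (A ∩ E).card * (2 * θ) := by
      have hB3 : (B.card : ℝ) ≤ 2 * θ * Fintype.card V := by linarith
      calc (d : ℝ) / (Fintype.card V) * (A ∩ E).card * B.card
          ≤ (d : ℝ) / (Fintype.card V) * (A ∩ E).card * (2 * θ * Fintype.card V) := by
            apply mul_le_mul_of_nonneg_left hB3; positivity
        _ = d * (A ∩ E).card * (2 * θ) := by field_simp
    have h4 : ε * d * max ((A ∩ E).card : ℝ) (B.card : ℝ) ≤ ε * d * (2 * (A ∩ E).card) := by
      apply mul_le_mul_of_nonneg_left hmax; positivity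
    have h5 : ((A ∩ E).card : ℝ) * (a2 * d) ≤
        d * (A ∩ E).card * (2 * θ) + ε * d * (2 * (A ∩ E).card) := by linarith
    have h6 : (d : ℝ) * (A ∩ E).card * (a2 - (2 * θ + 2 * ε)) ≤ 0 := by nlinarith
    have h7 : 0 < (d : ℝ) * (A ∩ E).card * (a2 - (2 * θ + 2 * ε)) := by
      apply mul_pos (mul_pos hd' hpos); linarith
    linarith
  · have hc' : ((A ∩ E).card : ℝ) < (A \ E).card := by exact_mod_cast hc
    have hpos : (0 : ℝ) < (A \ E).card := by
      have : 0 < (A \ E).card := by omega
      exact_mod_cast this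
    have hm := hmix (A \ E) B
    have hlow : ((A \ E).card : ℝ) * (a1 * d) ≤ ∑ a ∈ A \ E, ((nb G a ∩ B).card : ℝ) := by
      have := Finset.card_nsmul_le_sum (A \ E) (fun a => ((nb G a ∩ B).card : ℝ)) (a1 * d)
        (fun x hx => h1 x (mem_sdiff.1 hx).1 (mem_sdiff.1 hx).2)
      simpa [nsmul_eq_mul] using this
    have hmax : max ((A \ E).card : ℝ) (B.card : ℝ) ≤ 2 * (A \ E).card :=
      max_le (by linarith) (by linarith)
    have h4 : ε * d * max ((A \ E).card : ℝ) (B.card : ℝ) ≤ ε * d * (2 * (A \ E).card) := by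
      apply mul_le_mul_of_nonneg_left hmax; positivity
    have h5 : ((A \ E).card : ℝ) * (a1 * d) ≤
        d / (Fintype.card V) * (A \ E).card * B.card + ε * d * (2 * (A \ E).card) := by linarith
    have h6 : (a1 - 2 * ε) * Fintype.card V * ((d : ℝ) * (A \ E).card) ≤
        B.card * ((d : ℝ) * (A \ E).card) := by
      have h8 : (d : ℝ) / (Fintype.card V) * (A \ E).card * B.card * Fintype.card V =
          B.card * ((d : ℝ) * (A \ E).card) := by field_simp
      have h9 := mul_le_mul_of_nonneg_right h5 hn.le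
      rw [add_mul, h8] at h9
      nlinarith
    exact le_of_mul_le_mul_right h6 (mul_pos hd' hpos)

end HALLAux

open HALLAux in
theorem stmt_HALL : Stmt_HALL.{u} := by
  intro V _ G d ε a1 a2 θ X Y E Rl hd he hθ ha2 hmix hR hXY hXE hYE hx1 hx2 hy1 hy2 hX
  -- Hall's condition
  have hall : ∀ A : Finset {x // x ∈ X},
      A.card ≤ (A.biUnion (fun x => Y.filter (fun y => Rl x.1 y))).card := by
    intro A0
    by_contra hcon
    rw [not_le] at hcon
    set A : Finset V := A0.map ⟨Subtype.val, Subtype.val_injective⟩ with hAdef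
    set B : Finset V := A0.biUnion (fun x => Y.filter (fun y => Rl x.1 y)) with hBdef
    have hAc : A.card = A0.card := card_map _
    have hAX : A ⊆ X := by
      intro x hx
      rw [hAdef, mem_map] at hx
      obtain ⟨a, _, rfl⟩ := hx
      exact a.2
    have hBY : B ⊆ Y := by
      intro y hy
      rw [hBdef, mem_biUnion] at hy
      obtain ⟨a, _, ha⟩ := hy
      exact (mem_filter.1 ha).1
    have hAB : ∀ x ∈ A, ∀ y ∈ Y, Rl x y → y ∈ B := by
      intro x hx y hy hr
      rw [hAdef, mem_map] at hx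
      obtain ⟨a, ha, rfl⟩ := hx
      rw [hBdef, mem_biUnion]
      exact ⟨a, ha, mem_filter.2 ⟨hy, hr⟩⟩
    have hBA : B.card < A.card := by rw [hAc]; exact hcon
    have hAne : A.Nonempty := card_pos.1 (by omega)
    -- first half
    have hsub1 : ∀ x ∈ A, Y.filter (fun y => Rl x y) ⊆ nb G x ∩ B := by
      intro x hx y hy
      rw [mem_filter] at hy
      rw [mem_inter]
      refine ⟨?_, hAB x hx y hy.1 hy.2⟩
      have := hR x (hAX hx) y hy.1 hy.2
      simpa [nb] using this
    have H1 : (a1 - 2 * ε) * Fintype.card V ≤ (B.card : ℝ) := by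
      refine half G d ε a1 a2 θ A B E hd he ha2 hmix hAne hBA ?_ ?_ ?_
      · refine le_trans ?_ hXE
        exact_mod_cast card_le_card (inter_subset_inter_right hAX)
      · intro x hx hxE
        refine (hx1 x (hAX hx) hxE).trans ?_
        exact_mod_cast card_le_card (hsub1 x hx)
      · intro x hx hxE
        refine (hx2 x (hAX hx) hxE).trans ?_
        exact_mod_cast card_le_card (hsub1 x hx)
    -- second half
    have hcX : (X \ A).card + A.card = X.card := card_sdiff_add_card_eq_card hAX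
    have hcY : (Y \ B).card + B.card = Y.card := card_sdiff_add_card_eq_card hBY
    have hlt : (X \ A).card < (Y \ B).card := by omega
    have hBne : (Y \ B).Nonempty := card_pos.1 (by omega)
    have hsub2 : ∀ y ∈ Y \ B, X.filter (fun x => Rl x y) ⊆ nb G y ∩ (X \ A) := by
      intro y hy x hx
      rw [mem_filter] at hx
      rw [mem_sdiff] at hy
      rw [mem_inter, mem_sdiff]
      refine ⟨?_, hx.1, fun hxA => hy.2 (hAB x hxA y hy.1 hx.2)⟩
      have := (hR x hx.1 y hy.1 hx.2).symm
      simpa [nb] using this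
    have H2 : (a1 - 2 * ε) * Fintype.card V ≤ ((X \ A).card : ℝ) := by
      refine half G d ε a1 a2 θ (Y \ B) (X \ A) E hd he ha2 hmix hBne hlt ?_ ?_ ?_
      · refine le_trans ?_ hYE
        exact_mod_cast card_le_card (inter_subset_inter_right sdiff_subset)
      · intro y hy hyE
        refine (hy1 y (mem_sdiff.1 hy).1 hyE).trans ?_
        exact_mod_cast card_le_card (hsub2 y hy)
      · intro y hy hyE
        refine (hy2 y (mem_sdiff.1 hy).1 hyE).trans ?_
        exact_mod_cast card_le_card (hsub2 y hy)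
    have hsum : (B.card : ℝ) + (X \ A).card < X.card := by
      have : B.card + (X \ A).card < X.card := by omega
      exact_mod_cast this
    linarith
  obtain ⟨f, hfinj, hf⟩ := (Finset.all_card_le_biUnion_card_iff_exists_injective
    (fun x : {x // x ∈ X} => Y.filter (fun y => Rl x.1 y))).1 hall
  have hfY : ∀ x, f x ∈ Y := fun x => (mem_filter.1 (hf x)).1
  have hfR : ∀ x, Rl x.1 (f x) := fun x => (mem_filter.1 (hf x)).2
  -- surjectivity
  have himg : (univ : Finset {x // x ∈ X}).image f = Y := by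
    apply eq_of_subset_of_card_le
    · intro y hy
      rw [mem_image] at hy
      obtain ⟨x, _, rfl⟩ := hy
      exact hfY x
    · rw [card_image_of_injective _ hfinj]
      simp [hXY]
  refine ⟨(univ : Finset {x // x ∈ X}).image (fun x => (x.1, f x)), ?_, ?_, ?_, ?_⟩
  · intro e he
    rw [mem_image] at he
    obtain ⟨x, _, rfl⟩ := he
    exact hfR x
  · intro e he
    rw [mem_image] at he
    obtain ⟨x, _, rfl⟩ := he
    exact ⟨x.2, hfY x⟩
  · intro x hx
    refine ⟨(x, f ⟨x, hx⟩), ⟨mem_image.2 ⟨⟨x, hx⟩, mem_univ _, rfl⟩, rfl⟩, ?_⟩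
    rintro e ⟨he, hex⟩
    rw [mem_image] at he
    obtain ⟨z, _, rfl⟩ := he
    have : z = ⟨x, hx⟩ := Subtype.ext hex
    rw [this]
  · intro y hy
    rw [← himg, mem_image] at hy
    obtain ⟨x, _, rfl⟩ := hy
    refine ⟨(x.1, f x), ⟨mem_image.2 ⟨x, mem_univ _, rfl⟩, rfl⟩, ?_⟩
    rintro e ⟨he, hex⟩
    rw [mem_image] at he
    obtain ⟨z, _, rfl⟩ := he
    have : z = x := hfinj hex
    rw [this]

end Pool.Agent.Work.MP_db9399_qr
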