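import Pool.Agent.Work.MP_db9399_qr.Final

/-!
There are `ε > 0` and `d₀` with the following property. Let `G` be a finite graph with maximum
degree `Δ ≥ d₀` and at least `3 Δ` vertices which is nearly regular (all degrees are at least
`(1 - ε) Δ`) and quasirandom (between any two sets `A`, `B` of vertices there are at most
`Δ / n · |A| |B| + ε Δ max(|A|, |B|)` edges, `n` the number of vertices). Then for every
`k ≥ Δ + 2` every total-`k`-colouring of every distance-3 matching of `G` extends to a
total-`k`-colouring of `G`.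
-/

namespace Pool.Agent.Results.MP_db9399_co.QuasirandomGraphs

open _root_.MP_db9399_co

universe u

/-- Q1 for nearly regular quasirandom graphs with at least `3 Δ` vertices. -/
theorem result : ∃ (ε : ℝ) (d₀ : ℕ), 0 < ε ∧ ∀ (V : Type u) [Fintype V] (G : SimpleGraph V)
    [DecidableRel G.Adj] (k : ℕ), d₀ ≤ G.maxDegree → 3 * G.maxDegree ≤ Fintype.card V →
      G.maxDegree + 2 ≤ k →
      (∀ v, (1 - ε) * G.maxDegree ≤ (G.degree v : ℝ)) →
      (∀ A B : Finset V, ((G.interedges A B).card : ℝ) ≤
        (G.maxDegree : ℝ) / (Fintype.card V) * A.card * B.card +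
          ε * G.maxDegree * max (A.card : ℝ) (B.card : ℝ)) →
      ∀ H : G.Subgraph, IsDistThreeMatching H → EveryTotalColoringExtends H (Fin k) := by
  obtain ⟨ε, d₀, hε, h⟩ := Pool.Agent.Work.MP_db9399_qr.stmt_MAIN.{u}
  refine ⟨ε, d₀, hε, ?_⟩
  intro V _ G _ k h0 h3 hk hd hm H hH
  exact h V G G.maxDegree k h0 h3 hk (fun v => ⟨G.degree_le_maxDegree v, hd v⟩) hm H hH

end Pool.Agent.Results.MP_db9399_co.QuasirandomGraphs
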